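import Pool.Agent.SYS.GR.Mach

/-! SYS-GR-Dead: a word with too many layers is dead (the growth phase multiplies the perimeter by `m'` in every layer). -/

namespace SYS.GR

private theorem step_cases {m' : ℝ} {p1 R0 : ℕ} {x : XS} {t : Stp} {l : LS} {o : Option ℕ}
    (h : XS.step m' p1 R0 x t = .live l o) : ∃ l0 o0, x = .live l0 o0 ∧ l = l0.step t ∧
      ((o0 = none ∧ o = none ∧ (l.r = l0.r ∨ l.r < R0)) ∨
        (o0 = none ∧ o = some l.p ∧ p1 ≤ l.p ∧ l.r ≠ l0.r) ∨
        (o0 = o ∧ l.r = l0.r) ∨
        (∃ p0, o0 = some p0 ∧ o = some l.p ∧ m' * p0 ≤ l.p ∧ l.r ≠ l0.r)) := by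
  rcases x with _ | ⟨l0, _ | p0⟩
  · exact XS.noConfusion h
  · refine ⟨l0, none, rfl, ?_⟩
    unfold XS.step at h
    dsimp only at h
    by_cases h1 : (l0.step t).r = l0.r
    · rw [if_pos h1] at h
      injection h with h2 h3
      refine ⟨h2.symm, Or.inl ⟨rfl, h3.symm, Or.inl ?_⟩⟩
      rw [← h2]
      exact h1
    · rw [if_neg h1] at h
      by_cases h4 : p1 ≤ (l0.step t).p
      · rw [if_pos h4] at h
        injection h with h2 h3
        refine ⟨h2.symm, Or.inr (Or.inl ⟨rfl, ?_, ?_, ?_⟩)⟩
        · rw [← h3, h2]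
        · rw [← h2]
          exact h4
        · rw [← h2]
          exact h1
      · rw [if_neg h4] at h
        by_cases h5 : R0 ≤ (l0.step t).r
        · rw [if_pos h5] at h
          exact absurd h (by simp)
        · rw [if_neg h5] at h
          injection h with h2 h3
          refine ⟨h2.symm, Or.inl ⟨rfl, h3.symm, Or.inr ?_⟩⟩
          rw [← h2]
          exact not_le.1 h5
  · refine ⟨l0, some p0, rfl, ?_⟩
    unfold XS.step at h
    dsimp only at h
    by_cases h1 : (l0.step t).r = l0.r
    · rw [if_pos h1] at h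
      injection h with h2 h3
      refine ⟨h2.symm, Or.inr (Or.inr (Or.inl ⟨h3, ?_⟩))⟩
      rw [← h2]
      exact h1
    · rw [if_neg h1] at h
      by_cases h4 : m' * (p0 : ℝ) ≤ ((l0.step t).p : ℝ)
      · rw [if_pos h4] at h
        injection h with h2 h3
        refine ⟨h2.symm, Or.inr (Or.inr (Or.inr ⟨p0, rfl, ?_, ?_, ?_⟩))⟩
        · rw [← h3, h2]
        · rw [← h2]
          exact h4
        · rw [← h2]
          exact h1
      · rw [if_neg h4] at h
        exact absurd h (by simp)

theorem live_eq (m' : ℝ) (p1 R0 s : ℕ) (w : List Stp) (l : LS) (o : Option ℕ)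
    (h : rx (XS.step m' p1 R0) (.live (start s) none) w = .live l o) : l = lrun (start s) w := by
  induction w using List.reverseRecOn generalizing l o with
  | nil =>
    rw [rx_nil] at h
    injection h with h1 h2
    rw [lrun_nil]
    exact h1.symm
  | append_singleton w t ih =>
    rw [rx_append, rx_cons, rx_nil] at h
    obtain ⟨l0, o0, h1, h2, -⟩ := step_cases h
    rw [lrun_append, lrun_cons, lrun_nil, ← ih l0 o0 h1]
    exact h2

private theorem al_gen (m' : ℝ) (hm' : 1 ≤ m') (p1 R0 : ℕ) (w : List Stp) : ∀ (l : LS) (o : Option ℕ), WOk l.p w →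
    (∀ p0, o = some p0 → p1 ≤ p0) →
    (∀ u, u <+: w → u ≠ w → rx (XS.step m' p1 R0) (.live l o) u ≠ .dead) →
    Al (XS.step m' p1 R0) (XS.D p1) (.live l o) w := by
  induction w with
  | nil => intro l o _ _ _; exact trivial
  | cons t w ih =>
    intro l o hw ho hl
    obtain ⟨hok, hw'⟩ := hw
    refine ⟨?_, ?_⟩
    · rcases o with _ | p0
      · exact hok
      · exact ⟨hok, ho p0 rfl⟩
    · by_cases hwn : w = []
      · rw [hwn]
        exact trivial
      · have h1 : rx (XS.step m' p1 R0) (.live l o) [t] ≠ .dead :=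
          hl [t] ⟨w, rfl⟩ (by
            intro h2
            injection h2 with _ h3
            exact hwn h3.symm)
        rw [rx_cons, rx_nil] at h1
        obtain ⟨l', o', hlo⟩ : ∃ l' o', XS.step m' p1 R0 (.live l o) t = .live l' o' := by
          rcases hx : XS.step m' p1 R0 (.live l o) t with _ | ⟨l', o'⟩
          · exact absurd hx h1
          · exact ⟨l', o', rfl⟩
        rw [hlo]
        obtain ⟨l0, o0, h2, h3, h4⟩ := step_cases hlo
        injection h2 with h5 h6
        subst h5
        subst h6
        apply ih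
        · rw [h3, step_p l t hok]
          exact hw'
        · intro p0 hp0
          rcases h4 with ⟨_, h5, _⟩ | ⟨_, h5, h6, _⟩ | ⟨h5, _⟩ | ⟨q, h5, h6, h7, _⟩
          · rw [h5] at hp0
            exact absurd hp0 (by simp)
          · rw [h5] at hp0
            injection hp0 with hp0
            rw [← hp0]
            exact h6
          · exact ho p0 (by rw [h5, hp0])
          · rw [h6] at hp0
            injection hp0 with hp0
            rw [← hp0]
            have h8 : p1 ≤ q := ho q h5
            have h9 : (q : ℝ) ≤ l'.p := by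
              refine le_trans ?_ h7
              have : (0 : ℝ) ≤ q := Nat.cast_nonneg q
              nlinarith
            exact le_trans h8 (by exact_mod_cast h9)
        · intro u hu hune
          have h5 := hl (t :: u) (by
            obtain ⟨v, hv⟩ := hu
            exact ⟨v, by rw [← hv]; rfl⟩) (by
            intro h6
            injection h6 with _ h7
            exact hune h7)
          rw [rx_cons, hlo] at h5
          exact h5

theorem al_D (m' : ℝ) (hm' : 1 ≤ m') (p1 R0 s : ℕ) (hs : 1 ≤ s) (w : List Stp) (hw : WOk s w)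
    (hl : ∀ u, u <+: w → u ≠ w → rx (XS.step m' p1 R0) (.live (start s) none) u ≠ .dead) :
    Al (XS.step m' p1 R0) (XS.D p1) (.live (start s) none) w :=
  al_gen m' hm' p1 R0 w (start s) none hw (by simp) hl

private theorem inv (m' : ℝ) (hm' : 1 < m') (p1 R0 s : ℕ) (hR0 : 1 ≤ R0) (hs : 1 ≤ s) (w : List Stp) :
    ∀ (l : LS) (o : Option ℕ), WOk s w →
    rx (XS.step m' p1 R0) (.live (start s) none) w = .live l o →
    (o = none → l.r < R0) ∧
      (∀ p0, o = some p0 → 1 ≤ p0 ∧ m' ^ l.r ≤ m' ^ R0 * (p0 : ℝ) ∧ ∃ u, u <+: w ∧ p0 = wend s u) := by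
  induction w using List.reverseRecOn with
  | nil =>
    intro l o _ h
    rw [rx_nil] at h
    injection h with h1 h2
    refine ⟨?_, ?_⟩
    · intro _
      rw [← h1]
      exact hR0
    · intro p0 hp0
      rw [← h2] at hp0
      exact absurd hp0 (by simp)
  | append_singleton w t ih =>
    intro l o hw h
    have hwf := hw
    rw [WOk_append] at hw
    have h' := h
    rw [rx_append, rx_cons, rx_nil] at h
    obtain ⟨l0, o0, h1, h2, h4⟩ := step_cases h
    obtain ⟨i1, i2⟩ := ih l0 o0 hw.1 h1
    have hlp : l.p = wend s (w ++ [t]) := by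
      rw [live_eq m' p1 R0 s (w ++ [t]) l o h']
      exact lrun_p (start s) (w ++ [t]) hwf
    have hlp1 : 1 ≤ l.p := by
      rw [hlp]
      exact one_le_wend hs hwf
    have hm0 : 0 < m' := by linarith
    have hpow : (0 : ℝ) < m' ^ R0 := pow_pos hm0 _
    rcases h4 with ⟨h5, h6, h7⟩ | ⟨h5, h6, h7, h8⟩ | ⟨h5, h6⟩ | ⟨q, h5, h6, h7, h8⟩
    · refine ⟨?_, ?_⟩
      · intro _
        rcases h7 with h7 | h7
        · rw [h7]
          exact i1 h5
        · exact h7
      · intro p0 hp0
        rw [h6] at hp0
        exact absurd hp0 (by simp)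
    · refine ⟨?_, ?_⟩
      · intro h9
        rw [h6] at h9
        exact absurd h9 (by simp)
      · intro p0 hp0
        rw [h6] at hp0
        injection hp0 with hp0
        rw [← hp0]
        refine ⟨hlp1, ?_, w ++ [t], List.prefix_rfl, hlp⟩
        have h9 := i1 h5
        have h10 : l.r ≤ R0 := by
          rcases step_r l0 t with h11 | ⟨h11, _⟩
          · exact absurd (by rw [h2]; exact h11) h8
          · rw [h2, h11]
            omega
        have h12 : m' ^ l.r ≤ m' ^ R0 := pow_le_pow_right₀ hm'.le h10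
        have h13 : (1 : ℝ) ≤ l.p := by exact_mod_cast hlp1
        nlinarith
    · refine ⟨?_, ?_⟩
      · intro h9
        rw [h6]
        exact i1 (by rw [h5, h9])
      · intro p0 hp0
        obtain ⟨a1, a2, u, a3, a4⟩ := i2 p0 (by rw [h5, hp0])
        refine ⟨a1, by rw [h6]; exact a2, u, a3.trans (List.prefix_append _ _), a4⟩
    · refine ⟨?_, ?_⟩
      · intro h9
        rw [h6] at h9
        exact absurd h9 (by simp)
      · intro p0 hp0
        rw [h6] at hp0
        injection hp0 with hp0
        rw [← hp0]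
        refine ⟨hlp1, ?_, w ++ [t], List.prefix_rfl, hlp⟩
        obtain ⟨a1, a2, u, a3, a4⟩ := i2 q h5
        have h10 : l.r = l0.r + 1 := by
          rcases step_r l0 t with h11 | ⟨h11, _⟩
          · exact absurd (by rw [h2]; exact h11) h8
          · rw [h2, h11]
        rw [h10, pow_succ]
        calc m' ^ l0.r * m' ≤ m' ^ R0 * (q : ℝ) * m' := mul_le_mul_of_nonneg_right a2 hm0.le
          _ = m' ^ R0 * (m' * q) := by ring
          _ ≤ m' ^ R0 * (l.p : ℝ) := mul_le_mul_of_nonneg_left h7 hpow.le

theorem dead_of_lay (m' : ℝ) (hm' : 1 < m') (p1 R0 s : ℕ) (hp1 : 1 ≤ p1) (hR0 : 1 ≤ R0) (hs : 1 ≤ s) (P : ℝ) (hP : 1 ≤ P)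
    (w : List Stp) (hw : WOk s w) (hu : ∀ u, u <+: w → u ≠ w → (wend s u : ℝ) < P)
    (hr : (R0 : ℝ) + 1 + Real.log P / Real.log m' < lay s w) :
    rx (XS.step m' p1 R0) (.live (start s) none) w = .dead := by
  have hlm : 0 < Real.log m' := Real.log_pos hm'
  have hlP : 0 ≤ Real.log P := Real.log_nonneg hP
  have hq : 0 ≤ Real.log P / Real.log m' := div_nonneg hlP hlm.le
  have hR0' : (1 : ℝ) ≤ R0 := by exact_mod_cast hR0
  rcases List.eq_nil_or_concat w with h0 | ⟨w0, t, h0⟩
  · rw [h0] at hr
    have h1 : lay s [] = 0 := rfl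
    rw [h1, Nat.cast_zero] at hr
    linarith
  · rw [List.concat_eq_append] at h0
    subst h0
    have hw0 := (WOk_append s w0 [t]).1 hw
    have hlay : lay s (w0 ++ [t]) ≤ lay s w0 + 1 := by
      unfold lay
      rw [lrun_append, lrun_cons, lrun_nil]
      rcases step_r (lrun (start s) w0) t with h1 | ⟨h1, _⟩
      · rw [h1]
        exact Nat.le_succ _
      · rw [h1]
    have hlay' : ((lay s (w0 ++ [t]) : ℕ) : ℝ) ≤ lay s w0 + 1 := by exact_mod_cast hlay
    rw [rx_append, rx_cons, rx_nil]
    rcases hx : rx (XS.step m' p1 R0) (.live (start s) none) w0 with _ | ⟨l, o⟩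
    · rfl
    · exfalso
      have hl := live_eq m' p1 R0 s w0 l o hx
      have hlr : l.r = lay s w0 := by rw [hl]; rfl
      obtain ⟨i1, i2⟩ := inv m' hm' p1 R0 s hR0 hs w0 l o hw0.1 hx
      rcases o with _ | p0
      · have h1 := i1 rfl
        rw [hlr] at h1
        have h2 : (lay s w0 : ℝ) + 1 ≤ R0 := by exact_mod_cast h1
        linarith
      · obtain ⟨a1, a2, u, a3, a4⟩ := i2 p0 rfl
        have h1 : (p0 : ℝ) < P := by
          rw [a4]
          refine hu u (a3.trans (List.prefix_append _ _)) ?_
          intro h2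
          have h3 := a3.length_le
          rw [h2, List.length_append, List.length_singleton] at h3
          omega
        have hp0 : (1 : ℝ) ≤ p0 := by exact_mod_cast a1
        rw [hlr] at a2
        have hm0 : 0 < m' := by linarith
        have h2 : (lay s w0 : ℝ) * Real.log m' ≤ R0 * Real.log m' + Real.log P := by
          have h3 := Real.log_le_log (pow_pos hm0 _) a2
          rw [Real.log_pow, Real.log_mul (pow_pos hm0 _).ne' (by linarith), Real.log_pow] at h3
          have h4 : Real.log p0 ≤ Real.log P := Real.log_le_log (by linarith) h1.le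
          linarith
        have h5 : (lay s w0 : ℝ) ≤ R0 + Real.log P / Real.log m' := by
          rw [← sub_le_iff_le_add', le_div_iff₀ hlm]
          linarith
        linarith

end SYS.GR
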