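import Pool.Agent.SYS.Num.Words

/-!
# SYS-GR: growth of the layers (definitions)

Purely numerical: a law `Λ` of the steps, the layer rule as a function of the word.
Mathematics: Part 3 of `/team-store/syst_prob_23.md`, in the form of `/team-store/syst_gro.md`.
-/

namespace SYS.GR

/-- Law of the steps: `T` with probability `A`, `L k a` and `R k a` with probability `q k a` each. -/
structure Law where
  A : ℝ
  q : ℕ → ℕ → ℝ
  /-- exponential moments of order `e` -/
  e : ℝ
  hA : 1 / 2 < A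
  hq : ∀ k a, 0 ≤ q k a
  he : 0 < e
  hs : Summable fun z : ℕ × ℕ => q z.1 z.2 * Real.exp (e * (z.1 + z.2))
  mass : A + 2 * ∑' z : ℕ × ℕ, q z.1 z.2 = 1
  /-- positive drift of the perimeter -/
  hd : 0 < A - 2 * ∑' z : ℕ × ℕ, ((z.1 : ℝ) + 2) * q z.1 z.2
  ha : 0 < ∑' z : ℕ × ℕ, ((z.1 : ℝ) + 1) * q z.1 z.2

/-- drift of the perimeter -/
noncomputable def Law.d (Λ : Law) : ℝ := Λ.A - 2 * ∑' z : ℕ × ℕ, ((z.1 : ℝ) + 2) * Λ.q z.1 z.2

/-- mean consumption of old corners per step -/
noncomputable def Law.a (Λ : Law) : ℝ := ∑' z : ℕ × ℕ, ((z.1 : ℝ) + 1) * Λ.q z.1 z.2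

/-- growth exponent of the layers -/
noncomputable def Law.kap (Λ : Law) : ℝ := Real.log (1 + Λ.d / Λ.a)

/-- weight of a step -/
def Law.w (Λ : Law) (s : Stp) : ℝ := s.wt Λ.A Λ.q

/-- weight of a word -/
def Law.ww (Λ : Law) (u : List Stp) : ℝ := wwt Λ.A Λ.q u

/-- expectation of a function of one step -/
noncomputable def Law.E (Λ : Law) (f : Stp → ℝ) : ℝ :=
  Λ.A * f .T + ∑' z : ℕ × ℕ, Λ.q z.1 z.2 * (f (.L z.1 z.2) + f (.R z.1 z.2))

/-- size of a step -/
def sz : Stp → ℝ
  | .T => 0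
  | .L k a => k + a
  | .R k a => k + a

/-- increment of the perimeter -/
def dP : Stp → ℝ
  | .T => 1
  | .L k _ => -(k + 2)
  | .R k _ => -(k + 2)

/-- number of triangles -/
def dV : Stp → ℝ
  | .T => 1
  | .L _ a => a
  | .R _ a => a

/-- increment of the number of old corners when there is no overflow -/
def dA : Stp → ℝ
  | .T => 0
  | .L _ _ => 0
  | .R k _ => -(k + 1)

/-- functions of at most exponential growth (an exponent for which moments exist) -/
def Law.Gr (Λ : Law) (f : Stp → ℝ) : Prop := ∃ C : ℝ, ∀ s, |f s| ≤ C * Real.exp (Λ.e * sz s)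

/-! ## Layers -/

/-- `r` completed layers, `al` corners with label `r`, `be` corners with label `r + 1`. -/
structure LS where
  r : ℕ
  al : ℕ
  be : ℕ

/-- perimeter -/
def LS.p (l : LS) : ℕ := l.al + l.be

/-- The layer rule. -/
def LS.step (l : LS) : Stp → LS
  | .T => ⟨l.r, l.al, l.be + 1⟩
  | .L k _ => if k + 2 ≤ l.be then ⟨l.r, l.al, l.be - (k + 2)⟩ else ⟨l.r, l.al + l.be - (k + 2), 0⟩
  | .R k _ => if l.be = 0 then ⟨l.r, l.al - (k + 2), 0⟩ else
      if k + 2 ≤ l.al then ⟨l.r, l.al - (k + 1), l.be - 1⟩ else ⟨l.r + 1, l.al + l.be - (k + 2), 0⟩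

/-- The state after a word. -/
def lrun (l : LS) (w : List Stp) : LS := w.foldl LS.step l

/-- Start. -/
def start (p : ℕ) : LS := ⟨0, p, 0⟩

/-- The number of layers completed by the word `w` started at perimeter `s`. -/
def lay (s : ℕ) (w : List Stp) : ℕ := (lrun (start s) w).r

/-- `M = p + (m - 1) al` -/
noncomputable def MM (m : ℝ) (l : LS) : ℝ := l.p + (m - 1) * l.al

/-! ## Supermartingales -/

/-- `U` (function of the perimeter and of the number of triangles used) is a nonnegative supermartingale. -/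
def SM (Λ : Law) (U : ℕ → ℕ → ℝ) : Prop :=
  (∀ p v, 0 ≤ U p v) ∧ ∀ p v (F : Finset Stp), 1 ≤ p → (∀ s ∈ F, s.Ok p) →
    ∑ s ∈ F, Λ.w s * U (s.nx p) (v + s.vol) ≤ U p v

/-! ## Machines -/

/-- Weight of a word run in a machine. -/
def wg {σ : Type} (step : σ → Stp → σ) (g : σ → Stp → ℝ) : σ → List Stp → ℝ
  | _, [] => 1
  | x, s :: w => g x s * wg step g (step x s) w

/-- All steps of the word are allowed. -/
def Al {σ : Type} (step : σ → Stp → σ) (D : σ → Stp → Prop) : σ → List Stp → Prop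
  | _, [] => True
  | x, s :: w => D x s ∧ Al step D (step x s) w

/-- The state after the word. -/
def rx {σ : Type} (step : σ → Stp → σ) (x : σ) (w : List Stp) : σ := w.foldl step x

theorem rx_nil {σ : Type} (step : σ → Stp → σ) (x : σ) : rx step x [] = x := rfl
theorem rx_cons {σ : Type} (step : σ → Stp → σ) (x : σ) (s : Stp) (w : List Stp) :
    rx step x (s :: w) = rx step (step x s) w := rfl
theorem rx_append {σ : Type} (step : σ → Stp → σ) (x : σ) (u w : List Stp) :
    rx step x (u ++ w) = rx step (rx step x u) w := List.foldl_append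

theorem lrun_nil (l : LS) : lrun l [] = l := rfl
theorem lrun_cons (l : LS) (s : Stp) (w : List Stp) : lrun l (s :: w) = lrun (l.step s) w := rfl
theorem lrun_append (l : LS) (u w : List Stp) : lrun l (u ++ w) = lrun (lrun l u) w := List.foldl_append

theorem Law.A_pos (Λ : Law) : 0 < Λ.A := lt_trans (by norm_num) Λ.hA
theorem Law.d_pos (Λ : Law) : 0 < Λ.d := Λ.hd
theorem Law.a_pos (Λ : Law) : 0 < Λ.a := Λ.ha
theorem Law.kap_pos (Λ : Law) : 0 < Λ.kap := by
  unfold Law.kap
  have := div_pos Λ.d_pos Λ.a_pos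
  exact Real.log_pos (by linarith)

theorem Law.w_nonneg (Λ : Law) (s : Stp) : 0 ≤ Λ.w s := s.wt_nonneg Λ.A_pos.le Λ.hq
theorem Law.ww_nonneg (Λ : Law) (u : List Stp) : 0 ≤ Λ.ww u := wwt_nonneg Λ.A_pos.le Λ.hq u
theorem Law.ww_nil (Λ : Law) : Λ.ww [] = 1 := rfl
theorem Law.ww_cons (Λ : Law) (s : Stp) (u : List Stp) : Λ.ww (s :: u) = Λ.w s * Λ.ww u := wwt_cons _ _ _ _
theorem Law.ww_append (Λ : Law) (u v : List Stp) : Λ.ww (u ++ v) = Λ.ww u * Λ.ww v := wwt_append _ _ _ _

theorem sz_nonneg (s : Stp) : 0 ≤ sz s := by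
  cases s with
  | T => exact le_rfl
  | L k a => unfold sz; positivity
  | R k a => unfold sz; positivity

theorem dV_eq (s : Stp) : dV s = (s.vol : ℝ) := by
  cases s <;> simp [dV, Stp.vol]

end SYS.GR
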