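import Pool.Agent.SYS.GR.LawA

/-!
# SYS-GR-Expo: exponential moments for small parameters

A second order bound of `exp`; the exponential moments of order `e` bound the remainder.
-/

namespace SYS.GR

private theorem expo_exp_le (z : ℝ) : Real.exp z ≤ 1 + z + z ^ 2 * Real.exp |z| := by
  have h1 : 1 ≤ Real.exp |z| := Real.one_le_exp (abs_nonneg z)
  by_cases h : |z| ≤ 1
  · have h2 := Real.abs_exp_sub_one_sub_id_le h
    have h3 := (abs_le.1 h2).2
    have h4 : z ^ 2 ≤ z ^ 2 * Real.exp |z| := le_mul_of_one_le_right (sq_nonneg z) h1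
    linarith
  · push Not at h
    rcases le_or_gt 0 z with hz | hz
    · rw [abs_of_nonneg hz] at h h1 ⊢
      have h2 : 1 ≤ z ^ 2 := one_le_pow₀ h.le
      have h3 : Real.exp z ≤ z ^ 2 * Real.exp z := le_mul_of_one_le_left (Real.exp_pos z).le h2
      linarith
    · rw [abs_of_neg hz] at h h1 ⊢
      have h2 : Real.exp z ≤ 1 := Real.exp_le_one_iff.2 hz.le
      have h3 : z ^ 2 ≤ z ^ 2 * Real.exp (-z) := le_mul_of_one_le_right (sq_nonneg z) h1
      nlinarith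

private theorem expo_sq_le {e t : ℝ} (he : 0 < e) (ht : 0 ≤ t) :
    (1 + t) ^ 2 ≤ (max 1 (4 / e)) ^ 2 * Real.exp (e * t / 2) := by
  have h1 : 1 + t ≤ max 1 (4 / e) * (1 + e * t / 4) := by
    have h2 : 1 ≤ max 1 (4 / e) := le_max_left _ _
    have h3 : t ≤ max 1 (4 / e) * (e * t / 4) := by
      have h4 : 4 / e ≤ max 1 (4 / e) := le_max_right _ _
      have h5 : 4 / e * (e * t / 4) = t := by field_simp
      calc t = 4 / e * (e * t / 4) := h5.symm
        _ ≤ max 1 (4 / e) * (e * t / 4) := mul_le_mul_of_nonneg_right h4 (by positivity)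
    linarith
  have h6 : 1 + e * t / 4 ≤ Real.exp (e * t / 4) := by
    have := Real.add_one_le_exp (e * t / 4)
    linarith
  have h7 : Real.exp (e * t / 2) = Real.exp (e * t / 4) ^ 2 := by
    rw [← Real.exp_nat_mul]
    congr 1
    push_cast
    ring
  rw [h7, ← mul_pow]
  have h8 : 0 ≤ max 1 (4 / e) := le_trans zero_le_one (le_max_left _ _)
  apply pow_le_pow_left₀ (by linarith)
  exact h1.trans (mul_le_mul_of_nonneg_left h6 h8)

theorem expo (Λ : Law) (X : Stp → ℝ) (C : ℝ) (hX : ∀ s, |X s| ≤ C * (1 + sz s)) (hm : Λ.E X < 0) :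
    ∃ θ₀ : ℝ, 0 < θ₀ ∧ ∀ θ : ℝ, 0 < θ → θ ≤ θ₀ →
      Λ.Gr (fun s => Real.exp (θ * X s)) ∧ Λ.E (fun s => Real.exp (θ * X s)) < 1 := by
  have he := Λ.he
  have hC1 : 1 ≤ max C 1 := le_max_right _ _
  have hX' : ∀ s, |X s| ≤ max C 1 * (1 + sz s) := by
    intro s
    have h1 := sz_nonneg s
    exact (hX s).trans (mul_le_mul_of_nonneg_right (le_max_left _ _) (by linarith))
  generalize max C 1 = D at hC1 hX'
  have hD0 : 0 < D := by linarith
  obtain ⟨K, hK⟩ : ∃ K, K = D ^ 2 * (max 1 (4 / Λ.e)) ^ 2 * Real.exp (Λ.e / 4) := ⟨_, rfl⟩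
  have hgG : Λ.Gr (fun s => Real.exp (Λ.e * sz s)) := ⟨1, fun s => by rw [abs_of_pos (Real.exp_pos _), one_mul]⟩
  have hgX : Λ.Gr X := gr_lin Λ D hX'
  obtain ⟨B, hB⟩ : ∃ B, B = K * Λ.E (fun s => Real.exp (Λ.e * sz s)) := ⟨_, rfl⟩
  have hB0 : 0 < |B| + 1 := by positivity
  refine ⟨min (Λ.e / (4 * D)) (-Λ.E X / (2 * (|B| + 1))), ?_, ?_⟩
  · exact lt_min (by positivity) (div_pos (by linarith) (by linarith))
  intro θ hθ hθ0
  have hθ1 : θ * D ≤ Λ.e / 4 := by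
    have h1 := hθ0.trans (min_le_left _ _)
    rw [le_div_iff₀ (by positivity)] at h1
    linarith
  have hθ2 : θ * (|B| + 1) ≤ -Λ.E X / 2 := by
    have h1 := hθ0.trans (min_le_right _ _)
    rw [le_div_iff₀ (by positivity)] at h1
    linarith
  have key : ∀ s, Real.exp (θ * X s) ≤ (1 + θ * X s) + (θ ^ 2 * K) * Real.exp (Λ.e * sz s) := by
    intro s
    have ht := sz_nonneg s
    have h1 := expo_exp_le (θ * X s)
    have h2 : |θ * X s| ≤ θ * D * (1 + sz s) := by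
      rw [abs_mul, abs_of_pos hθ, mul_assoc]
      exact mul_le_mul_of_nonneg_left (hX' s) hθ.le
    have h3 : (θ * X s) ^ 2 ≤ (θ * D * (1 + sz s)) ^ 2 := by
      rw [← sq_abs]
      exact pow_le_pow_left₀ (abs_nonneg _) h2 2
    have h4 : |θ * X s| ≤ Λ.e / 4 + Λ.e * sz s / 4 := by
      refine h2.trans ?_
      calc θ * D * (1 + sz s) ≤ Λ.e / 4 * (1 + sz s) := mul_le_mul_of_nonneg_right hθ1 (by linarith)
        _ = Λ.e / 4 + Λ.e * sz s / 4 := by ring
    have h5 : Real.exp |θ * X s| ≤ Real.exp (Λ.e / 4) * Real.exp (Λ.e * sz s / 4) := by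
      rw [← Real.exp_add]
      exact Real.exp_le_exp.2 h4
    have h6 := expo_sq_le he ht
    have h7 : Real.exp (Λ.e * sz s / 2) * Real.exp (Λ.e * sz s / 4) ≤ Real.exp (Λ.e * sz s) := by
      rw [← Real.exp_add]
      apply Real.exp_le_exp.2
      have := mul_nonneg he.le ht
      linarith
    have h8 : (θ * X s) ^ 2 * Real.exp |θ * X s| ≤ (θ ^ 2 * K) * Real.exp (Λ.e * sz s) := by
      calc (θ * X s) ^ 2 * Real.exp |θ * X s|
          ≤ (θ * D * (1 + sz s)) ^ 2 * (Real.exp (Λ.e / 4) * Real.exp (Λ.e * sz s / 4)) :=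
            mul_le_mul h3 h5 (Real.exp_pos _).le (sq_nonneg _)
        _ = θ ^ 2 * D ^ 2 * Real.exp (Λ.e / 4) * ((1 + sz s) ^ 2 * Real.exp (Λ.e * sz s / 4)) := by ring
        _ ≤ θ ^ 2 * D ^ 2 * Real.exp (Λ.e / 4) *
            (((max 1 (4 / Λ.e)) ^ 2 * Real.exp (Λ.e * sz s / 2)) * Real.exp (Λ.e * sz s / 4)) := by
            apply mul_le_mul_of_nonneg_left _ (by positivity)
            exact mul_le_mul_of_nonneg_right h6 (Real.exp_pos _).le
        _ = (θ ^ 2 * K) * (Real.exp (Λ.e * sz s / 2) * Real.exp (Λ.e * sz s / 4)) := by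
            rw [hK]
            ring
        _ ≤ (θ ^ 2 * K) * Real.exp (Λ.e * sz s) := by
            apply mul_le_mul_of_nonneg_left h7
            rw [hK]
            positivity
    linarith
  have g1 : Λ.Gr (fun s => 1 + θ * X s) := gr_add Λ (gr_const Λ 1) (gr_mul Λ hgX θ)
  have g2 : Λ.Gr (fun s => (θ ^ 2 * K) * Real.exp (Λ.e * sz s)) := gr_mul Λ hgG (θ ^ 2 * K)
  have g3 : Λ.Gr (fun s => (1 + θ * X s) + (θ ^ 2 * K) * Real.exp (Λ.e * sz s)) := gr_add Λ g1 g2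
  have g4 : Λ.Gr (fun s => Real.exp (θ * X s)) := by
    refine gr_mono Λ g3 fun s => ?_
    rw [abs_of_pos (Real.exp_pos _)]
    exact (key s).trans (le_abs_self _)
  refine ⟨g4, ?_⟩
  have h1 := E_mono Λ g4 g3 key
  have h2 : Λ.E (fun s => (1 + θ * X s) + (θ ^ 2 * K) * Real.exp (Λ.e * sz s)) = 1 + θ * Λ.E X + θ ^ 2 * B := by
    rw [E_add Λ g1 g2, E_add Λ (gr_const Λ 1) (gr_mul Λ hgX θ), E_one, E_mul, E_mul, hB]
    ring
  rw [h2] at h1
  refine lt_of_le_of_lt h1 ?_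
  have h3 : θ * B ≤ θ * (|B| + 1) := mul_le_mul_of_nonneg_left (by linarith [le_abs_self B]) hθ.le
  have h4 : Λ.E X + θ * B < 0 := by linarith
  have h5 : θ * (Λ.E X + θ * B) < 0 := mul_neg_of_pos_of_neg hθ h4
  calc 1 + θ * Λ.E X + θ ^ 2 * B = 1 + θ * (Λ.E X + θ * B) := by ring
    _ < 1 := by linarith

end SYS.GR
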