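import Pool.Agent.SYS.GR.Defs

/-!
# SYS-GR-LSt: elementary facts about the layer rule
-/

namespace SYS.GR

theorem nx_cast {p : ℕ} {s : Stp} (h : s.Ok p) : ((s.nx p : ℕ) : ℝ) = p + dP s := by
  cases s with
  | T =>
    show ((p + 1 : ℕ) : ℝ) = p + 1
    push_cast
    ring
  | L k a =>
    have h' : k + 3 ≤ p := h
    show ((p - (k + 2) : ℕ) : ℝ) = p + -(k + 2)
    rw [Nat.cast_sub (by omega)]
    push_cast
    ring
  | R k a =>
    have h' : k + 3 ≤ p := h
    show ((p - (k + 2) : ℕ) : ℝ) = p + -(k + 2)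
    rw [Nat.cast_sub (by omega)]
    push_cast
    ring

/-- the five possible forms of a step -/
private theorem lst_cases (l : LS) (s : Stp) (h : s.Ok l.p) :
    (s = .T ∧ (l.step s).r = l.r ∧ (l.step s).al = l.al ∧ (l.step s).be = l.be + 1) ∨
    (∃ k : ℕ, s ≠ .T ∧ dP s = -((k : ℝ) + 2) ∧ dA s = 0 ∧ s.nx l.p + (k + 2) = l.p ∧
      k + 3 ≤ l.p ∧ (l.step s).r = l.r ∧
      ((k + 2 ≤ l.be ∧ (l.step s).al = l.al ∧ (l.step s).be + (k + 2) = l.be) ∨
        (l.be < k + 2 ∧ (l.step s).al + (k + 2) = l.al + l.be ∧ (l.step s).be = 0))) ∨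
    (∃ k : ℕ, s ≠ .T ∧ dP s = -((k : ℝ) + 2) ∧ dA s = -((k : ℝ) + 1) ∧ s.nx l.p + (k + 2) = l.p ∧
      k + 3 ≤ l.p ∧
      ((l.be = 0 ∧ (l.step s).r = l.r ∧ (l.step s).al + (k + 2) = l.al ∧ (l.step s).be = 0) ∨
        (l.be ≠ 0 ∧ k + 2 ≤ l.al ∧ (l.step s).r = l.r ∧ (l.step s).al + (k + 1) = l.al ∧
          (l.step s).be + 1 = l.be) ∨
        (l.be ≠ 0 ∧ l.al < k + 2 ∧ (l.step s).r = l.r + 1 ∧ (l.step s).al + (k + 2) = l.al + l.be ∧
          (l.step s).be = 0))) := by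
  obtain ⟨r, al, be⟩ := l
  cases s with
  | T => exact Or.inl ⟨rfl, rfl, rfl, rfl⟩
  | L k a =>
    have h' : k + 3 ≤ al + be := h
    refine Or.inr (Or.inl ⟨k, by simp, rfl, rfl, ?_, h', ?_, ?_⟩)
    · show al + be - (k + 2) + (k + 2) = al + be
      omega
    · simp only [LS.step]
      split_ifs <;> rfl
    · simp only [LS.step]
      split_ifs with h1
      · exact Or.inl ⟨h1, rfl, by show be - (k + 2) + (k + 2) = be; omega⟩
      · refine Or.inr ⟨not_le.1 h1, ?_, rfl⟩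
        show al + be - (k + 2) + (k + 2) = al + be
        omega
  | R k a =>
    have h' : k + 3 ≤ al + be := h
    refine Or.inr (Or.inr ⟨k, by simp, rfl, rfl, ?_, h', ?_⟩)
    · show al + be - (k + 2) + (k + 2) = al + be
      omega
    · simp only [LS.step]
      split_ifs with h1 h2
      · refine Or.inl ⟨h1, rfl, ?_, rfl⟩
        show al - (k + 2) + (k + 2) = al
        omega
      · refine Or.inr (Or.inl ⟨h1, h2, rfl, ?_, ?_⟩)
        · show al - (k + 1) + (k + 1) = al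
          omega
        · show be - 1 + 1 = be
          omega
      · refine Or.inr (Or.inr ⟨h1, not_le.1 h2, rfl, ?_, rfl⟩)
        show al + be - (k + 2) + (k + 2) = al + be
        omega

theorem step_p (l : LS) (s : Stp) (h : s.Ok l.p) : (l.step s).p = s.nx l.p := by
  rcases lst_cases l s h with ⟨rfl, _, h2, h3⟩ | ⟨k, _, _, _, h4, _, _, h5⟩ | ⟨k, _, _, _, h4, _, h5⟩
  · show (l.step .T).al + (l.step .T).be = l.al + l.be + 1
    omega
  · unfold LS.p at *
    omega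
  · unfold LS.p at *
    omega

theorem step_al (l : LS) (s : Stp) (hal : 1 ≤ l.al) (h : s.Ok l.p) : 1 ≤ (l.step s).al := by
  rcases lst_cases l s h with ⟨_, _, h2, h3⟩ | ⟨k, _, _, _, h4, h6, _, h5⟩ | ⟨k, _, _, _, h4, h6, h5⟩
  · omega
  · unfold LS.p at *
    omega
  · unfold LS.p at *
    omega

theorem step_r (l : LS) (s : Stp) :
    (l.step s).r = l.r ∨ ((l.step s).r = l.r + 1 ∧ (l.step s).be = 0) := by
  cases s with
  | T => exact Or.inl rfl
  | L k a =>
    simp only [LS.step]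
    split_ifs
    · exact Or.inl rfl
    · exact Or.inl rfl
  | R k a =>
    simp only [LS.step]
    split_ifs
    · exact Or.inl rfl
    · exact Or.inl rfl
    · exact Or.inr ⟨rfl, rfl⟩

theorem step_end_p (l : LS) (s : Stp) (h : s.Ok l.p) (hr : (l.step s).r ≠ l.r) : (l.step s).p + 2 ≤ l.p := by
  rcases lst_cases l s h with ⟨_, h1, _, _⟩ | ⟨k, _, _, _, _, _, h1, _⟩ | ⟨k, _, _, _, h4, _, h5⟩
  · exact absurd h1 hr
  · exact absurd h1 hr
  · unfold LS.p at *
    omega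

private theorem lst_MM (m : ℝ) (l : LS) : MM m l = l.al + l.be + (m - 1) * l.al := by
  unfold MM LS.p
  push_cast
  ring

theorem mm_be_zero (m : ℝ) (l : LS) (h : l.be = 0) : MM m l = m * l.p := by
  unfold MM LS.p
  rw [h]
  push_cast
  ring

theorem p_le_mm (m : ℝ) (hm : 1 ≤ m) (l : LS) : (l.p : ℝ) ≤ MM m l := by
  unfold MM
  have h := mul_nonneg (sub_nonneg.2 hm) (Nat.cast_nonneg (α := ℝ) l.al)
  linarith

theorem mm_le (m : ℝ) (hm : 1 ≤ m) (l : LS) : MM m l ≤ m * l.p := by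
  unfold MM
  have h : (l.al : ℝ) ≤ l.p := Nat.cast_le.2 (Nat.le_add_right _ _)
  have h1 := mul_le_mul_of_nonneg_left h (sub_nonneg.2 hm)
  linarith

theorem mm_step (m : ℝ) (l : LS) (s : Stp) (h : s.Ok l.p) (hr : (l.step s).r = l.r) :
    MM m (l.step s) = MM m l + dP s + (m - 1) * dA s ∨
      (s ≠ .T ∧ (l.step s).be = 0 ∧ MM m (l.step s) = m * (l.step s).p) := by
  rcases lst_cases l s h with ⟨rfl, _, h2, h3⟩ | ⟨k, hT, hp, ha, _, _, _, h5⟩ | ⟨k, hT, hp, ha, _, _, h5⟩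
  · left
    rw [lst_MM, lst_MM, h2, h3]
    show (l.al : ℝ) + ((l.be + 1 : ℕ) : ℝ) + (m - 1) * l.al = l.al + l.be + (m - 1) * l.al + 1 + (m - 1) * 0
    push_cast
    ring
  · rcases h5 with ⟨_, h2, h3⟩ | ⟨_, _, h3⟩
    · left
      have h3' : ((l.step s).be : ℝ) + (k + 2) = l.be := by exact_mod_cast h3
      rw [lst_MM, lst_MM, h2, hp, ha]
      linear_combination h3'
    · exact Or.inr ⟨hT, h3, mm_be_zero m _ h3⟩
  · rcases h5 with ⟨_, _, _, h3⟩ | ⟨_, _, _, h2, h3⟩ | ⟨_, _, h1, _, _⟩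
    · exact Or.inr ⟨hT, h3, mm_be_zero m _ h3⟩
    · left
      have h2' : ((l.step s).al : ℝ) + (k + 1) = l.al := by exact_mod_cast h2
      have h3' : ((l.step s).be : ℝ) + 1 = l.be := by exact_mod_cast h3
      rw [lst_MM, lst_MM, hp, ha]
      linear_combination m * h2' + h3'
    · omega

theorem mm_end (m : ℝ) (hm : 1 ≤ m) (l : LS) (s : Stp) (h : s.Ok l.p) (hr : (l.step s).r ≠ l.r) :
    MM m l + dP s + (m - 1) * dA s ≤ (l.step s).p ∧ (l.step s).be = 0 := by
  rcases lst_cases l s h with ⟨_, h1, _, _⟩ | ⟨k, _, _, _, _, _, h1, _⟩ | ⟨k, hT, hp, ha, _, _, h5⟩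
  · exact absurd h1 hr
  · exact absurd h1 hr
  · rcases h5 with ⟨_, h1, _, _⟩ | ⟨_, _, h1, _, _⟩ | ⟨_, h0, _, h2, h3⟩
    · exact absurd h1 hr
    · exact absurd h1 hr
    · refine ⟨?_, h3⟩
      have h2' : ((l.step s).al : ℝ) + (k + 2) = l.al + l.be := by exact_mod_cast h2
      have h0' : (l.al : ℝ) ≤ k + 1 := by exact_mod_cast (by omega : l.al ≤ k + 1)
      have h4 := mul_le_mul_of_nonneg_left h0' (sub_nonneg.2 hm)
      rw [lst_MM, hp, ha]
      unfold LS.p
      rw [h3]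
      push_cast
      linarith

theorem mm_up (m : ℝ) (hm : 1 ≤ m) (l : LS) (s : Stp) (h : s.Ok l.p) (hr : (l.step s).r = l.r) :
    MM m (l.step s) ≤ MM m l + dP s + (m - 1) * dA s := by
  rcases lst_cases l s h with ⟨rfl, _, h2, h3⟩ | ⟨k, hT, hp, ha, _, _, _, h5⟩ | ⟨k, hT, hp, ha, _, _, h5⟩
  · rw [lst_MM, lst_MM, h2, h3]
    show (l.al : ℝ) + ((l.be + 1 : ℕ) : ℝ) + (m - 1) * l.al ≤ l.al + l.be + (m - 1) * l.al + 1 + (m - 1) * 0
    push_cast
    linarith
  · rcases h5 with ⟨_, h2, h3⟩ | ⟨h0, h2, h3⟩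
    · have h3' : ((l.step s).be : ℝ) + (k + 2) = l.be := by exact_mod_cast h3
      rw [lst_MM, lst_MM, h2, hp, ha]
      linarith
    · have h2' : ((l.step s).al : ℝ) + (k + 2) = l.al + l.be := by exact_mod_cast h2
      have h0' : ((l.step s).al : ℝ) ≤ l.al := by exact_mod_cast (by omega : (l.step s).al ≤ l.al)
      have h4 := mul_le_mul_of_nonneg_left h0' (sub_nonneg.2 hm)
      rw [lst_MM, lst_MM, h3, hp, ha]
      push_cast
      linarith
  · rcases h5 with ⟨h0, _, h2, h3⟩ | ⟨_, _, _, h2, h3⟩ | ⟨_, _, h1, _, _⟩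
    · have h2' : ((l.step s).al : ℝ) + (k + 2) = l.al := by exact_mod_cast h2
      have e : ((l.step s).al : ℝ) = l.al - (k + 2) := by linarith
      rw [lst_MM, lst_MM, h3, h0, hp, ha, e]
      push_cast
      linarith
    · have h2' : ((l.step s).al : ℝ) + (k + 1) = l.al := by exact_mod_cast h2
      have h3' : ((l.step s).be : ℝ) + 1 = l.be := by exact_mod_cast h3
      have e : ((l.step s).al : ℝ) = l.al - (k + 1) := by linarith
      rw [lst_MM, lst_MM, hp, ha, e]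
      linarith
    · omega

theorem lrun_p (l : LS) (w : List Stp) (h : WOk l.p w) : (lrun l w).p = wend l.p w := by
  induction w generalizing l with
  | nil => rfl
  | cons s w ih =>
    have h1 := step_p l s h.1
    rw [lrun_cons, wend_cons, ← h1]
    refine ih (l.step s) ?_
    rw [h1]
    exact h.2

theorem lrun_r_le (l : LS) (w : List Stp) : l.r ≤ (lrun l w).r := by
  induction w generalizing l with
  | nil => exact le_rfl
  | cons s w ih =>
    rw [lrun_cons]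
    refine le_trans ?_ (ih (l.step s))
    rcases step_r l s with h | ⟨h, _⟩ <;> omega

end SYS.GR
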