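import Pool.Agent.SYS.GR.Tilt
import Pool.Agent.SYS.GR.LSt

/-!
# SYS-GR-HStep: the potential inside a layer

The value of every step is bounded by two exponential terms (`hstep_val`); both are summed with `fin_le_E`.
-/

namespace SYS.GR

/-- potential inside a layer -/
noncomputable def hh (m θ K : ℝ) (l : LS) : ℝ := Real.exp (-θ * MM m l) + K * Real.exp (-θ * (m * l.p))

/-- the value of a step -/
noncomputable def hv (m θ K : ℝ) (l : LS) (s : Stp) : ℝ :=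
  if (l.step s).r = l.r then hh m θ K (l.step s) else Real.exp (-θ * (l.step s).p)

private theorem hstep_val (m θ K : ℝ) (hm : 1 ≤ m) (hθ : 0 < θ) (hK : 0 ≤ K) (l : LS) (s : Stp)
    (hs : s.Ok l.p) :
    hv m θ K l s ≤ Real.exp (-θ * (MM m l + dP s + (m - 1) * dA s)) +
      (K + 1) * Real.exp (-(θ * m) * (l.p + dP s)) := by
  have hp : (((l.step s).p : ℕ) : ℝ) = l.p + dP s := by
    rw [step_p l s hs, nx_cast hs]
  have e1 : Real.exp (-θ * (m * (((l.step s).p : ℕ) : ℝ))) =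
      Real.exp (-(θ * m) * (l.p + dP s)) := by
    rw [hp]
    congr 1
    ring
  have p1 := Real.exp_pos (-(θ * m) * (l.p + dP s))
  have p2 := Real.exp_pos (-θ * (MM m l + dP s + (m - 1) * dA s))
  unfold hv
  by_cases hr : (l.step s).r = l.r
  · rw [if_pos hr]
    unfold hh
    rw [e1]
    rcases mm_step m l s hs hr with h | h
    · rw [h]
      nlinarith
    · rw [h.2.2, e1]
      nlinarith
  · rw [if_neg hr]
    have h1 := (mm_end m hm l s hs hr).1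
    have h2 : Real.exp (-θ * (((l.step s).p : ℕ) : ℝ)) ≤
        Real.exp (-θ * (MM m l + dP s + (m - 1) * dA s)) := by
      apply Real.exp_le_exp.2
      nlinarith
    have h3 : 0 ≤ (K + 1) * Real.exp (-(θ * m) * (l.p + dP s)) := by positivity
    linarith

theorem hstep (Λ : Law) (m θ ε K : ℝ) (hm : 1 ≤ m) (hθ : 0 < θ) (hK : 0 ≤ K)
    (g1 : Λ.Gr (fun s => Real.exp (-θ * (dP s + (m - 1) * dA s) + ε * (dP s + dV s))))
    (h1 : Λ.E (fun s => Real.exp (-θ * (dP s + (m - 1) * dA s) + ε * (dP s + dV s))) ≤ 1)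
    (g2 : Λ.Gr (fun s => Real.exp (-(θ * m) * dP s + ε * (dP s + dV s))))
    (h2 : (K + 1) * Λ.E (fun s => Real.exp (-(θ * m) * dP s + ε * (dP s + dV s))) ≤ K)
    (l : LS) (F : Finset Stp) (hF : ∀ s ∈ F, s.Ok l.p) :
    ∑ s ∈ F, Λ.w s * Real.exp (ε * (dP s + dV s)) * hv m θ K l s ≤ hh m θ K l := by
  have f1 := fin_le_E Λ g1 (fun s => (Real.exp_pos _).le) F
  have f2 := fin_le_E Λ g2 (fun s => (Real.exp_pos _).le) F
  have hterm : ∀ s ∈ F, Λ.w s * Real.exp (ε * (dP s + dV s)) * hv m θ K l s ≤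
      Real.exp (-θ * MM m l) *
        (Λ.w s * Real.exp (-θ * (dP s + (m - 1) * dA s) + ε * (dP s + dV s))) +
      Real.exp (-θ * (m * l.p)) * ((K + 1) *
        (Λ.w s * Real.exp (-(θ * m) * dP s + ε * (dP s + dV s)))) := by
    intro s hs
    have h3 := hstep_val m θ K hm hθ hK l s (hF s hs)
    have h4 : 0 ≤ Λ.w s * Real.exp (ε * (dP s + dV s)) :=
      mul_nonneg (Λ.w_nonneg s) (Real.exp_pos _).le
    refine (mul_le_mul_of_nonneg_left h3 h4).trans (le_of_eq ?_)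
    have h5 : -θ * (MM m l + dP s + (m - 1) * dA s) =
        -θ * MM m l + -θ * (dP s + (m - 1) * dA s) := by ring
    have h6 : -(θ * m) * ((l.p : ℝ) + dP s) = -θ * (m * l.p) + -(θ * m) * dP s := by ring
    rw [h5, h6, Real.exp_add, Real.exp_add, Real.exp_add, Real.exp_add]
    ring
  refine (Finset.sum_le_sum hterm).trans ?_
  rw [Finset.sum_add_distrib, ← Finset.mul_sum, ← Finset.mul_sum, ← Finset.mul_sum]
  have p1 := Real.exp_pos (-θ * MM m l)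
  have p2 := Real.exp_pos (-θ * (m * (l.p : ℝ)))
  have q1 := mul_le_mul_of_nonneg_left (f1.trans h1) p1.le
  have q2 := mul_le_mul_of_nonneg_left
    ((mul_le_mul_of_nonneg_left f2 (by linarith : (0 : ℝ) ≤ K + 1)).trans h2) p2.le
  unfold hh
  linarith

/-- the parameters exist, with a common tilt -/
theorem hpar (Λ : Law) (m : ℝ) (hm0 : 1 ≤ m) (hm : m < 1 + Λ.d / Λ.a) :
    ∃ θ₀ c₀ : ℝ, 0 < θ₀ ∧ 0 < c₀ ∧ ∀ θ ε : ℝ, 0 < θ → θ ≤ θ₀ → 0 ≤ ε → ε ≤ c₀ * θ → ∃ K : ℝ, 0 ≤ K ∧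
      ∀ (l : LS) (F : Finset Stp), (∀ s ∈ F, s.Ok l.p) →
        ∑ s ∈ F, Λ.w s * Real.exp (ε * (dP s + dV s)) * hv m θ K l s ≤ hh m θ K l := by
  obtain ⟨t1, c1, ht1, hc1, H1⟩ := tilt_M Λ m hm0 hm
  obtain ⟨t2, c2, ht2, hc2, H2⟩ := tilt_P Λ
  have hmp : 0 < m := by linarith
  refine ⟨min t1 (t2 / m), min c1 c2, lt_min ht1 (div_pos ht2 hmp), lt_min hc1 hc2, ?_⟩
  intro θ ε hθ hθ0 hε hε0
  have a1 : θ ≤ t1 := hθ0.trans (min_le_left _ _)
  have a2 : θ * m ≤ t2 := (le_div_iff₀ hmp).1 (hθ0.trans (min_le_right _ _))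
  have a3 : ε ≤ c1 * θ := hε0.trans (mul_le_mul_of_nonneg_right (min_le_left _ _) hθ.le)
  have a4 : ε ≤ c2 * θ := hε0.trans (mul_le_mul_of_nonneg_right (min_le_right _ _) hθ.le)
  have a5 : ε ≤ c2 * (θ * m) := by
    refine a4.trans (mul_le_mul_of_nonneg_left ?_ hc2.le)
    exact le_mul_of_one_le_right hθ.le hm0
  obtain ⟨g1, h1⟩ := H1 θ ε hθ a1 hε a3
  obtain ⟨g2, h2⟩ := H2 (θ * m) ε (mul_pos hθ hmp) a2 hε a5
  obtain ⟨E2, hE2⟩ : ∃ E2 : ℝ, E2 = Λ.E (fun s => Real.exp (-(θ * m) * dP s + ε * (dP s + dV s))) :=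
    ⟨_, rfl⟩
  rw [← hE2] at h2
  have h0 : 0 ≤ E2 := by
    have := fin_le_E Λ g2 (fun s => (Real.exp_pos _).le) ∅
    rw [Finset.sum_empty, ← hE2] at this
    exact this
  have h3 : 0 < 1 - E2 := by linarith
  refine ⟨E2 / (1 - E2), div_nonneg h0 h3.le, fun l F hF => ?_⟩
  refine hstep Λ m θ ε (E2 / (1 - E2)) hm0 hθ (div_nonneg h0 h3.le) g1 h1.le g2 ?_ l F hF
  rw [← hE2]
  have h4 : E2 / (1 - E2) + 1 = 1 / (1 - E2) := by
    field_simp
    ring
  rw [h4, one_div_mul_eq_div]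

end SYS.GR
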