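import Pool.Agent.SYS.GR.Defs

/-!
# SYS-GR-LawA: expectations

Expectations of a step: linearity, monotonicity, finite sums (all series converge because of the exponential moments).
-/

namespace SYS.GR

variable (Λ : Law)

theorem gr_const (c : ℝ) : Λ.Gr (fun _ => c) := by
  refine ⟨|c|, fun s => ?_⟩
  have h1 : 1 ≤ Real.exp (Λ.e * sz s) := Real.one_le_exp (mul_nonneg Λ.he.le (sz_nonneg s))
  calc |c| = |c| * 1 := (mul_one _).symm
    _ ≤ |c| * Real.exp (Λ.e * sz s) := mul_le_mul_of_nonneg_left h1 (abs_nonneg c)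

theorem gr_add {f g : Stp → ℝ} (hf : Λ.Gr f) (hg : Λ.Gr g) : Λ.Gr (fun s => f s + g s) := by
  obtain ⟨C, hC⟩ := hf
  obtain ⟨D, hD⟩ := hg
  refine ⟨C + D, fun s => ?_⟩
  calc |f s + g s| ≤ |f s| + |g s| := abs_add_le _ _
    _ ≤ C * Real.exp (Λ.e * sz s) + D * Real.exp (Λ.e * sz s) := add_le_add (hC s) (hD s)
    _ = (C + D) * Real.exp (Λ.e * sz s) := by ring

theorem gr_mul {f : Stp → ℝ} (hf : Λ.Gr f) (c : ℝ) : Λ.Gr (fun s => c * f s) := by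
  obtain ⟨C, hC⟩ := hf
  refine ⟨|c| * C, fun s => ?_⟩
  calc |c * f s| = |c| * |f s| := abs_mul _ _
    _ ≤ |c| * (C * Real.exp (Λ.e * sz s)) := mul_le_mul_of_nonneg_left (hC s) (abs_nonneg c)
    _ = |c| * C * Real.exp (Λ.e * sz s) := by ring

theorem gr_mono {f g : Stp → ℝ} (hg : Λ.Gr g) (h : ∀ s, |f s| ≤ |g s|) : Λ.Gr f := by
  obtain ⟨C, hC⟩ := hg
  exact ⟨C, fun s => (h s).trans (hC s)⟩

theorem gr_lin {f : Stp → ℝ} (C : ℝ) (h : ∀ s, |f s| ≤ C * (1 + sz s)) : Λ.Gr f := by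
  refine ⟨|C| * (1 + 1 / Λ.e), fun s => ?_⟩
  have hs := sz_nonneg s
  have he := Λ.he
  have h1 : 1 + sz s ≤ (1 + 1 / Λ.e) * Real.exp (Λ.e * sz s) := by
    have h2 : Λ.e * sz s + 1 ≤ Real.exp (Λ.e * sz s) := Real.add_one_le_exp _
    have h3 : 0 ≤ 1 + 1 / Λ.e := by positivity
    have h4 : 1 + sz s ≤ (1 + 1 / Λ.e) * (Λ.e * sz s + 1) := by
      have h5 : (1 + 1 / Λ.e) * (Λ.e * sz s + 1) = Λ.e * sz s + 1 + sz s + 1 / Λ.e := by
        field_simp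
        ring
      rw [h5]
      have : 0 ≤ Λ.e * sz s := mul_nonneg he.le hs
      have : 0 < 1 / Λ.e := by positivity
      linarith
    exact h4.trans (mul_le_mul_of_nonneg_left h2 h3)
  calc |f s| ≤ C * (1 + sz s) := h s
    _ ≤ |C| * (1 + sz s) := mul_le_mul_of_nonneg_right (le_abs_self C) (by linarith)
    _ ≤ |C| * ((1 + 1 / Λ.e) * Real.exp (Λ.e * sz s)) := mul_le_mul_of_nonneg_left h1 (abs_nonneg C)
    _ = |C| * (1 + 1 / Λ.e) * Real.exp (Λ.e * sz s) := by ring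

private theorem sumL {f : Stp → ℝ} (hf : Λ.Gr f) :
    Summable fun z : ℕ × ℕ => Λ.q z.1 z.2 * f (.L z.1 z.2) := by
  obtain ⟨C, hC⟩ := hf
  refine Summable.of_norm_bounded (g := fun z : ℕ × ℕ => C * (Λ.q z.1 z.2 * Real.exp (Λ.e * (z.1 + z.2))))
    (Λ.hs.mul_left C) fun z => ?_
  rw [Real.norm_eq_abs, abs_mul, abs_of_nonneg (Λ.hq z.1 z.2)]
  have h1 := hC (.L z.1 z.2)
  have h2 : sz (.L z.1 z.2) = (z.1 : ℝ) + z.2 := rfl
  rw [h2] at h1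
  calc Λ.q z.1 z.2 * |f (.L z.1 z.2)| ≤ Λ.q z.1 z.2 * (C * Real.exp (Λ.e * (z.1 + z.2))) :=
        mul_le_mul_of_nonneg_left h1 (Λ.hq z.1 z.2)
    _ = C * (Λ.q z.1 z.2 * Real.exp (Λ.e * (z.1 + z.2))) := by ring

private theorem sumR {f : Stp → ℝ} (hf : Λ.Gr f) :
    Summable fun z : ℕ × ℕ => Λ.q z.1 z.2 * f (.R z.1 z.2) := by
  obtain ⟨C, hC⟩ := hf
  refine Summable.of_norm_bounded (g := fun z : ℕ × ℕ => C * (Λ.q z.1 z.2 * Real.exp (Λ.e * (z.1 + z.2))))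
    (Λ.hs.mul_left C) fun z => ?_
  rw [Real.norm_eq_abs, abs_mul, abs_of_nonneg (Λ.hq z.1 z.2)]
  have h1 := hC (.R z.1 z.2)
  have h2 : sz (.R z.1 z.2) = (z.1 : ℝ) + z.2 := rfl
  rw [h2] at h1
  calc Λ.q z.1 z.2 * |f (.R z.1 z.2)| ≤ Λ.q z.1 z.2 * (C * Real.exp (Λ.e * (z.1 + z.2))) :=
        mul_le_mul_of_nonneg_left h1 (Λ.hq z.1 z.2)
    _ = C * (Λ.q z.1 z.2 * Real.exp (Λ.e * (z.1 + z.2))) := by ring

private theorem sumLR {f : Stp → ℝ} (hf : Λ.Gr f) :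
    Summable fun z : ℕ × ℕ => Λ.q z.1 z.2 * (f (.L z.1 z.2) + f (.R z.1 z.2)) := by
  refine ((sumL Λ hf).add (sumR Λ hf)).congr fun z => ?_
  ring

theorem E_add {f g : Stp → ℝ} (hf : Λ.Gr f) (hg : Λ.Gr g) : Λ.E (fun s => f s + g s) = Λ.E f + Λ.E g := by
  unfold Law.E
  have h1 := (sumLR Λ hf).tsum_add (sumLR Λ hg)
  have h2 : (∑' z : ℕ × ℕ, Λ.q z.1 z.2 * (f (.L z.1 z.2) + g (.L z.1 z.2) + (f (.R z.1 z.2) + g (.R z.1 z.2)))) =
      ∑' z : ℕ × ℕ, (Λ.q z.1 z.2 * (f (.L z.1 z.2) + f (.R z.1 z.2)) +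
        Λ.q z.1 z.2 * (g (.L z.1 z.2) + g (.R z.1 z.2))) := by
    refine tsum_congr fun z => ?_
    ring
  rw [h2, h1]
  ring

theorem E_mul (f : Stp → ℝ) (c : ℝ) : Λ.E (fun s => c * f s) = c * Λ.E f := by
  unfold Law.E
  have h2 : (∑' z : ℕ × ℕ, Λ.q z.1 z.2 * (c * f (.L z.1 z.2) + c * f (.R z.1 z.2))) =
      ∑' z : ℕ × ℕ, c * (Λ.q z.1 z.2 * (f (.L z.1 z.2) + f (.R z.1 z.2))) := by
    refine tsum_congr fun z => ?_
    ring
  rw [h2, tsum_mul_left]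
  ring

theorem E_mono {f g : Stp → ℝ} (hf : Λ.Gr f) (hg : Λ.Gr g) (h : ∀ s, f s ≤ g s) : Λ.E f ≤ Λ.E g := by
  unfold Law.E
  refine add_le_add (mul_le_mul_of_nonneg_left (h .T) Λ.A_pos.le) ?_
  exact (sumLR Λ hf).tsum_le_tsum (fun z => mul_le_mul_of_nonneg_left (add_le_add (h _) (h _)) (Λ.hq _ _))
    (sumLR Λ hg)

theorem E_one : Λ.E (fun _ => 1) = 1 := by
  have h := Λ.mass
  unfold Law.E
  have h2 : (∑' z : ℕ × ℕ, Λ.q z.1 z.2 * ((1 : ℝ) + 1)) = 2 * ∑' z : ℕ × ℕ, Λ.q z.1 z.2 := by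
    rw [← tsum_mul_left]
    refine tsum_congr fun z => ?_
    ring
  rw [h2]
  linarith

theorem fin_le_E {f : Stp → ℝ} (hf : Λ.Gr f) (h0 : ∀ s, 0 ≤ f s) (F : Finset Stp) :
    ∑ s ∈ F, Λ.w s * f s ≤ Λ.E f := by
  classical
  have hL := sumL Λ hf
  have hR := sumR Λ hf
  -- the pairs which occur
  let PL : Stp → Option (ℕ × ℕ) := fun s => match s with
    | .L k a => some (k, a)
    | _ => none
  let PR : Stp → Option (ℕ × ℕ) := fun s => match s with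
    | .R k a => some (k, a)
    | _ => none
  let FL : Finset (ℕ × ℕ) := F.biUnion fun s => (PL s).toFinset
  let FR : Finset (ℕ × ℕ) := F.biUnion fun s => (PR s).toFinset
  have hsub : F ⊆ insert Stp.T (FL.image (fun z => Stp.L z.1 z.2) ∪ FR.image (fun z => Stp.R z.1 z.2)) := by
    intro s hs
    cases s with
    | T => exact Finset.mem_insert_self _ _
    | L k a =>
      refine Finset.mem_insert_of_mem (Finset.mem_union_left _ (Finset.mem_image.2 ⟨(k, a), ?_, rfl⟩))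
      refine Finset.mem_biUnion.2 ⟨_, hs, ?_⟩
      simp [PL]
    | R k a =>
      refine Finset.mem_insert_of_mem (Finset.mem_union_right _ (Finset.mem_image.2 ⟨(k, a), ?_, rfl⟩))
      refine Finset.mem_biUnion.2 ⟨_, hs, ?_⟩
      simp [PR]
  have hnn : ∀ s, 0 ≤ Λ.w s * f s := fun s => mul_nonneg (Λ.w_nonneg s) (h0 s)
  have h1 : ∑ s ∈ F, Λ.w s * f s ≤
      ∑ s ∈ insert Stp.T (FL.image (fun z => Stp.L z.1 z.2) ∪ FR.image (fun z => Stp.R z.1 z.2)), Λ.w s * f s :=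
    Finset.sum_le_sum_of_subset_of_nonneg hsub fun s _ _ => hnn s
  have h2 : ∑ s ∈ insert Stp.T (FL.image (fun z => Stp.L z.1 z.2) ∪ FR.image (fun z => Stp.R z.1 z.2)), Λ.w s * f s
      ≤ Λ.w .T * f .T + (∑ s ∈ FL.image (fun z => Stp.L z.1 z.2), Λ.w s * f s +
        ∑ s ∈ FR.image (fun z => Stp.R z.1 z.2), Λ.w s * f s) := by
    refine (Finset.sum_le_sum_of_subset_of_nonneg (t := insert Stp.T _) (Finset.Subset.refl _)
      fun s _ _ => hnn s).trans ?_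
    rw [Finset.sum_insert (by simp)]
    refine add_le_add le_rfl ?_
    rw [Finset.sum_union]
    rw [Finset.disjoint_left]
    intro s hs1 hs2
    obtain ⟨z, _, rfl⟩ := Finset.mem_image.1 hs1
    obtain ⟨z', _, h⟩ := Finset.mem_image.1 hs2
    cases h
  have h3 : ∑ s ∈ FL.image (fun z => Stp.L z.1 z.2), Λ.w s * f s ≤
      ∑' z : ℕ × ℕ, Λ.q z.1 z.2 * f (.L z.1 z.2) := by
    rw [Finset.sum_image (fun z _ z' _ h => by
      obtain ⟨a, b⟩ := z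
      obtain ⟨c, d⟩ := z'
      simpa using h)]
    exact hL.sum_le_tsum FL fun z _ => mul_nonneg (Λ.hq _ _) (h0 _)
  have h4 : ∑ s ∈ FR.image (fun z => Stp.R z.1 z.2), Λ.w s * f s ≤
      ∑' z : ℕ × ℕ, Λ.q z.1 z.2 * f (.R z.1 z.2) := by
    rw [Finset.sum_image (fun z _ z' _ h => by
      obtain ⟨a, b⟩ := z
      obtain ⟨c, d⟩ := z'
      simpa using h)]
    exact hR.sum_le_tsum FR fun z _ => mul_nonneg (Λ.hq _ _) (h0 _)
  have h5 : Λ.E f = Λ.A * f .T + (∑' z : ℕ × ℕ, Λ.q z.1 z.2 * f (.L z.1 z.2) +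
      ∑' z : ℕ × ℕ, Λ.q z.1 z.2 * f (.R z.1 z.2)) := by
    unfold Law.E
    rw [← hL.tsum_add hR]
    congr 1
    refine tsum_congr fun z => ?_
    ring
  rw [h5]
  refine (h1.trans h2).trans (add_le_add le_rfl (add_le_add h3 h4))

end SYS.GR
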