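import Pool.Agent.SYS.GR.HStep

/-!
# SYS-GR-Mach: the machine for slow growth

State: `none` = no completed layer has ended with perimeter `≥ p1`; `some p0` = phase of growth, the last layer ended with perimeter
`p0`. The word is dead if a layer ends with perimeter `< m' p0`, or if `R0` layers are completed without reaching `p1`.
-/

namespace SYS.GR

inductive XS : Type
  | dead : XS
  | live : LS → Option ℕ → XS

open Classical in
noncomputable def XS.step (m' : ℝ) (p1 R0 : ℕ) : XS → Stp → XS
  | .dead, _ => .dead
  | .live l none, s =>
    if (l.step s).r = l.r then .live (l.step s) none else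
      if p1 ≤ (l.step s).p then .live (l.step s) (some (l.step s).p) else
        if R0 ≤ (l.step s).r then .dead else .live (l.step s) none
  | .live l (some p0), s =>
    if (l.step s).r = l.r then .live (l.step s) (some p0) else
      if m' * p0 ≤ (l.step s).p then .live (l.step s) (some (l.step s).p) else .dead

/-- steps which are allowed -/
def XS.D (p1 : ℕ) : XS → Stp → Prop
  | .dead, _ => False
  | .live l none, s => s.Ok l.p
  | .live l (some p0), s => s.Ok l.p ∧ p1 ≤ p0

/-- the potential -/
noncomputable def Phi (m m' θ K θ2 K2 B θ1 B2 B3 g : ℝ) (R0 : ℕ) : XS → ℝ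
  | .dead => 1
  | .live l none => Real.exp (-θ1 * l.p) * (B2 + B3 * Real.exp (g * ((l.r : ℝ) - R0)))
  | .live l (some p0) => Real.exp (θ * (m' * p0)) * hh m θ K l + B * hh m θ2 K2 l

end SYS.GR
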