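import Pool.Agent.SYS.GR.LawA

/-!
# SYS-GR-Mean: the means of the increments

Direct computation.
-/

namespace SYS.GR

variable (Λ : Law)

theorem abs_dP (s : Stp) : |dP s| ≤ 2 * (1 + sz s) := by
  cases s with
  | T => simp [dP, sz]
  | L k a =>
    have hk : (0 : ℝ) ≤ k := Nat.cast_nonneg k
    have ha : (0 : ℝ) ≤ a := Nat.cast_nonneg a
    show |(-(k + 2) : ℝ)| ≤ 2 * (1 + ((k : ℝ) + a))
    rw [abs_neg, abs_of_nonneg (by linarith)]
    linarith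
  | R k a =>
    have hk : (0 : ℝ) ≤ k := Nat.cast_nonneg k
    have ha : (0 : ℝ) ≤ a := Nat.cast_nonneg a
    show |(-(k + 2) : ℝ)| ≤ 2 * (1 + ((k : ℝ) + a))
    rw [abs_neg, abs_of_nonneg (by linarith)]
    linarith

theorem abs_dV (s : Stp) : |dV s| ≤ 1 + sz s := by
  cases s with
  | T => simp [dV, sz]
  | L k a =>
    have hk : (0 : ℝ) ≤ k := Nat.cast_nonneg k
    have ha : (0 : ℝ) ≤ a := Nat.cast_nonneg a
    show |(a : ℝ)| ≤ 1 + ((k : ℝ) + a)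
    rw [abs_of_nonneg ha]
    linarith
  | R k a =>
    have hk : (0 : ℝ) ≤ k := Nat.cast_nonneg k
    have ha : (0 : ℝ) ≤ a := Nat.cast_nonneg a
    show |(a : ℝ)| ≤ 1 + ((k : ℝ) + a)
    rw [abs_of_nonneg ha]
    linarith

theorem abs_dA (s : Stp) : |dA s| ≤ 1 + sz s := by
  cases s with
  | T => simp [dA, sz]
  | L k a =>
    have hk : (0 : ℝ) ≤ k := Nat.cast_nonneg k
    have ha : (0 : ℝ) ≤ a := Nat.cast_nonneg a
    show |(0 : ℝ)| ≤ 1 + ((k : ℝ) + a)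
    rw [abs_zero]
    linarith
  | R k a =>
    have hk : (0 : ℝ) ≤ k := Nat.cast_nonneg k
    have ha : (0 : ℝ) ≤ a := Nat.cast_nonneg a
    show |(-(k + 1) : ℝ)| ≤ 1 + ((k : ℝ) + a)
    rw [abs_neg, abs_of_nonneg (by linarith)]
    linarith

theorem E_dP : Λ.E dP = Λ.d := by
  unfold Law.E Law.d
  have h : ∀ z : ℕ × ℕ, Λ.q z.1 z.2 * (dP (.L z.1 z.2) + dP (.R z.1 z.2)) =
      (-2) * (((z.1 : ℝ) + 2) * Λ.q z.1 z.2) := by
    intro z
    show Λ.q z.1 z.2 * ((-((z.1 : ℝ) + 2)) + (-((z.1 : ℝ) + 2))) = _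
    ring
  have hT : dP .T = 1 := rfl
  rw [tsum_congr h, tsum_mul_left, hT]
  ring

theorem E_dA : Λ.E dA = -Λ.a := by
  unfold Law.E Law.a
  have h : ∀ z : ℕ × ℕ, Λ.q z.1 z.2 * (dA (.L z.1 z.2) + dA (.R z.1 z.2)) =
      (-1) * (((z.1 : ℝ) + 1) * Λ.q z.1 z.2) := by
    intro z
    show Λ.q z.1 z.2 * (0 + (-((z.1 : ℝ) + 1))) = _
    ring
  have hT : dA .T = 0 := rfl
  rw [tsum_congr h, tsum_mul_left, hT]
  ring

end SYS.GR
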