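import Pool.Agent.SYS.GR.Mach

/-!
# SYS-GR-PhiB: one step of the potential, second phase (bound for every step, then sum)
-/

namespace SYS.GR

private theorem phiB_one (m m' θ K θ2 K2 B θ1 B2 B3 g : ℝ) (p1 R0 : ℕ)
    (hm' : 1 ≤ m') (hθ : 0 ≤ θ) (hBp : 0 ≤ B)
    (hB : ∀ p : ℕ, p1 ≤ p → Real.exp (θ * (m' * p)) * ((1 + K) * Real.exp (-θ * (m * p))) +
      B * ((1 + K2) * Real.exp (-θ2 * (m * p))) ≤ B * Real.exp (-θ2 * p))
    (l : LS) (p0 : ℕ) (hp0 : p1 ≤ p0) (s : Stp) :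
    Phi m m' θ K θ2 K2 B θ1 B2 B3 g R0 (XS.step m' p1 R0 (.live l (some p0)) s) ≤
      Real.exp (θ * (m' * p0)) * hv m θ K l s + B * hv m θ2 K2 l s := by
  unfold hv
  by_cases hr : (l.step s).r = l.r
  · rw [if_pos hr, if_pos hr]
    have h1 : XS.step m' p1 R0 (.live l (some p0)) s = .live (l.step s) (some p0) := by
      unfold XS.step
      exact if_pos hr
    rw [h1]
    exact le_rfl
  · rw [if_neg hr, if_neg hr]
    by_cases hp : m' * p0 ≤ (l.step s).p
    · have h1 : XS.step m' p1 R0 (.live l (some p0)) s = .live (l.step s) (some (l.step s).p) := by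
        unfold XS.step
        simp only [if_neg hr, if_pos hp]
      rw [h1]
      have hbe : (l.step s).be = 0 := by
        rcases step_r l s with h | h
        · exact absurd h hr
        · exact h.2
      have hmm := mm_be_zero m _ hbe
      have hp' : p1 ≤ (l.step s).p := by
        have h2 : (p0 : ℝ) ≤ (l.step s).p := by
          have h3 : (0 : ℝ) ≤ p0 := Nat.cast_nonneg _
          nlinarith
        have h4 : p0 ≤ (l.step s).p := by exact_mod_cast h2
        omega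
      have h2 := hB _ hp'
      have h3 : ∀ θ' K' : ℝ, hh m θ' K' (l.step s) =
          (1 + K') * Real.exp (-θ' * (m * (l.step s).p)) := by
        intro θ' K'
        unfold hh
        rw [hmm]
        ring
      change Real.exp (θ * (m' * ((l.step s).p : ℕ))) * hh m θ K (l.step s) +
        B * hh m θ2 K2 (l.step s) ≤ _
      rw [h3, h3]
      refine h2.trans ?_
      have h4 : 0 ≤ Real.exp (θ * (m' * p0)) * Real.exp (-θ * (l.step s).p) := by positivity
      linarith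
    · have h1 : XS.step m' p1 R0 (.live l (some p0)) s = .dead := by
        unfold XS.step
        simp only [if_neg hr, if_neg hp]
      rw [h1]
      change (1 : ℝ) ≤ _
      push Not at hp
      have h2 : 1 ≤ Real.exp (θ * (m' * p0)) * Real.exp (-θ * (l.step s).p) := by
        rw [← Real.exp_add]
        apply Real.one_le_exp
        nlinarith
      have h3 : 0 ≤ B * Real.exp (-θ2 * (l.step s).p) := mul_nonneg hBp (Real.exp_nonneg _)
      linarith

theorem phiB (Λ : Law) (m m' θ K θ2 K2 B θ1 B2 B3 g ε : ℝ) (p1 R0 : ℕ)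
    (hm' : 1 ≤ m') (hθ : 0 ≤ θ) (hK : 0 ≤ K) (hK2 : 0 ≤ K2) (hBp : 0 ≤ B)
    (hs : ∀ (l : LS) (F : Finset Stp), (∀ s ∈ F, s.Ok l.p) →
        ∑ s ∈ F, Λ.w s * Real.exp (ε * (dP s + dV s)) * hv m θ K l s ≤ hh m θ K l)
    (hs2 : ∀ (l : LS) (F : Finset Stp), (∀ s ∈ F, s.Ok l.p) →
        ∑ s ∈ F, Λ.w s * Real.exp (ε * (dP s + dV s)) * hv m θ2 K2 l s ≤ hh m θ2 K2 l)
    (hB : ∀ p : ℕ, p1 ≤ p → Real.exp (θ * (m' * p)) * ((1 + K) * Real.exp (-θ * (m * p))) +
      B * ((1 + K2) * Real.exp (-θ2 * (m * p))) ≤ B * Real.exp (-θ2 * p))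
    (l : LS) (p0 : ℕ) (hp0 : p1 ≤ p0) (F : Finset Stp) (hF : ∀ s ∈ F, s.Ok l.p) :
    ∑ s ∈ F, Λ.w s * Real.exp (ε * (dP s + dV s)) *
      Phi m m' θ K θ2 K2 B θ1 B2 B3 g R0 (XS.step m' p1 R0 (.live l (some p0)) s) ≤
      Phi m m' θ K θ2 K2 B θ1 B2 B3 g R0 (.live l (some p0)) := by
  have h1 : ∑ s ∈ F, Λ.w s * Real.exp (ε * (dP s + dV s)) *
      Phi m m' θ K θ2 K2 B θ1 B2 B3 g R0 (XS.step m' p1 R0 (.live l (some p0)) s) ≤
      ∑ s ∈ F, (Real.exp (θ * (m' * p0)) *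
        (Λ.w s * Real.exp (ε * (dP s + dV s)) * hv m θ K l s) +
        B * (Λ.w s * Real.exp (ε * (dP s + dV s)) * hv m θ2 K2 l s)) := by
    refine Finset.sum_le_sum fun s _ => ?_
    have h2 := phiB_one m m' θ K θ2 K2 B θ1 B2 B3 g p1 R0 hm' hθ hBp hB l p0 hp0 s
    have h3 : 0 ≤ Λ.w s * Real.exp (ε * (dP s + dV s)) :=
      mul_nonneg (Λ.w_nonneg s) (Real.exp_nonneg _)
    refine (mul_le_mul_of_nonneg_left h2 h3).trans (le_of_eq ?_)
    ring
  refine h1.trans ?_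
  rw [Finset.sum_add_distrib, ← Finset.mul_sum, ← Finset.mul_sum]
  change _ ≤ Real.exp (θ * (m' * p0)) * hh m θ K l + B * hh m θ2 K2 l
  exact add_le_add (mul_le_mul_of_nonneg_left (hs l F hF) (Real.exp_nonneg _))
    (mul_le_mul_of_nonneg_left (hs2 l F hF) hBp)

end SYS.GR
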