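import Pool.Agent.SYS.GR.PhiA
import Pool.Agent.SYS.GR.PhiB

/-!
# SYS-GR-PhiEx: the potential for slow growth exists (choice of the parameters)
-/

namespace SYS.GR

private theorem ev_small (a C δ : ℝ) (ha : 0 < a) (_hC : 0 ≤ C) (hδ : 0 < δ) :
    ∃ N : ℕ, ∀ p : ℕ, N ≤ p → C * Real.exp (-(a * p)) ≤ δ := by
  obtain ⟨N, hN⟩ := exists_nat_gt ((C / δ) / a)
  refine ⟨N, fun p hp => ?_⟩
  have h1 : (C / δ) < a * p := by
    have : (N : ℝ) ≤ p := by exact_mod_cast hp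
    rw [div_lt_iff₀ ha] at hN
    nlinarith
  have h2 : a * p + 1 ≤ Real.exp (a * p) := Real.add_one_le_exp _
  have h3 : C / δ ≤ Real.exp (a * p) := by linarith
  rw [div_le_iff₀ hδ] at h3
  rw [Real.exp_neg, ← div_eq_mul_inv, div_le_iff₀ (Real.exp_pos _)]
  linarith

theorem phi_ex (Λ : Law) (m m' : ℝ) (h1 : 1 < m') (h2 : m' < m) (h3 : m < 1 + Λ.d / Λ.a) :
    ∃ ε₀ : ℝ, 0 < ε₀ ∧ ∀ ε : ℝ, 0 ≤ ε → ε ≤ ε₀ → ∀ η : ℝ, 0 < η → ∃ p1 R0 : ℕ, 1 ≤ p1 ∧ 1 ≤ R0 ∧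
      ∃ Φ : XS → ℝ, (∀ x, 0 ≤ Φ x) ∧ Φ .dead = 1 ∧ (∀ s : ℕ, Φ (.live (start s) none) ≤ η) ∧
        ∀ (x : XS) (F : Finset Stp), (∀ s ∈ F, XS.D p1 x s) →
          ∑ s ∈ F, Λ.w s * Real.exp (ε * (dP s + dV s)) * Φ (XS.step m' p1 R0 x s) ≤ Φ x := by
  have hm1 : 1 < m := lt_trans h1 h2
  obtain ⟨t0, c0, ht0, hc0, hpar0⟩ := hpar Λ m hm1.le h3
  obtain ⟨t0', c0', ht0', hc0', htilt⟩ := tilt_P Λ
  obtain ⟨θ, hθ, hθle⟩ : ∃ θ : ℝ, 0 < θ ∧ θ ≤ t0 := ⟨t0, ht0, le_rfl⟩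
  obtain ⟨c, hcdef⟩ : ∃ c : ℝ, c = θ * (m - m') := ⟨_, rfl⟩
  have hc : 0 < c := by rw [hcdef]; exact mul_pos hθ (by linarith)
  obtain ⟨θ2, hθ2, hθ2le, hθ2c⟩ : ∃ θ2 : ℝ, 0 < θ2 ∧ θ2 ≤ θ ∧ θ2 ≤ c / 2 :=
    ⟨min θ (c / 2), lt_min hθ (by linarith), min_le_left _ _, min_le_right _ _⟩
  obtain ⟨θ1, hθ1, hθ1le, hθ12⟩ : ∃ θ1 : ℝ, 0 < θ1 ∧ θ1 ≤ t0' ∧ θ1 ≤ θ2 / 2 :=
    ⟨min t0' (θ2 / 2), lt_min ht0' (by linarith), min_le_left _ _, min_le_right _ _⟩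
  refine ⟨min (c0 * θ) (min (c0 * θ2) (c0' * θ1)), lt_min (mul_pos hc0 hθ)
    (lt_min (mul_pos hc0 hθ2) (mul_pos hc0' hθ1)), ?_⟩
  intro ε hε0 hε η hη
  have hεa : ε ≤ c0 * θ := le_trans hε (min_le_left _ _)
  have hεb : ε ≤ c0 * θ2 := le_trans hε (le_trans (min_le_right _ _) (min_le_left _ _))
  have hεc : ε ≤ c0' * θ1 := le_trans hε (le_trans (min_le_right _ _) (min_le_right _ _))
  obtain ⟨K, hK, hs⟩ := hpar0 θ ε hθ hθle hε0 hεa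
  obtain ⟨K2, hK2, hs2⟩ := hpar0 θ2 ε hθ2 (le_trans hθ2le hθle) hε0 hεb
  obtain ⟨g1, hE1⟩ := htilt θ1 ε hθ1 hθ1le hε0 hεc
  obtain ⟨E₁, hEdef⟩ : ∃ E₁ : ℝ, E₁ = Λ.E (fun s => Real.exp (-θ1 * dP s + ε * (dP s + dV s))) := ⟨_, rfl⟩
  have hE0 : 0 ≤ E₁ := by
    have := fin_le_E Λ g1 (fun s => (Real.exp_pos _).le) ∅
    rw [Finset.sum_empty] at this
    rw [hEdef]
    exact this
  rw [← hEdef] at hE1
  have h1E : 0 < 1 + E₁ := by linarith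
  obtain ⟨g, hgdef⟩ : ∃ g : ℝ, g = Real.log (2 / (1 + E₁)) := ⟨_, rfl⟩
  have hgpos : 0 < g := by
    rw [hgdef]
    apply Real.log_pos
    rw [lt_div_iff₀ h1E]
    linarith
  have hexpg : Real.exp g = 2 / (1 + E₁) := by
    rw [hgdef, Real.exp_log (div_pos two_pos h1E)]
  have hgE : Real.exp g * Λ.E (fun s => Real.exp (-θ1 * dP s + ε * (dP s + dV s))) ≤ 1 := by
    rw [← hEdef, hexpg, div_mul_eq_mul_div, div_le_one h1E]
    linarith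
  obtain ⟨N1, hN1⟩ := ev_small (c - θ2) (1 + K) (1 / 2) (by linarith) (by linarith) (by norm_num)
  obtain ⟨N2, hN2⟩ := ev_small (θ2 * (m - 1)) (1 + K2) (1 / 2) (mul_pos hθ2 (by linarith)) (by linarith) (by norm_num)
  obtain ⟨N3, hN3⟩ := ev_small (θ2 - θ1) 1 (η / 2) (by linarith) zero_le_one (by linarith)
  obtain ⟨p1, hp1, hpN1, hpN2, hpN3⟩ : ∃ p1 : ℕ, 1 ≤ p1 ∧ N1 ≤ p1 ∧ N2 ≤ p1 ∧ N3 ≤ p1 :=
    ⟨1 + N1 + N2 + N3, by omega, by omega, by omega, by omega⟩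
  have hB : ∀ p : ℕ, p1 ≤ p → Real.exp (θ * (m' * p)) * ((1 + K) * Real.exp (-θ * (m * p))) +
      1 * ((1 + K2) * Real.exp (-θ2 * (m * p))) ≤ 1 * Real.exp (-θ2 * p) := by
    intro p hp
    have e1 : Real.exp (θ * (m' * p)) * Real.exp (-θ * (m * p)) =
        Real.exp (-((c - θ2) * p)) * Real.exp (-θ2 * p) := by
      rw [← Real.exp_add, ← Real.exp_add, hcdef]
      congr 1
      ring
    have e2 : Real.exp (-θ2 * (m * p)) = Real.exp (-(θ2 * (m - 1) * p)) * Real.exp (-θ2 * p) := by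
      rw [← Real.exp_add]
      congr 1
      ring
    have a1 := hN1 p (le_trans hpN1 hp)
    have a2 := hN2 p (le_trans hpN2 hp)
    have hpos : 0 < Real.exp (-θ2 * p) := Real.exp_pos _
    have b1 := mul_le_mul_of_nonneg_right a1 hpos.le
    have b2 := mul_le_mul_of_nonneg_right a2 hpos.le
    calc Real.exp (θ * (m' * p)) * ((1 + K) * Real.exp (-θ * (m * p))) +
          1 * ((1 + K2) * Real.exp (-θ2 * (m * p)))
        = (1 + K) * (Real.exp (θ * (m' * p)) * Real.exp (-θ * (m * p))) +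
          (1 + K2) * Real.exp (-θ2 * (m * p)) := by ring
      _ = (1 + K) * Real.exp (-((c - θ2) * p)) * Real.exp (-θ2 * p) +
          (1 + K2) * Real.exp (-(θ2 * (m - 1) * p)) * Real.exp (-θ2 * p) := by rw [e1, e2]; ring
      _ ≤ 1 / 2 * Real.exp (-θ2 * p) + 1 / 2 * Real.exp (-θ2 * p) := add_le_add b1 b2
      _ = 1 * Real.exp (-θ2 * p) := by ring
  have hB2 : ∀ p : ℕ, p1 ≤ p → Real.exp (θ * (m' * p)) * ((1 + K) * Real.exp (-θ * (m * p))) +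
      1 * ((1 + K2) * Real.exp (-θ2 * (m * p))) ≤ η / 2 * Real.exp (-θ1 * p) := by
    intro p hp
    refine le_trans (hB p hp) ?_
    have e3 : Real.exp (-θ2 * p) = Real.exp (-((θ2 - θ1) * p)) * Real.exp (-θ1 * p) := by
      rw [← Real.exp_add]
      congr 1
      ring
    have a3 := hN3 p (le_trans hpN3 hp)
    have b3 := mul_le_mul_of_nonneg_right a3 (Real.exp_pos (-θ1 * p)).le
    rw [e3]
    linarith
  obtain ⟨R0', hR0'⟩ := ev_small g (Real.exp (θ1 * p1)) (η / 2) hgpos (Real.exp_pos _).le (by linarith)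
  obtain ⟨R0, hR1, hR2⟩ : ∃ R0 : ℕ, 1 ≤ R0 ∧ R0' ≤ R0 := ⟨1 + R0', by omega, by omega⟩
  have hR := hR0' R0 hR2
  have hhn : ∀ t k : ℝ, 0 ≤ k → ∀ l : LS, 0 ≤ hh m t k l := by
    intro t k hk l
    unfold hh
    positivity
  have hnn : ∀ x : XS, 0 ≤ Phi m m' θ K θ2 K2 1 θ1 (η / 2) (Real.exp (θ1 * p1)) g R0 x := by
    intro x
    match x with
    | .dead => exact zero_le_one
    | .live l none =>
      change 0 ≤ Real.exp (-θ1 * l.p) * (η / 2 + Real.exp (θ1 * p1) * Real.exp (g * ((l.r : ℝ) - R0)))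
      positivity
    | .live l (some p0) =>
      change 0 ≤ Real.exp (θ * (m' * p0)) * hh m θ K l + 1 * hh m θ2 K2 l
      have i1 := hhn θ K hK l
      have i2 := hhn θ2 K2 hK2 l
      positivity
  refine ⟨p1, R0, hp1, hR1, Phi m m' θ K θ2 K2 1 θ1 (η / 2) (Real.exp (θ1 * p1)) g R0, hnn, rfl, ?_, ?_⟩
  · intro s
    change Real.exp (-θ1 * ((start s).p : ℝ)) * (η / 2 + Real.exp (θ1 * p1) * Real.exp (g * (((start s).r : ℝ) - R0))) ≤ η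
    have j1 : Real.exp (-θ1 * ((start s).p : ℝ)) ≤ 1 := by
      rw [Real.exp_le_one_iff]
      have : (0 : ℝ) ≤ ((start s).p : ℝ) := Nat.cast_nonneg _
      nlinarith
    have j2 : Real.exp (g * (((start s).r : ℝ) - R0)) = Real.exp (-(g * R0)) := by
      congr 1
      change g * (((0 : ℕ) : ℝ) - R0) = _
      rw [Nat.cast_zero]
      ring
    rw [j2]
    have j3 : η / 2 + Real.exp (θ1 * p1) * Real.exp (-(g * R0)) ≤ η := by linarith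
    have j4 : 0 ≤ η / 2 + Real.exp (θ1 * p1) * Real.exp (-(g * R0)) := by positivity
    calc Real.exp (-θ1 * ((start s).p : ℝ)) * (η / 2 + Real.exp (θ1 * p1) * Real.exp (-(g * R0)))
        ≤ 1 * (η / 2 + Real.exp (θ1 * p1) * Real.exp (-(g * R0))) := mul_le_mul_of_nonneg_right j1 j4
      _ ≤ η := by rw [one_mul]; exact j3
  · intro x F hF
    match x, hF with
    | .dead, hF =>
      have hFe : F = ∅ := Finset.eq_empty_of_forall_notMem (fun s hs => hF s hs)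
      rw [hFe, Finset.sum_empty]
      exact hnn _
    | .live l none, hF =>
      exact phiA Λ m m' θ K θ2 K2 1 θ1 (η / 2) (Real.exp (θ1 * p1)) g ε p1 R0 hgpos.le hθ1.le
        (by linarith) (Real.exp_pos _).le g1 hgE hB2 le_rfl l F hF
    | .live l (some p0), hF =>
      rcases F.eq_empty_or_nonempty with hFe | ⟨s, hsF⟩
      · rw [hFe, Finset.sum_empty]
        exact hnn _
      · have hp0 : p1 ≤ p0 := (hF s hsF).2
        exact phiB Λ m m' θ K θ2 K2 1 θ1 (η / 2) (Real.exp (θ1 * p1)) g ε p1 R0 h1.le hθ.le hK hK2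
          zero_le_one hs hs2 hB l p0 hp0 F (fun s hs => (hF s hs).1)

end SYS.GR
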