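import Pool.Agent.SYS.GR.Mean
import Pool.Agent.SYS.GR.Expo

/-!
# SYS-GR-Tilt: exponential moments with a small tilt
-/

namespace SYS.GR

theorem tilt (Λ : Law) (X : Stp → ℝ) (C : ℝ) (hX : ∀ s, |X s| ≤ C * (1 + sz s)) (hm : Λ.E X < 0) :
    ∃ θ₀ c₀ : ℝ, 0 < θ₀ ∧ 0 < c₀ ∧ ∀ θ ε : ℝ, 0 < θ → θ ≤ θ₀ → 0 ≤ ε → ε ≤ c₀ * θ →
      Λ.Gr (fun s => Real.exp (θ * X s + ε * (dP s + dV s))) ∧
      Λ.E (fun s => Real.exp (θ * X s + ε * (dP s + dV s))) < 1 := by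
  have hY0 : ∀ s, 0 ≤ 3 * (1 + sz s) := fun s => by
    have := sz_nonneg s
    positivity
  have hYb : ∀ s, |3 * (1 + sz s)| ≤ 3 * (1 + sz s) := fun s => by rw [abs_of_nonneg (hY0 s)]
  have hYd : ∀ s, dP s + dV s ≤ 3 * (1 + sz s) := fun s => by
    have h1 := (le_abs_self _).trans (abs_dP s)
    have h2 := (le_abs_self _).trans (abs_dV s)
    linarith
  have hYG : Λ.Gr (fun s => 3 * (1 + sz s)) := gr_lin Λ 3 hYb
  have hXG : Λ.Gr X := gr_lin Λ C hX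
  have hEY : 0 ≤ Λ.E (fun s => 3 * (1 + sz s)) := by
    have h1 := E_mono Λ (gr_const Λ 0) hYG hY0
    have h2 : Λ.E (fun _ => (0 : ℝ)) = 0 := by
      have h3 := E_mul Λ (fun _ => (1 : ℝ)) 0
      simp only [zero_mul] at h3
      exact h3
    rwa [h2] at h1
  obtain ⟨M, hM⟩ : ∃ M, M = Λ.E (fun s => 3 * (1 + sz s)) := ⟨_, rfl⟩
  rw [← hM] at hEY
  obtain ⟨c₀, hc₀⟩ : ∃ c, c = -Λ.E X / (2 * (M + 1)) := ⟨_, rfl⟩
  have hc0 : 0 < c₀ := by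
    rw [hc₀]
    exact div_pos (by linarith) (by linarith)
  have hcM : Λ.E X + c₀ * M < 0 := by
    have h1 : c₀ * (2 * (M + 1)) = -Λ.E X := by
      rw [hc₀]
      exact div_mul_cancel₀ _ (by linarith)
    nlinarith
  have hX' : ∀ s, |X s + c₀ * (3 * (1 + sz s))| ≤ (C + 3 * c₀) * (1 + sz s) := by
    intro s
    calc |X s + c₀ * (3 * (1 + sz s))| ≤ |X s| + |c₀ * (3 * (1 + sz s))| := abs_add_le _ _
      _ ≤ C * (1 + sz s) + c₀ * (3 * (1 + sz s)) := by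
          refine add_le_add (hX s) ?_
          rw [abs_of_nonneg (mul_nonneg hc0.le (hY0 s))]
      _ = _ := by ring
  have hE' : Λ.E (fun s => X s + c₀ * (3 * (1 + sz s))) < 0 := by
    rw [E_add Λ hXG (gr_mul Λ hYG c₀), E_mul Λ _ c₀, ← hM]
    exact hcM
  obtain ⟨θ₀, hθ₀, hexp⟩ := expo Λ (fun s => X s + c₀ * (3 * (1 + sz s))) (C + 3 * c₀) hX' hE'
  refine ⟨θ₀, c₀, hθ₀, hc0, ?_⟩
  intro θ ε hθ hθ1 hε hε1
  obtain ⟨g1, g2⟩ := hexp θ hθ hθ1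
  have hle : ∀ s, Real.exp (θ * X s + ε * (dP s + dV s)) ≤
      Real.exp (θ * (X s + c₀ * (3 * (1 + sz s)))) := by
    intro s
    apply Real.exp_le_exp.2
    have h1 : ε * (dP s + dV s) ≤ ε * (3 * (1 + sz s)) := mul_le_mul_of_nonneg_left (hYd s) hε
    have h2 : ε * (3 * (1 + sz s)) ≤ c₀ * θ * (3 * (1 + sz s)) := mul_le_mul_of_nonneg_right hε1 (hY0 s)
    nlinarith
  have hG : Λ.Gr (fun s => Real.exp (θ * X s + ε * (dP s + dV s))) := by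
    refine gr_mono Λ g1 fun s => ?_
    rw [abs_of_pos (Real.exp_pos _), abs_of_pos (Real.exp_pos _)]
    exact hle s
  exact ⟨hG, (E_mono Λ hG g1 hle).trans_lt g2⟩

private theorem gdP (Λ : Law) : Λ.Gr dP := gr_lin Λ 2 abs_dP

private theorem gdA (Λ : Law) : Λ.Gr dA := gr_lin Λ 1 (fun s => by rw [one_mul]; exact abs_dA s)

private theorem abs_comb (m : ℝ) (s : Stp) : |dP s + (m - 1) * dA s| ≤ (2 + |m - 1|) * (1 + sz s) := by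
  calc |dP s + (m - 1) * dA s| ≤ |dP s| + |(m - 1) * dA s| := abs_add_le _ _
    _ ≤ 2 * (1 + sz s) + |m - 1| * (1 + sz s) := by
        refine add_le_add (abs_dP s) ?_
        rw [abs_mul]
        exact mul_le_mul_of_nonneg_left (abs_dA s) (abs_nonneg _)
    _ = _ := by ring

private theorem E_comb (Λ : Law) (m : ℝ) :
    Λ.E (fun s => dP s + (m - 1) * dA s) = Λ.d - (m - 1) * Λ.a := by
  rw [E_add Λ (gdP Λ) (gr_mul Λ (gdA Λ) (m - 1)), E_mul Λ dA (m - 1)]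
  have h1 : Λ.E (fun s => dP s) = Λ.d := E_dP Λ
  rw [h1, E_dA]
  ring

theorem tilt_M (Λ : Law) (m : ℝ) (hm0 : 1 ≤ m) (hm : m < 1 + Λ.d / Λ.a) :
    ∃ θ₀ c₀ : ℝ, 0 < θ₀ ∧ 0 < c₀ ∧ ∀ θ ε : ℝ, 0 < θ → θ ≤ θ₀ → 0 ≤ ε → ε ≤ c₀ * θ →
      Λ.Gr (fun s => Real.exp (-θ * (dP s + (m - 1) * dA s) + ε * (dP s + dV s))) ∧
      Λ.E (fun s => Real.exp (-θ * (dP s + (m - 1) * dA s) + ε * (dP s + dV s))) < 1 := by
  have _ := hm0
  obtain ⟨θ₀, c₀, h1, h2, h3⟩ := tilt Λ (fun s => (-1) * (dP s + (m - 1) * dA s)) (2 + |m - 1|)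
    (fun s => by
      rw [abs_mul, abs_neg, abs_one, one_mul]
      exact abs_comb m s)
    (by
      rw [E_mul Λ _ (-1), E_comb]
      have ha := Λ.a_pos
      have h4 : (m - 1) * Λ.a < Λ.d := by
        rw [← lt_div_iff₀ ha]
        linarith
      linarith)
  refine ⟨θ₀, c₀, h1, h2, ?_⟩
  intro θ ε hθ hθ1 hε hε1
  have h5 := h3 θ ε hθ hθ1 hε hε1
  have e : (fun s => Real.exp (-θ * (dP s + (m - 1) * dA s) + ε * (dP s + dV s))) =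
      (fun s => Real.exp (θ * ((-1) * (dP s + (m - 1) * dA s)) + ε * (dP s + dV s))) := by
    funext s
    congr 1
    ring
  rw [e]
  exact h5

theorem tilt_P (Λ : Law) :
    ∃ θ₀ c₀ : ℝ, 0 < θ₀ ∧ 0 < c₀ ∧ ∀ θ ε : ℝ, 0 < θ → θ ≤ θ₀ → 0 ≤ ε → ε ≤ c₀ * θ →
      Λ.Gr (fun s => Real.exp (-θ * dP s + ε * (dP s + dV s))) ∧
      Λ.E (fun s => Real.exp (-θ * dP s + ε * (dP s + dV s))) < 1 := by
  obtain ⟨θ₀, c₀, h1, h2, h3⟩ := tilt Λ (fun s => (-1) * dP s) 2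
    (fun s => by
      rw [abs_mul, abs_neg, abs_one, one_mul]
      exact abs_dP s)
    (by
      rw [E_mul Λ dP (-1), E_dP]
      have hd := Λ.d_pos
      linarith)
  refine ⟨θ₀, c₀, h1, h2, ?_⟩
  intro θ ε hθ hθ1 hε hε1
  have h5 := h3 θ ε hθ hθ1 hε hε1
  have e : (fun s => Real.exp (-θ * dP s + ε * (dP s + dV s))) =
      (fun s => Real.exp (θ * ((-1) * dP s) + ε * (dP s + dV s))) := by
    funext s
    congr 1
    ring
  rw [e]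
  exact h5

theorem tilt_up (Λ : Law) (m : ℝ) (hm : 1 + Λ.d / Λ.a < m) :
    ∃ θ₀ c₀ : ℝ, 0 < θ₀ ∧ 0 < c₀ ∧ ∀ θ ε : ℝ, 0 < θ → θ ≤ θ₀ → 0 ≤ ε → ε ≤ c₀ * θ →
      Λ.Gr (fun s => Real.exp (θ * (dP s + (m - 1) * dA s) + ε * (dP s + dV s))) ∧
      Λ.E (fun s => Real.exp (θ * (dP s + (m - 1) * dA s) + ε * (dP s + dV s))) < 1 := by
  exact tilt Λ (fun s => dP s + (m - 1) * dA s) (2 + |m - 1|) (abs_comb m) (by
    rw [E_comb]
    have ha := Λ.a_pos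
    have h4 : Λ.d < (m - 1) * Λ.a := by
      rw [← div_lt_iff₀ ha]
      linarith
    linarith)

end SYS.GR
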