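import Pool.Agent.SYS.GR.WSum
import Pool.Agent.SYS.GR.Tilt
import Pool.Agent.SYS.GR.LSt

/-!
# SYS-GR-Vol: large volume at small perimeter is unlikely

Proved by `word_sum` for the machine of the perimeter with a small tilt.
-/

namespace SYS.GR

theorem wgt_eq (Λ : Law) (ε : ℝ) (s : ℕ) (w : List Stp) (hw : WOk s w) :
    (w.map fun t => Λ.w t * Real.exp (ε * (dP t + dV t))).prod =
      Λ.ww w * Real.exp (ε * ((wend s w : ℝ) - s + wvol w)) := by
  induction w generalizing s with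
  | nil => simp [Λ.ww_nil, wend_nil, wvol_nil]
  | cons t w ih =>
    rw [WOk_cons] at hw
    rw [List.map_cons, List.prod_cons, ih (t.nx s) hw.2, Λ.ww_cons, wend_cons, wvol_cons, nx_cast hw.1, dV_eq]
    have h1 : ε * ((wend (t.nx s) w : ℝ) - s + ((t.vol + wvol w : ℕ) : ℝ)) =
        ε * (dP t + (t.vol : ℝ)) + ε * ((wend (t.nx s) w : ℝ) - (s + dP t) + wvol w) := by
      push_cast
      ring
    rw [h1, Real.exp_add]
    ring

private theorem vol_wg (Λ : Law) (ε : ℝ) (s : ℕ) (w : List Stp) :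
    wg (fun (p : ℕ) (t : Stp) => t.nx p) (fun _ t => Λ.w t * Real.exp (ε * (dP t + dV t))) s w =
      (w.map fun t => Λ.w t * Real.exp (ε * (dP t + dV t))).prod := by
  induction w generalizing s with
  | nil => rfl
  | cons t w ih =>
    rw [List.map_cons, List.prod_cons, ← ih (t.nx s)]
    rfl

private theorem vol_al (s : ℕ) (w : List Stp) (h : WOk s w) :
    Al (fun (p : ℕ) (t : Stp) => t.nx p) (fun p t => t.Ok p) s w := by
  induction w generalizing s with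
  | nil => trivial
  | cons t w ih => exact ⟨h.1, ih _ h.2⟩

private theorem vol_nx_le (p : ℕ) (t : Stp) : t.nx p ≤ p + 1 := by
  cases t with
  | T => exact le_rfl
  | L k a => show p - (k + 2) ≤ p + 1; omega
  | R k a => show p - (k + 2) ≤ p + 1; omega

theorem vol (Λ : Law) : ∃ ε₀ c C₀ : ℝ, 0 < ε₀ ∧ 0 < c ∧ 0 < C₀ ∧ ∀ (ε C P : ℝ) (s : ℕ) (W : Finset (List Stp)),
    0 ≤ ε → ε ≤ ε₀ → C₀ ≤ C → 1 ≤ P → PF W →
    (∀ w ∈ W, WOk s w ∧ (∀ u, u <+: w → u ≠ w → (wend s u : ℝ) < P) ∧ C * P ≤ wvol w) →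
    ∑ w ∈ W, Λ.ww w * Real.exp (ε * ((wend s w : ℝ) + wvol w)) ≤ Real.exp (-c * C * P) := by
  obtain ⟨θ, c0, hθ, hc0, htilt⟩ := tilt_P Λ
  have hε1 : 0 < c0 * θ := mul_pos hc0 hθ
  obtain ⟨ε1, hε1eq⟩ : ∃ ε1, ε1 = c0 * θ := ⟨_, rfl⟩
  rw [← hε1eq] at hε1
  obtain ⟨hGr, hE⟩ := htilt θ ε1 hθ le_rfl hε1.le hε1eq.le
  refine ⟨ε1 / 2, ε1 / 4, 4 * (ε1 + 2 * θ) / ε1, by positivity, by positivity, by positivity, ?_⟩
  intro ε C P s W hε0 hε hC hP hPF hW
  have hCpos : 0 < C := lt_of_lt_of_le (by positivity) hC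
  have hkey : ∑ w ∈ W, wg (fun (p : ℕ) (t : Stp) => t.nx p)
      (fun _ t => Λ.w t * Real.exp (ε1 * (dP t + dV t))) s w *
      Real.exp (-θ * ((rx (fun (p : ℕ) (t : Stp) => t.nx p) s w : ℕ) : ℝ)) ≤ Real.exp (-θ * (s : ℝ)) := by
    refine word_sum (fun (p : ℕ) (t : Stp) => t.nx p) (fun p t => t.Ok p)
      (fun _ t => Λ.w t * Real.exp (ε1 * (dP t + dV t))) (fun p => Real.exp (-θ * (p : ℝ)))
      (fun _ t => mul_nonneg (Λ.w_nonneg t) (Real.exp_pos _).le) (fun _ => (Real.exp_pos _).le) ?_ s W hPF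
      (fun w hw => vol_al s w (hW w hw).1)
    intro x F hF
    have h1 : ∑ t ∈ F, Λ.w t * Real.exp (ε1 * (dP t + dV t)) * Real.exp (-θ * ((t.nx x : ℕ) : ℝ)) =
        Real.exp (-θ * (x : ℝ)) * ∑ t ∈ F, Λ.w t * Real.exp (-θ * dP t + ε1 * (dP t + dV t)) := by
      rw [Finset.mul_sum]
      refine Finset.sum_congr rfl fun t ht => ?_
      rw [nx_cast (hF t ht), mul_assoc, ← Real.exp_add, mul_left_comm, ← Real.exp_add]
      congr 2
      ring
    have h2 := fin_le_E Λ hGr (fun _ => (Real.exp_pos _).le) F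
    calc _ = Real.exp (-θ * (x : ℝ)) * ∑ t ∈ F, Λ.w t * Real.exp (-θ * dP t + ε1 * (dP t + dV t)) := h1
      _ ≤ Real.exp (-θ * (x : ℝ)) * 1 :=
        mul_le_mul_of_nonneg_left (h2.trans hE.le) (Real.exp_pos _).le
      _ = _ := mul_one _
  have hterm : ∀ w ∈ W, Λ.ww w * Real.exp (ε * ((wend s w : ℝ) + wvol w)) ≤
      (wg (fun (p : ℕ) (t : Stp) => t.nx p)
        (fun _ t => Λ.w t * Real.exp (ε1 * (dP t + dV t))) s w *
        Real.exp (-θ * ((rx (fun (p : ℕ) (t : Stp) => t.nx p) s w : ℕ) : ℝ))) *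
        Real.exp (-(ε1 / 4) * C * P) := by
    intro w hw
    obtain ⟨h1, h2, h3⟩ := hW w hw
    have hCP : 0 < C * P := mul_pos hCpos (by linarith)
    have hne : w ≠ [] := by
      rintro rfl
      rw [wvol_nil] at h3
      norm_num at h3
      linarith
    have hs : (s : ℝ) < P := h2 [] List.nil_prefix hne.symm
    have hend : (wend s w : ℝ) ≤ 2 * P := by
      obtain ⟨u, t, rfl⟩ : ∃ u t, w = u ++ [t] := ⟨w.dropLast, w.getLast hne, (List.dropLast_append_getLast hne).symm⟩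
      have h4 := h2 u (List.prefix_append u [t]) (by simp)
      rw [wend_append, wend_cons, wend_nil]
      have h5 : ((t.nx (wend s u) : ℕ) : ℝ) ≤ (wend s u : ℝ) + 1 := by exact_mod_cast vol_nx_le (wend s u) t
      linarith
    rw [vol_wg, wgt_eq Λ ε1 s w h1]
    have hrx : rx (fun (p : ℕ) (t : Stp) => t.nx p) s w = wend s w := rfl
    rw [hrx, mul_assoc, mul_assoc, ← Real.exp_add, ← Real.exp_add]
    refine mul_le_mul_of_nonneg_left (Real.exp_le_exp.2 ?_) (Λ.ww_nonneg w)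
    have h6 : (ε1 + 2 * θ) * P ≤ ε1 / 4 * (C * P) := by
      have h7 : 4 * (ε1 + 2 * θ) ≤ C * ε1 := by
        rwa [div_le_iff₀ hε1] at hC
      have h8 := mul_le_mul_of_nonneg_right h7 (show (0 : ℝ) ≤ P by linarith)
      linarith
    have h9 : ε1 / 2 * (C * P) ≤ (ε1 - ε) * wvol w := by
      calc ε1 / 2 * (C * P) ≤ (ε1 - ε) * (C * P) := mul_le_mul_of_nonneg_right (by linarith) hCP.le
        _ ≤ (ε1 - ε) * wvol w := mul_le_mul_of_nonneg_left h3 (by linarith)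
    have h10 : ε1 * s ≤ ε1 * P := mul_le_mul_of_nonneg_left hs.le hε1.le
    have h11 : θ * wend s w ≤ θ * (2 * P) := mul_le_mul_of_nonneg_left hend hθ.le
    have h12 : 0 ≤ (ε1 - ε) * wend s w := mul_nonneg (by linarith) (Nat.cast_nonneg _)
    nlinarith
  calc ∑ w ∈ W, Λ.ww w * Real.exp (ε * ((wend s w : ℝ) + wvol w))
      ≤ ∑ w ∈ W, (wg (fun (p : ℕ) (t : Stp) => t.nx p)
        (fun _ t => Λ.w t * Real.exp (ε1 * (dP t + dV t))) s w *
        Real.exp (-θ * ((rx (fun (p : ℕ) (t : Stp) => t.nx p) s w : ℕ) : ℝ))) *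
        Real.exp (-(ε1 / 4) * C * P) := Finset.sum_le_sum hterm
    _ ≤ 1 * Real.exp (-(ε1 / 4) * C * P) := by
      rw [← Finset.sum_mul]
      refine mul_le_mul_of_nonneg_right (hkey.trans ?_) (Real.exp_pos _).le
      rw [Real.exp_le_one_iff]
      have : 0 ≤ θ * (s : ℝ) := by positivity
      linarith
    _ = _ := one_mul _

end SYS.GR
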