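import Pool.Agent.SYS.GR.Pre
import Pool.Agent.SYS.GR.PhiEx
import Pool.Agent.SYS.GR.Dead
import Pool.Agent.SYS.GR.Vol

/-!
# SYS-GR-Minus: GRO-, the layers grow at least at rate kappa (assembly of phi_ex, dead_of_lay, vol, pre_dom, word_sum)
-/

namespace SYS.GR

theorem wg_const {σ : Type} (step : σ → Stp → σ) (f : Stp → ℝ) (x : σ) (w : List Stp) :
    wg step (fun _ t => f t) x w = (w.map f).prod := by
  induction w generalizing x with
  | nil => rfl
  | cons s w ih =>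
    rw [List.map_cons, List.prod_cons, ← ih (step x s)]
    rfl

/-- the last step raises the perimeter by at most one -/
theorem wend_le_of_prefix {s : ℕ} {P : ℝ} {w : List Stp} (hw : WOk s w) (h0 : w ≠ [])
    (h : ∀ u, u <+: w → u ≠ w → (wend s u : ℝ) < P) : ∀ u, u <+: w → (wend s u : ℝ) ≤ P + 1 := by
  intro u hu
  by_cases hne : u = w
  · subst hne
    rcases List.eq_nil_or_concat u with h1 | ⟨v, t, h1⟩
    · exact absurd h1 h0
    · rw [List.concat_eq_append] at h1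
      rw [h1] at hw h ⊢
      have h2 := h v (by simp) (by simp)
      have h3 : wend s (v ++ [t]) ≤ wend s v + 1 := by
        rw [wend_append]
        show t.nx (wend s v) ≤ wend s v + 1
        cases t with
        | T => exact le_rfl
        | L k a => show wend s v - (k + 2) ≤ wend s v + 1; omega
        | R k a => show wend s v - (k + 2) ≤ wend s v + 1; omega
      have h4 : ((wend s (v ++ [t]) : ℕ) : ℝ) ≤ (wend s v : ℝ) + 1 := by exact_mod_cast h3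
      linarith
  · have := h u hu hne
    linarith

private theorem mi_pre {Λ : Law} {U : ℕ → ℕ → ℝ} {s : ℕ} {K ε : ℝ} {Qb : ℕ → Prop}
    (hUb : ∀ p v : ℕ, p ≤ s + v → Qb p → U p v ≤ K * Real.exp (ε * ((p : ℝ) + v)))
    (W : Finset (List Stp)) (hW : ∀ w ∈ W, WOk s w) (hQ : ∀ w ∈ W, Qb (wend s w)) :
    ∑ w ∈ W, Λ.ww w * U (wend s w) (wvol w) ≤
      K * ∑ w ∈ W, Λ.ww w * Real.exp (ε * ((wend s w : ℝ) + wvol w)) := by
  rw [Finset.mul_sum]
  refine Finset.sum_le_sum fun w hw => ?_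
  have h1 := hUb (wend s w) (wvol w) (wend_le s w (hW w hw)) (hQ w hw)
  have h2 := mul_le_mul_of_nonneg_left h1 (Λ.ww_nonneg w)
  calc Λ.ww w * U (wend s w) (wvol w) ≤
      Λ.ww w * (K * Real.exp (ε * ((wend s w : ℝ) + wvol w))) := h2
    _ = K * (Λ.ww w * Real.exp (ε * ((wend s w : ℝ) + wvol w))) := by ring

private theorem mi_gen (Λ : Law) (δ : ℝ) (hδ : 0 < δ) : ∃ ε : ℝ, 0 < ε ∧ ∀ η : ℝ, 0 < η → ∃ C : ℝ, 0 < C ∧
    ∀ (s : ℕ) (P K : ℝ) (U : ℕ → ℕ → ℝ) (W : Finset (List Stp)) (Qb : ℕ → Prop), 1 ≤ s → 1 ≤ P → 0 ≤ K → SM Λ U →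
      (∀ p v : ℕ, p ≤ s + v → Qb p → U p v ≤ K * Real.exp (ε * ((p : ℝ) + v))) → PF W →
      (∀ w ∈ W, ∀ u, u <+: w → Qb (wend s u)) →
      (∀ w ∈ W, WOk s w ∧ (∀ u, u <+: w → u ≠ w → (wend s u : ℝ) < P) ∧
        (C + (1 + δ) * Real.log P / Λ.kap ≤ lay s w ∨ C * P ≤ wvol w)) →
      ∑ w ∈ W, Λ.ww w * U (wend s w) (wvol w) ≤ η * K * Real.exp (ε * s) := by
  classical
  have hκ := Λ.kap_pos
  have hda : 0 < Λ.d / Λ.a := div_pos Λ.d_pos Λ.a_pos
  have hexp : Real.exp Λ.kap = 1 + Λ.d / Λ.a := by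
    rw [Law.kap, Real.exp_log (by linarith)]
  have hlm : 0 < Λ.kap / (1 + δ) := div_pos hκ (by linarith)
  have h1 : 1 < Real.exp (Λ.kap / (1 + δ)) := Real.one_lt_exp_iff.2 hlm
  have h2 : Real.exp (Λ.kap / (1 + δ)) < Real.exp (Λ.kap / (1 + δ / 2)) := by
    apply Real.exp_lt_exp.2
    exact div_lt_div_of_pos_left hκ (by linarith) (by linarith)
  have h3 : Real.exp (Λ.kap / (1 + δ / 2)) < 1 + Λ.d / Λ.a := by
    rw [← hexp]
    apply Real.exp_lt_exp.2
    rw [div_lt_iff₀ (by linarith)]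
    nlinarith
  obtain ⟨ε1, hε1, hphi⟩ := phi_ex Λ _ _ h1 h2 h3
  obtain ⟨ε2, c, C0, hε2, hc, hC0, hvol⟩ := vol Λ
  have hε : 0 < min ε1 ε2 := lt_min hε1 hε2
  refine ⟨min ε1 ε2, hε, fun η hη => ?_⟩
  obtain ⟨p1, R0, hp1, hR0, Φ, hΦ0, hΦd, hΦs, hΦ⟩ :=
    hphi (min ε1 ε2) hε.le (min_le_left _ _) (η / 2) (by linarith)
  set ε := min ε1 ε2 with hεdef
  set C1 : ℝ := max C0 (Real.log (2 / η) / c) with hC1
  have hC1e : Real.exp (-c * C1) ≤ η / 2 := by
    have h4 : Real.log (2 / η) ≤ c * C1 := by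
      have h5 : Real.log (2 / η) / c ≤ C1 := le_max_right _ _
      rw [div_le_iff₀ hc] at h5
      linarith
    have h5 : Real.exp (-c * C1) ≤ Real.exp (-Real.log (2 / η)) := by
      apply Real.exp_le_exp.2
      linarith
    have h6 : Real.exp (-Real.log (2 / η)) = η / 2 := by
      rw [Real.exp_neg, Real.exp_log (by positivity), inv_div]
    linarith
  set C : ℝ := max ((R0 : ℝ) + 2) C1 with hC
  have hCR : (R0 : ℝ) + 2 ≤ C := le_max_left _ _
  have hCC1 : C1 ≤ C := le_max_right _ _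
  have hR0' : (1 : ℝ) ≤ R0 := by exact_mod_cast hR0
  have hCpos : 0 < C := by linarith
  refine ⟨C, hCpos, ?_⟩
  intro s P K U W Qb hs hP hK hU hUb hW hQ hw
  have hCe : Real.exp (-c * C * P) ≤ η / 2 := by
    refine le_trans (Real.exp_le_exp.2 ?_) hC1e
    have h4 : c * C1 ≤ c * C := mul_le_mul_of_nonneg_left hCC1 hc.le
    have h5 : 0 < c * C := mul_pos hc hCpos
    nlinarith
  have hes : 1 ≤ Real.exp (ε * s) := Real.one_le_exp (by positivity)
  -- the second alternative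
  have hB : ∑ w ∈ W.filter (fun w => ¬ (C + (1 + δ) * Real.log P / Λ.kap ≤ lay s w)),
      Λ.ww w * U (wend s w) (wvol w) ≤ η / 2 * K * Real.exp (ε * s) := by
    set W2 := W.filter (fun w => ¬ (C + (1 + δ) * Real.log P / Λ.kap ≤ lay s w)) with hW2
    have hsub : ∀ w ∈ W2, w ∈ W := fun w h => (Finset.mem_filter.1 h).1
    have h4 := mi_pre (Λ := Λ) hUb W2 (fun w h => (hw w (hsub w h)).1)
      (fun w h => hQ w (hsub w h) w (List.prefix_refl w))
    have h5 := hvol ε C P s W2 hε.le (min_le_right _ _) ((le_max_left _ _).trans hCC1) hP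
      (fun u hu w hw' h => hW u (hsub u hu) w (hsub w hw') h)
      (fun w h => by
        obtain ⟨a1, a2, a3⟩ := hw w (hsub w h)
        exact ⟨a1, a2, a3.resolve_left (Finset.mem_filter.1 h).2⟩)
    calc _ ≤ K * ∑ w ∈ W2, Λ.ww w * Real.exp (ε * ((wend s w : ℝ) + wvol w)) := h4
      _ ≤ K * (η / 2) := mul_le_mul_of_nonneg_left (h5.trans hCe) hK
      _ = (η / 2 * K) * 1 := by ring
      _ ≤ η / 2 * K * Real.exp (ε * s) := mul_le_mul_of_nonneg_left hes (by positivity)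
  -- the first alternative
  have hA : ∑ w ∈ W.filter (fun w => C + (1 + δ) * Real.log P / Λ.kap ≤ lay s w),
      Λ.ww w * U (wend s w) (wvol w) ≤ η / 2 * K * Real.exp (ε * s) := by
    set W1 := W.filter (fun w => C + (1 + δ) * Real.log P / Λ.kap ≤ lay s w) with hW1
    have hsub : ∀ w ∈ W1, w ∈ W := fun w h => (Finset.mem_filter.1 h).1
    obtain ⟨W', hPF, hW', hle⟩ := pre_dom Λ U hU s hs W1
      (fun u hu w hw' h => hW u (hsub u hu) w (hsub w hw') h) (fun w h => (hw w (hsub w h)).1)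
      (fun u => rx (XS.step (Real.exp (Λ.kap / (1 + δ))) p1 R0) (.live (start s) none) u = .dead)
      (fun w h => ⟨w, List.prefix_refl w, by
        obtain ⟨a1, a2, -⟩ := hw w (hsub w h)
        refine dead_of_lay _ h1 p1 R0 s hp1 hR0 hs P hP w a1 a2 ?_
        have h6 := (Finset.mem_filter.1 h).2
        have h7 : Real.log P / Real.log (Real.exp (Λ.kap / (1 + δ))) =
            (1 + δ) * Real.log P / Λ.kap := by
          rw [Real.log_exp]
          field_simp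
        rw [h7]
        linarith⟩)
    have hok : ∀ u ∈ W', WOk s u := by
      intro u hu
      obtain ⟨w, hw1, t, rfl⟩ := (hW' u hu).2.2
      exact ((WOk_append s u t).1 (hw _ (hsub _ hw1)).1).1
    have hQ' : ∀ u ∈ W', Qb (wend s u) := by
      intro u hu
      obtain ⟨w, hw1, hp⟩ := (hW' u hu).2.2
      exact hQ w (hsub _ hw1) u hp
    have h4 := mi_pre (Λ := Λ) hUb W' hok hQ'
    have h5 := word_sum (XS.step (Real.exp (Λ.kap / (1 + δ))) p1 R0) (XS.D p1)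
      (fun _ t => Λ.w t * Real.exp (ε * (dP t + dV t))) Φ
      (fun _ t => mul_nonneg (Λ.w_nonneg t) (Real.exp_pos _).le) hΦ0 (fun x F hF => hΦ x F hF)
      (.live (start s) none) W' hPF
      (fun u hu => al_D _ h1.le p1 R0 s hs u (hok u hu) (fun u' h6 h7 => (hW' u hu).2.1 u' h6 h7))
    have h6 : ∑ u ∈ W', Λ.ww u * Real.exp (ε * ((wend s u : ℝ) + wvol u)) =
        Real.exp (ε * s) * ∑ u ∈ W', wg (XS.step (Real.exp (Λ.kap / (1 + δ))) p1 R0)
          (fun _ t => Λ.w t * Real.exp (ε * (dP t + dV t))) (.live (start s) none) u *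
          Φ (rx (XS.step (Real.exp (Λ.kap / (1 + δ))) p1 R0) (.live (start s) none) u) := by
      rw [Finset.mul_sum]
      refine Finset.sum_congr rfl fun u hu => ?_
      have h7 : rx (XS.step (Real.exp (Λ.kap / (1 + δ))) p1 R0) (.live (start s) none) u = .dead :=
        (hW' u hu).1
      rw [h7, hΦd, wg_const, wgt_eq Λ ε s u (hok u hu), mul_one]
      have h8 : ε * ((wend s u : ℝ) + wvol u) = ε * s + ε * ((wend s u : ℝ) - s + wvol u) := by ring
      rw [h8, Real.exp_add]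
      ring
    calc _ ≤ _ := hle
      _ ≤ K * ∑ u ∈ W', Λ.ww u * Real.exp (ε * ((wend s u : ℝ) + wvol u)) := h4
      _ ≤ K * (Real.exp (ε * s) * (η / 2)) := by
          rw [h6]
          exact mul_le_mul_of_nonneg_left
            (mul_le_mul_of_nonneg_left (h5.trans (hΦs s)) (Real.exp_pos _).le) hK
      _ = η / 2 * K * Real.exp (ε * s) := by ring
  rw [← Finset.sum_filter_add_sum_filter_not W
    (fun w => C + (1 + δ) * Real.log P / Λ.kap ≤ lay s w)]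
  calc _ ≤ η / 2 * K * Real.exp (ε * s) + η / 2 * K * Real.exp (ε * s) := add_le_add hA hB
    _ = η * K * Real.exp (ε * s) := by ring

theorem gro_minus (Λ : Law) (δ : ℝ) (hδ : 0 < δ) : ∃ ε : ℝ, 0 < ε ∧ ∀ η : ℝ, 0 < η → ∃ C : ℝ, 0 < C ∧
    ∀ (s : ℕ) (P K : ℝ) (U : ℕ → ℕ → ℝ) (W : Finset (List Stp)), 1 ≤ s → 1 ≤ P → 0 ≤ K → SM Λ U →
      (∀ p v : ℕ, p ≤ s + v → U p v ≤ K * Real.exp (ε * ((p : ℝ) + v))) → PF W →
      (∀ w ∈ W, WOk s w ∧ (∀ u, u <+: w → u ≠ w → (wend s u : ℝ) < P) ∧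
        (C + (1 + δ) * Real.log P / Λ.kap ≤ lay s w ∨ C * P ≤ wvol w)) →
      ∑ w ∈ W, Λ.ww w * U (wend s w) (wvol w) ≤ η * K * Real.exp (ε * s) := by
  obtain ⟨ε, hε, h⟩ := mi_gen Λ δ hδ
  refine ⟨ε, hε, fun η hη => ?_⟩
  obtain ⟨C, hC, h'⟩ := h η hη
  exact ⟨C, hC, fun s P K U W hs hP hK hU hUb hW hw =>
    h' s P K U W (fun _ => True) hs hP hK hU (fun p v h1 _ => hUb p v h1) hW (fun _ _ _ _ => trivial) hw⟩

/-- The bound on `U` is only needed for `p ≤ P + 1`. -/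
theorem gro_minus' (Λ : Law) (δ : ℝ) (hδ : 0 < δ) : ∃ ε : ℝ, 0 < ε ∧ ∀ η : ℝ, 0 < η → ∃ C : ℝ, 0 < C ∧
    ∀ (s : ℕ) (P K : ℝ) (U : ℕ → ℕ → ℝ) (W : Finset (List Stp)), 1 ≤ s → 1 ≤ P → 0 ≤ K → SM Λ U →
      (∀ p v : ℕ, p ≤ s + v → (p : ℝ) ≤ P + 1 → U p v ≤ K * Real.exp (ε * ((p : ℝ) + v))) → PF W →
      (∀ w ∈ W, WOk s w ∧ (∀ u, u <+: w → u ≠ w → (wend s u : ℝ) < P) ∧
        (C + (1 + δ) * Real.log P / Λ.kap ≤ lay s w ∨ C * P ≤ wvol w)) →
      ∑ w ∈ W, Λ.ww w * U (wend s w) (wvol w) ≤ η * K * Real.exp (ε * s) := by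
  obtain ⟨ε, hε, h⟩ := mi_gen Λ δ hδ
  refine ⟨ε, hε, fun η hη => ?_⟩
  obtain ⟨C, hC, h'⟩ := h η hη
  refine ⟨C, hC, fun s P K U W hs hP hK hU hUb hW hw =>
    h' s P K U W (fun p => (p : ℝ) ≤ P + 1) hs hP hK hU hUb hW (fun w hwW => ?_) hw⟩
  obtain ⟨h1, h2, h3⟩ := hw w hwW
  refine wend_le_of_prefix h1 ?_ h2
  rintro rfl
  rcases h3 with h3 | h3
  · have h4 : (lay s [] : ℝ) = 0 := by simp [lay, lrun_nil, start]
    have h5 : 0 ≤ (1 + δ) * Real.log P / Λ.kap :=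
      div_nonneg (mul_nonneg (by linarith) (Real.log_nonneg hP)) Λ.kap_pos.le
    rw [h4] at h3
    linarith
  · rw [wvol_nil, Nat.cast_zero] at h3
    nlinarith

end SYS.GR
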