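import Pool.Agent.SYS.GR.Plus

/-!
# SYS-GR-Mom: moments of the perimeter and of the volume after at most `m` layers

Corollary of `gro_plus`: the constant does not depend on `m`, `s`, `K`, `U`.
-/

namespace SYS.GR

private theorem mo_mono {W V : Finset (List Stp)} (h : PF W) (hV : ∀ w ∈ V, w ∈ W) : PF V :=
  fun u hu w hw huw => h u (hV u hu) w (hV w hw) huw

/-- The mass of a prefix free set is at most the value at the start. -/
theorem mass_le (Λ : Law) (U : ℕ → ℕ → ℝ) (hU : SM Λ U) (s : ℕ) (hs : 1 ≤ s)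
    (W : Finset (List Stp)) (hW : PF W) (hok : ∀ w ∈ W, WOk s w) :
    ∑ w ∈ W, Λ.ww w * U (wend s w) (wvol w) ≤ U s 0 := by
  obtain ⟨W', _, hW', hsum⟩ := pre_dom Λ U hU s hs W hW hok (fun _ => True)
    (fun w _ => ⟨w, List.prefix_refl w, trivial⟩)
  refine hsum.trans ?_
  have h1 : W' ⊆ {[]} := by
    intro u hu
    rw [Finset.mem_singleton]
    by_contra h
    exact (hW' u hu).2.1 [] (List.nil_prefix) (Ne.symm h) trivial
  have h2 : ∀ u ∈ ({[]} : Finset (List Stp)), u ∉ W' → 0 ≤ Λ.ww u * U (wend s u) (wvol u) :=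
    fun u _ _ => mul_nonneg (Λ.ww_nonneg u) (hU.1 _ _)
  refine (Finset.sum_le_sum_of_subset_of_nonneg h1 h2).trans ?_
  rw [Finset.sum_singleton, Λ.ww_nil, one_mul, wend_nil, wvol_nil]

private theorem mo_summ (c : ℝ) (hc : 0 < c) (k : ℕ) :
    Summable fun j : ℕ => ((j : ℝ) + 1) ^ k * Real.exp (-c * j) := by
  have h1 : Summable fun n : ℕ => (n : ℝ) ^ k * Real.exp (-c) ^ n := by
    apply summable_pow_mul_geometric_of_norm_lt_one k
    rw [Real.norm_eq_abs, abs_of_pos (Real.exp_pos _)]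
    exact Real.exp_lt_one_iff.mpr (by linarith)
  have h2 := (summable_nat_add_iff 1).mpr h1
  have h3 := h2.mul_left (Real.exp c)
  refine h3.congr fun j => ?_
  have e1 : Real.exp (-c) ^ (j + 1) = Real.exp (-c) * Real.exp (-c * j) := by
    rw [← Real.exp_nat_mul, ← Real.exp_add]
    congr 1
    push_cast
    ring
  rw [e1]
  have e2 : Real.exp c * Real.exp (-c) = 1 := by
    rw [← Real.exp_add, add_neg_cancel, Real.exp_zero]
  push_cast
  calc Real.exp c * (((j : ℝ) + 1) ^ k * (Real.exp (-c) * Real.exp (-c * j)))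
      = (Real.exp c * Real.exp (-c)) * (((j : ℝ) + 1) ^ k * Real.exp (-c * j)) := by ring
    _ = _ := by rw [e2, one_mul]

theorem gro_mom (Λ : Law) (δ : ℝ) (hδ : 0 < δ) : ∃ ε : ℝ, 0 < ε ∧ ∀ k : ℕ, ∃ C : ℝ, 0 < C ∧
    ∀ (s m : ℕ) (K : ℝ) (U : ℕ → ℕ → ℝ) (W : Finset (List Stp)), 1 ≤ s → 0 ≤ K → SM Λ U →
      (∀ p v : ℕ, p ≤ s + v → U p v ≤ K * Real.exp (ε * ((p : ℝ) + v))) → PF W →
      (∀ w ∈ W, WOk s w ∧ lay s w ≤ m) →
      ∑ w ∈ W, Λ.ww w * (((wend s w : ℝ) + wvol w) ^ k * U (wend s w) (wvol w)) ≤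
        C * (K + U s 0) * ((s : ℝ) * Real.exp ((1 + δ) * Λ.kap * (m + 1))) ^ k := by
  classical
  obtain ⟨ε, c, C₁, hε, hc, hC₁, H⟩ := gro_plus Λ δ hδ
  refine ⟨ε, hε, fun k => ?_⟩
  have hsm := mo_summ c hc k
  obtain ⟨G, hG⟩ : ∃ G : ℝ, G = ∑' j : ℕ, ((j : ℝ) + 1) ^ k * Real.exp (-c * j) := ⟨_, rfl⟩
  have hG0 : 0 ≤ G := by
    rw [hG]
    exact tsum_nonneg fun j => by positivity
  refine ⟨(1 + C₁) ^ k * (1 + C₁ * G), by positivity, ?_⟩
  intro s m K U W hs hK hU hUb hW hw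
  obtain ⟨E, hE⟩ : ∃ E : ℝ, E = Real.exp ((1 + δ) * Λ.kap * (m + 1)) := ⟨_, rfl⟩
  have hE0 : 0 < E := by rw [hE]; exact Real.exp_pos _
  rw [← hE]
  have hcE : 0 < (1 + C₁) * E := by positivity
  obtain ⟨X, hX⟩ : ∃ X : List Stp → ℕ, X = fun w => ⌊((wend s w : ℝ) + wvol w) / ((1 + C₁) * E)⌋₊ :=
    ⟨_, rfl⟩
  have hXu : ∀ w, (wend s w : ℝ) + wvol w ≤ (1 + C₁) * E * ((X w : ℝ) + 1) := by
    intro w
    have h1 := (Nat.lt_floor_add_one (((wend s w : ℝ) + wvol w) / ((1 + C₁) * E))).le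
    rw [div_le_iff₀ hcE] at h1
    rw [hX]
    linarith
  have hXl : ∀ w, (1 + C₁) * E * (X w : ℝ) ≤ (wend s w : ℝ) + wvol w := by
    intro w
    have h0 : 0 ≤ ((wend s w : ℝ) + wvol w) / ((1 + C₁) * E) := by positivity
    have h1 := Nat.floor_le h0
    rw [le_div_iff₀ hcE] at h1
    rw [hX]
    linarith
  have hU0 : 0 ≤ U s 0 := hU.1 _ _
  have hs1 : (1 : ℝ) ≤ s := by exact_mod_cast hs
  rw [← Finset.sum_filter_add_sum_filter_not W (fun w => X w < s)]
  -- small values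
  have h1 : ∑ w ∈ W with X w < s, Λ.ww w * (((wend s w : ℝ) + wvol w) ^ k * U (wend s w) (wvol w)) ≤
      ((1 + C₁) * E * s) ^ k * U s 0 := by
    have h2 : ∀ w ∈ W.filter (fun w => X w < s),
        Λ.ww w * (((wend s w : ℝ) + wvol w) ^ k * U (wend s w) (wvol w)) ≤
        ((1 + C₁) * E * s) ^ k * (Λ.ww w * U (wend s w) (wvol w)) := by
      intro w hw'
      have h3 : (X w : ℝ) + 1 ≤ s := by exact_mod_cast (Finset.mem_filter.mp hw').2
      have h4 : ((wend s w : ℝ) + wvol w) ^ k ≤ ((1 + C₁) * E * s) ^ k := by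
        refine pow_le_pow_left₀ (by positivity) ((hXu w).trans ?_) k
        exact mul_le_mul_of_nonneg_left h3 hcE.le
      have h5 : 0 ≤ Λ.ww w * U (wend s w) (wvol w) := mul_nonneg (Λ.ww_nonneg w) (hU.1 _ _)
      calc Λ.ww w * (((wend s w : ℝ) + wvol w) ^ k * U (wend s w) (wvol w))
          = ((wend s w : ℝ) + wvol w) ^ k * (Λ.ww w * U (wend s w) (wvol w)) := by ring
        _ ≤ _ := mul_le_mul_of_nonneg_right h4 h5
    refine (Finset.sum_le_sum h2).trans ?_
    rw [← Finset.mul_sum]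
    refine mul_le_mul_of_nonneg_left ?_ (by positivity)
    exact mass_le Λ U hU s hs _ (mo_mono hW fun w h => (Finset.mem_filter.mp h).1)
      fun w h => (hw w (Finset.mem_filter.mp h).1).1
  -- large values
  have h2 : ∑ w ∈ W with ¬ X w < s, Λ.ww w * (((wend s w : ℝ) + wvol w) ^ k * U (wend s w) (wvol w)) ≤
      ((1 + C₁) * E) ^ k * (C₁ * K) * G := by
    rw [← Finset.sum_fiberwise_of_maps_to (s := W.filter (fun w => ¬ X w < s))
      (t := (W.filter (fun w => ¬ X w < s)).image X) (g := X)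
      (fun w hw => Finset.mem_image_of_mem _ hw)]
    have h3 : ∀ j ∈ (W.filter (fun w => ¬ X w < s)).image X,
        ∑ w ∈ (W.filter (fun w => ¬ X w < s)) with X w = j,
          Λ.ww w * (((wend s w : ℝ) + wvol w) ^ k * U (wend s w) (wvol w)) ≤
        ((1 + C₁) * E) ^ k * (C₁ * K) * (((j : ℝ) + 1) ^ k * Real.exp (-c * j)) := by
      intro j hj
      obtain ⟨w₀, hw₀, hw₀j⟩ := Finset.mem_image.mp hj
      have hjs : s ≤ j := by
        rw [← hw₀j]
        exact not_lt.mp (Finset.mem_filter.mp hw₀).2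
      have hj1 : (1 : ℝ) ≤ j := hs1.trans (by exact_mod_cast hjs)
      have hgp := H s j K U ((W.filter (fun w => ¬ X w < s)).filter (fun w => X w = j)) hs
        (by exact_mod_cast hjs) hK hU hUb
        (mo_mono hW fun w h => (Finset.mem_filter.mp (Finset.mem_filter.mp h).1).1) (by
          intro w h
          obtain ⟨h4, h5⟩ := Finset.mem_filter.mp h
          obtain ⟨h6, h7⟩ := Finset.mem_filter.mp h4
          obtain ⟨h8, h9⟩ := hw w h6
          refine ⟨h8, ?_⟩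
          have h10 : Real.exp ((1 + δ) * Λ.kap * ((lay s w : ℝ) + 1)) ≤ E := by
            rw [hE]
            apply Real.exp_le_exp.mpr
            have h11 := Λ.kap_pos
            have h12 : ((lay s w : ℝ) + 1) ≤ m + 1 := by
              have : (lay s w : ℝ) ≤ m := by exact_mod_cast h9
              linarith
            exact mul_le_mul_of_nonneg_left h12 (by positivity)
          have h11 := hXl w
          rw [h5] at h11
          have h12 : (j : ℝ) * Real.exp ((1 + δ) * Λ.kap * ((lay s w : ℝ) + 1)) ≤ j * E :=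
            mul_le_mul_of_nonneg_left h10 (by linarith)
          by_contra hcon
          rw [not_or, not_le, not_le] at hcon
          obtain ⟨c1, c2⟩ := hcon
          have c3 : C₁ * ((j : ℝ) * Real.exp ((1 + δ) * Λ.kap * ((lay s w : ℝ) + 1))) ≤ C₁ * (j * E) :=
            mul_le_mul_of_nonneg_left h12 hC₁.le
          have c4 : (1 + C₁) * E * (j : ℝ) = j * E + C₁ * (j * E) := by ring
          linarith)
      have h4 : ∀ w ∈ (W.filter (fun w => ¬ X w < s)).filter (fun w => X w = j),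
          Λ.ww w * (((wend s w : ℝ) + wvol w) ^ k * U (wend s w) (wvol w)) ≤
          ((1 + C₁) * E * ((j : ℝ) + 1)) ^ k * (Λ.ww w * U (wend s w) (wvol w)) := by
        intro w h
        have h5 := (Finset.mem_filter.mp h).2
        have h6 := hXu w
        rw [h5] at h6
        have h7 : ((wend s w : ℝ) + wvol w) ^ k ≤ ((1 + C₁) * E * ((j : ℝ) + 1)) ^ k :=
          pow_le_pow_left₀ (by positivity) h6 k
        have h8 : 0 ≤ Λ.ww w * U (wend s w) (wvol w) := mul_nonneg (Λ.ww_nonneg w) (hU.1 _ _)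
        calc Λ.ww w * (((wend s w : ℝ) + wvol w) ^ k * U (wend s w) (wvol w))
            = ((wend s w : ℝ) + wvol w) ^ k * (Λ.ww w * U (wend s w) (wvol w)) := by ring
          _ ≤ _ := mul_le_mul_of_nonneg_right h7 h8
      refine (Finset.sum_le_sum h4).trans ?_
      rw [← Finset.mul_sum]
      calc ((1 + C₁) * E * ((j : ℝ) + 1)) ^ k * _
          ≤ ((1 + C₁) * E * ((j : ℝ) + 1)) ^ k * (C₁ * K * Real.exp (-c * j)) :=
            mul_le_mul_of_nonneg_left hgp (by positivity)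
        _ = ((1 + C₁) * E) ^ k * (C₁ * K) * (((j : ℝ) + 1) ^ k * Real.exp (-c * j)) := by
            rw [mul_pow ((1 + C₁) * E) ((j : ℝ) + 1) k]
            ring
    refine (Finset.sum_le_sum h3).trans ?_
    rw [← Finset.mul_sum]
    refine mul_le_mul_of_nonneg_left ?_ (by positivity)
    rw [hG]
    exact hsm.sum_le_tsum _ fun j _ => by positivity
  have hsE : ((1 + C₁) * E) ^ k ≤ (1 + C₁) ^ k * (s * E) ^ k := by
    rw [← mul_pow]
    refine pow_le_pow_left₀ hcE.le ?_ k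
    have : E ≤ s * E := by nlinarith
    exact mul_le_mul_of_nonneg_left this (by positivity)
  have h3 : ((1 + C₁) * E * s) ^ k * U s 0 = (1 + C₁) ^ k * (s * E) ^ k * U s 0 := by
    rw [← mul_pow]
    ring
  have h4 : ((1 + C₁) * E) ^ k * (C₁ * K) * G ≤ (1 + C₁) ^ k * (s * E) ^ k * (C₁ * K * G) := by
    calc ((1 + C₁) * E) ^ k * (C₁ * K) * G = ((1 + C₁) * E) ^ k * (C₁ * K * G) := by ring
      _ ≤ _ := mul_le_mul_of_nonneg_right hsE (by positivity)
  have hB : 0 ≤ (1 + C₁) ^ k * ((s : ℝ) * E) ^ k := by positivity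
  calc _ ≤ ((1 + C₁) * E * s) ^ k * U s 0 + ((1 + C₁) * E) ^ k * (C₁ * K) * G := add_le_add h1 h2
    _ ≤ (1 + C₁) ^ k * (s * E) ^ k * U s 0 + (1 + C₁) ^ k * (s * E) ^ k * (C₁ * K * G) := by
        rw [h3]
        exact add_le_add le_rfl h4
    _ = (1 + C₁) ^ k * (s * E) ^ k * (U s 0 + C₁ * G * K) := by ring
    _ ≤ (1 + C₁) ^ k * (s * E) ^ k * ((1 + C₁ * G) * (K + U s 0)) := by
        refine mul_le_mul_of_nonneg_left ?_ hB
        have hCG : 0 ≤ C₁ * G := by positivity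
        nlinarith [mul_nonneg hCG hU0]
    _ = _ := by ring

end SYS.GR
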