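import Pool.Agent.SYS.GR.PStep

/-!
# SYS-GR-PDead: a word with a too large perimeter is dead

An invariant of the machine `YS`: the perimeter of a live word is controlled by the number of layers.
-/

namespace SYS.GR

private theorem y_inv (m m' b : ℝ) (hm : 1 ≤ m) (hm' : m < m') (s : ℕ) (hs : 1 ≤ s) (hb : (s : ℝ) ≤ b)
    (w : List Stp) (hw : WOk s w) :
    ∀ (l : LS) (p0 : ℕ), rx (YS.step m m' b) (.live (start s) s) w = .live l p0 →
      l = lrun (start s) w ∧ max (p0 : ℝ) b ≤ b * m' ^ l.r ∧ MM m l < m' * max (p0 : ℝ) b := by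
  have hs' : (1 : ℝ) ≤ s := by exact_mod_cast hs
  have hb0 : 0 < b := by linarith
  have hm'0 : 1 < m' := lt_of_le_of_lt hm hm'
  induction w using List.reverseRecOn with
  | nil =>
    intro l p0 h
    rw [rx_nil] at h
    obtain ⟨rfl, rfl⟩ := YS.live.inj h
    refine ⟨rfl, ?_, ?_⟩
    · rw [max_eq_right hb]
      show b ≤ b * m' ^ 0
      rw [pow_zero, mul_one]
    · rw [mm_be_zero m (start s) rfl, max_eq_right hb]
      have e : ((start s).p : ℝ) = s := by
        show ((s + 0 : ℕ) : ℝ) = s
        rw [Nat.add_zero]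
      rw [e]
      have h1 : m * s ≤ m * b := mul_le_mul_of_nonneg_left hb (by linarith)
      have h2 : m * b < m' * b := mul_lt_mul_of_pos_right hm' hb0
      linarith
  | append_singleton w t ih =>
    intro l p0 h
    obtain ⟨hw1, hw2⟩ := (WOk_append s w [t]).mp hw
    have hok : t.Ok (wend s w) := hw2.1
    rw [rx_append, rx_cons, rx_nil] at h
    rcases hst : rx (YS.step m m' b) (.live (start s) s) w with _ | ⟨l1, p1⟩
    · rw [hst] at h
      simp [YS.step] at h
    · rw [hst] at h
      obtain ⟨e1, e2, e3⟩ := ih hw1 l1 p1 hst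
      have hp1 : l1.p = wend s w := by
        rw [e1]
        exact lrun_p (start s) w hw1
      have hok1 : t.Ok l1.p := by rw [hp1]; exact hok
      have elr : lrun (start s) (w ++ [t]) = l1.step t := by
        rw [lrun_append, lrun_cons, lrun_nil, ← e1]
      rw [elr]
      unfold YS.step at h
      simp only at h
      split_ifs at h with h1 h2
      · obtain ⟨rfl, rfl⟩ := YS.live.inj h
        refine ⟨rfl, ?_, not_le.mp h2⟩
        rw [h1]
        exact e2
      · obtain ⟨rfl, rfl⟩ := YS.live.inj h
        rcases step_r l1 t with h3 | ⟨h3, h4⟩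
        · exact absurd h3 h1
        · have h5 := step_end_p l1 t hok1 h1
          have h6 : ((l1.step t).p : ℝ) + 2 ≤ l1.p := by exact_mod_cast h5
          have h7 := p_le_mm m hm l1
          have hpow : 1 ≤ m' ^ (l1.r + 1) := one_le_pow₀ hm'0.le
          have h8 : m' * max (p1 : ℝ) b ≤ m' * (b * m' ^ l1.r) :=
            mul_le_mul_of_nonneg_left e2 (by linarith)
          have h9 : m' * (b * m' ^ l1.r) = b * m' ^ (l1.r + 1) := by ring
          refine ⟨rfl, ?_, ?_⟩
          · rw [h3]
            apply max_le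
            · linarith
            · have := mul_le_mul_of_nonneg_left hpow hb0.le
              linarith
          · rw [mm_be_zero m _ h4]
            have h10 : (0 : ℝ) < max ((l1.step t).p : ℝ) b := lt_of_lt_of_le hb0 (le_max_right _ _)
            have h11 : m * ((l1.step t).p : ℝ) ≤ m * max ((l1.step t).p : ℝ) b :=
              mul_le_mul_of_nonneg_left (le_max_left _ _) (by linarith)
            have h12 := mul_lt_mul_of_pos_right hm' h10
            linarith

private theorem y_al_aux (m m' b : ℝ) (w : List Stp) : ∀ (l : LS) (p0 : ℕ), WOk l.p w →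
    (∀ u, u <+: w → u ≠ w → rx (YS.step m m' b) (.live l p0) u ≠ .dead) →
    Al (YS.step m m' b) YS.D (.live l p0) w := by
  induction w with
  | nil => intro l p0 _ _; trivial
  | cons t w ih =>
    intro l p0 hw hl
    obtain ⟨hw1, hw2⟩ := hw
    refine ⟨hw1, ?_⟩
    by_cases hw0 : w = []
    · rw [hw0]; trivial
    · have h1 : YS.step m m' b (.live l p0) t ≠ .dead := by
        have := hl [t] ⟨w, rfl⟩ (by
          intro h
          exact hw0 (List.cons.inj h).2.symm)
        rwa [rx_cons, rx_nil] at this
      have h2 : ∃ p0', YS.step m m' b (.live l p0) t = .live (l.step t) p0' := by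
        unfold YS.step at h1 ⊢
        simp only at h1 ⊢
        by_cases h3 : (l.step t).r = l.r
        · rw [if_pos h3] at h1 ⊢
          by_cases h4 : m' * max (p0 : ℝ) b ≤ MM m (l.step t)
          · rw [if_pos h4] at h1
            exact absurd rfl h1
          · rw [if_neg h4]
            exact ⟨_, rfl⟩
        · rw [if_neg h3]
          exact ⟨_, rfl⟩
      obtain ⟨p0', h2⟩ := h2
      rw [h2]
      apply ih
      · rw [step_p l t hw1]
        exact hw2
      · intro u hu hne
        have := hl (t :: u) (by
          obtain ⟨v, rfl⟩ := hu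
          exact ⟨v, rfl⟩) (by
          intro h
          exact hne (List.cons.inj h).2)
        rwa [rx_cons, h2] at this

theorem p_lt_of_live (m m' b : ℝ) (hm : 1 ≤ m) (hm' : m < m') (s : ℕ) (hs : 1 ≤ s) (hb : (s : ℝ) ≤ b)
    (w : List Stp) (hw : WOk s w) (hl : rx (YS.step m m' b) (.live (start s) s) w ≠ .dead) :
    (wend s w : ℝ) < b * m' ^ (lay s w + 1) := by
  rcases hst : rx (YS.step m m' b) (.live (start s) s) w with _ | ⟨l, p0⟩
  · exact absurd hst hl
  · obtain ⟨e1, e2, e3⟩ := y_inv m m' b hm hm' s hs hb w hw l p0 hst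
    have hp : l.p = wend s w := by
      rw [e1]
      exact lrun_p (start s) w hw
    have hr : l.r = lay s w := by
      rw [e1]
      rfl
    have h1 := p_le_mm m hm l
    rw [hp] at h1
    rw [← hr]
    have h2 : m' * max (p0 : ℝ) b ≤ m' * (b * m' ^ l.r) :=
      mul_le_mul_of_nonneg_left e2 (by linarith)
    have h3 : m' * (b * m' ^ l.r) = b * m' ^ (l.r + 1) := by ring
    linarith

theorem y_al (m m' b : ℝ) (s : ℕ) (w : List Stp) (hw : WOk s w)
    (hl : ∀ u, u <+: w → u ≠ w → rx (YS.step m m' b) (.live (start s) s) u ≠ .dead) :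
    Al (YS.step m m' b) YS.D (.live (start s) s) w := by
  exact y_al_aux m m' b w (start s) s hw hl

end SYS.GR
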