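import Pool.Agent.SYS.GR.Tilt
import Pool.Agent.SYS.GR.LSt

/-!
# SYS-GR-PStep: the machine and the potential for fast growth

State: `live l p0`, `p0` = perimeter at the start of the current layer; dead when `M ≥ m' max(p0, b)`.
The potential is the sum of an exponential of `M` and of an exponential of the perimeter.
-/

namespace SYS.GR

inductive YS : Type
  | dead : YS
  | live : LS → ℕ → YS

open Classical in
noncomputable def YS.step (m m' b : ℝ) : YS → Stp → YS
  | .dead, _ => .dead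
  | .live l p0, s =>
    if (l.step s).r = l.r then
      if m' * max (p0 : ℝ) b ≤ MM m (l.step s) then .dead else .live (l.step s) p0
    else .live (l.step s) (l.step s).p

/-- steps which are allowed -/
def YS.D : YS → Stp → Prop
  | .dead, _ => False
  | .live l _, s => s.Ok l.p

/-- the potential -/
noncomputable def Psi (m m' θ θ1 B b : ℝ) : YS → ℝ
  | .dead => 1
  | .live l p0 => Real.exp (θ * (MM m l - m' * max (p0 : ℝ) b)) +
      B * Real.exp (-(θ * (m' - m) / 2) * b) * Real.exp (-θ1 * l.p)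

/-- the value after one step -/
private theorem ps_val (m m' θ θ1 B b : ℝ) (hm : 1 ≤ m) (hm' : m < m') (hθ : 0 ≤ θ)
    (hθ1' : θ1 ≤ θ * (m' - m) / 2) (hB0 : 0 ≤ B) (hb : 0 ≤ b) (l : LS) (p0 : ℕ) (s : Stp) (hs : s.Ok l.p) :
    Psi m m' θ θ1 B b (YS.step m m' b (.live l p0) s) ≤
      Real.exp (θ * (MM m l - m' * max (p0 : ℝ) b)) * Real.exp (θ * (dP s + (m - 1) * dA s)) +
        (B + 1) * Real.exp (-(θ * (m' - m) / 2) * b) * Real.exp (-θ1 * l.p) * Real.exp (-θ1 * dP s) := by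
  have hp : ((l.step s).p : ℝ) = l.p + dP s := by rw [step_p l s hs, nx_cast hs]
  have e1 : Real.exp (-θ1 * l.p) * Real.exp (-θ1 * dP s) = Real.exp (-θ1 * ((l.step s).p : ℝ)) := by
    rw [← Real.exp_add, hp]
    ring_nf
  have e2 : (B + 1) * Real.exp (-(θ * (m' - m) / 2) * b) * Real.exp (-θ1 * l.p) * Real.exp (-θ1 * dP s) =
      (B + 1) * (Real.exp (-(θ * (m' - m) / 2) * b) * Real.exp (-θ1 * ((l.step s).p : ℝ))) := by
    rw [← e1]
    ring
  have e3 : Real.exp (θ * (MM m l - m' * max (p0 : ℝ) b)) * Real.exp (θ * (dP s + (m - 1) * dA s)) =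
      Real.exp (θ * (MM m l + dP s + (m - 1) * dA s - m' * max (p0 : ℝ) b)) := by
    rw [← Real.exp_add]
    ring_nf
  rw [e2, e3]
  set G := Real.exp (-(θ * (m' - m) / 2) * b) * Real.exp (-θ1 * ((l.step s).p : ℝ)) with hG
  have hG0 : 0 ≤ G := mul_nonneg (Real.exp_pos _).le (Real.exp_pos _).le
  by_cases hr : (l.step s).r = l.r
  · have hM := mm_up m hm l s hs hr
    have h1 : Real.exp (θ * (MM m (l.step s) - m' * max (p0 : ℝ) b)) ≤
        Real.exp (θ * (MM m l + dP s + (m - 1) * dA s - m' * max (p0 : ℝ) b)) :=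
      Real.exp_le_exp.2 (mul_le_mul_of_nonneg_left (by linarith) hθ)
    by_cases hd : m' * max (p0 : ℝ) b ≤ MM m (l.step s)
    · have h2 : YS.step m m' b (.live l p0) s = .dead := by
        show (if (l.step s).r = l.r then
          if m' * max (p0 : ℝ) b ≤ MM m (l.step s) then YS.dead else .live (l.step s) p0
          else .live (l.step s) (l.step s).p) = _
        rw [if_pos hr, if_pos hd]
      rw [h2]
      show (1 : ℝ) ≤ _
      have h3 : (1 : ℝ) ≤ Real.exp (θ * (MM m (l.step s) - m' * max (p0 : ℝ) b)) :=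
        Real.one_le_exp (mul_nonneg hθ (by linarith))
      have h4 : 0 ≤ (B + 1) * G := mul_nonneg (by linarith) hG0
      linarith
    · have h2 : YS.step m m' b (.live l p0) s = .live (l.step s) p0 := by
        show (if (l.step s).r = l.r then
          if m' * max (p0 : ℝ) b ≤ MM m (l.step s) then YS.dead else .live (l.step s) p0
          else .live (l.step s) (l.step s).p) = _
        rw [if_pos hr, if_neg hd]
      rw [h2]
      show Real.exp (θ * (MM m (l.step s) - m' * max (p0 : ℝ) b)) +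
        B * Real.exp (-(θ * (m' - m) / 2) * b) * Real.exp (-θ1 * ((l.step s).p : ℝ)) ≤ _
      have h3 : B * Real.exp (-(θ * (m' - m) / 2) * b) * Real.exp (-θ1 * ((l.step s).p : ℝ)) = B * G := by
        rw [hG]
        ring
      rw [h3]
      nlinarith
  · have h2 : YS.step m m' b (.live l p0) s = .live (l.step s) (l.step s).p := by
      show (if (l.step s).r = l.r then
        if m' * max (p0 : ℝ) b ≤ MM m (l.step s) then YS.dead else .live (l.step s) p0
        else .live (l.step s) (l.step s).p) = _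
      rw [if_neg hr]
    rw [h2]
    show Real.exp (θ * (MM m (l.step s) - m' * max ((l.step s).p : ℝ) b)) +
      B * Real.exp (-(θ * (m' - m) / 2) * b) * Real.exp (-θ1 * ((l.step s).p : ℝ)) ≤ _
    have h3 : B * Real.exp (-(θ * (m' - m) / 2) * b) * Real.exp (-θ1 * ((l.step s).p : ℝ)) = B * G := by
      rw [hG]
      ring
    have hbe : (l.step s).be = 0 := by
      rcases step_r l s with h | h
      · exact absurd h hr
      · exact h.2
    have hp0 : (0 : ℝ) ≤ ((l.step s).p : ℝ) := Nat.cast_nonneg _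
    have h4 : Real.exp (θ * (MM m (l.step s) - m' * max ((l.step s).p : ℝ) b)) ≤ G := by
      rw [hG, ← Real.exp_add, mm_be_zero m _ hbe]
      apply Real.exp_le_exp.2
      have h5 : ((l.step s).p : ℝ) ≤ max ((l.step s).p : ℝ) b := le_max_left _ _
      have h6 : b ≤ max ((l.step s).p : ℝ) b := le_max_right _ _
      set Z := max ((l.step s).p : ℝ) b
      set q := ((l.step s).p : ℝ)
      have h7 : m * q - m' * Z ≤ -((m' - m) / 2 * b) - (m' - m) / 2 * q := by nlinarith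
      have h8 : θ * (m * q - m' * Z) ≤ θ * (-((m' - m) / 2 * b) - (m' - m) / 2 * q) :=
        mul_le_mul_of_nonneg_left h7 hθ
      have h9 : θ1 * q ≤ θ * (m' - m) / 2 * q := mul_le_mul_of_nonneg_right hθ1' hp0
      nlinarith
    have h5 : 0 ≤ Real.exp (θ * (MM m l + dP s + (m - 1) * dA s - m' * max (p0 : ℝ) b)) := (Real.exp_pos _).le
    rw [h3]
    nlinarith

theorem psi_step (Λ : Law) (m m' θ θ1 B b ε : ℝ) (hm : 1 ≤ m) (hm' : m < m') (hθ : 0 ≤ θ) (hθ1 : 0 ≤ θ1)
    (hθ1' : θ1 ≤ θ * (m' - m) / 2) (hB0 : 0 ≤ B) (hb : 0 ≤ b)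
    (g0 : Λ.Gr (fun s => Real.exp (θ * (dP s + (m - 1) * dA s) + ε * (dP s + dV s))))
    (h0 : Λ.E (fun s => Real.exp (θ * (dP s + (m - 1) * dA s) + ε * (dP s + dV s))) ≤ 1)
    (g1 : Λ.Gr (fun s => Real.exp (-θ1 * dP s + ε * (dP s + dV s))))
    (h1 : (B + 1) * Λ.E (fun s => Real.exp (-θ1 * dP s + ε * (dP s + dV s))) ≤ B)
    (x : YS) (F : Finset Stp) (hF : ∀ s ∈ F, YS.D x s) :
    ∑ s ∈ F, Λ.w s * Real.exp (ε * (dP s + dV s)) * Psi m m' θ θ1 B b (YS.step m m' b x s) ≤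
      Psi m m' θ θ1 B b x := by
  cases x with
  | dead =>
    have hF' : F = ∅ := by
      rcases F.eq_empty_or_nonempty with h | ⟨s, hs⟩
      · exact h
      · exact absurd (hF s hs) (fun h => h)
    rw [hF', Finset.sum_empty]
    exact zero_le_one
  | live l p0 =>
    set K1 := Real.exp (θ * (MM m l - m' * max (p0 : ℝ) b)) with hK1
    set G := Real.exp (-(θ * (m' - m) / 2) * b) * Real.exp (-θ1 * (l.p : ℝ)) with hG
    have hG0 : 0 ≤ G := mul_nonneg (Real.exp_pos _).le (Real.exp_pos _).le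
    have t1 : ∀ s ∈ F, Λ.w s * Real.exp (ε * (dP s + dV s)) * Psi m m' θ θ1 B b (YS.step m m' b (.live l p0) s) ≤
        K1 * (Λ.w s * Real.exp (θ * (dP s + (m - 1) * dA s) + ε * (dP s + dV s))) +
          (B + 1) * G * (Λ.w s * Real.exp (-θ1 * dP s + ε * (dP s + dV s))) := by
      intro s hs
      have h2 := ps_val m m' θ θ1 B b hm hm' hθ hθ1' hB0 hb l p0 s (hF s hs)
      have h3 : 0 ≤ Λ.w s * Real.exp (ε * (dP s + dV s)) := mul_nonneg (Λ.w_nonneg s) (Real.exp_pos _).le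
      refine (mul_le_mul_of_nonneg_left h2 h3).trans (le_of_eq ?_)
      rw [Real.exp_add (θ * (dP s + (m - 1) * dA s)), Real.exp_add (-θ1 * dP s), hK1, hG]
      ring
    refine (Finset.sum_le_sum t1).trans ?_
    rw [Finset.sum_add_distrib, ← Finset.mul_sum, ← Finset.mul_sum]
    have t2 := fin_le_E Λ g0 (fun s => (Real.exp_pos _).le) F
    have t3 := fin_le_E Λ g1 (fun s => (Real.exp_pos _).le) F
    have t4 : K1 * ∑ s ∈ F, Λ.w s * Real.exp (θ * (dP s + (m - 1) * dA s) + ε * (dP s + dV s)) ≤ K1 * 1 :=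
      mul_le_mul_of_nonneg_left (t2.trans h0) (Real.exp_pos _).le
    have t5 : (B + 1) * G * ∑ s ∈ F, Λ.w s * Real.exp (-θ1 * dP s + ε * (dP s + dV s)) ≤ B * G := by
      calc (B + 1) * G * ∑ s ∈ F, Λ.w s * Real.exp (-θ1 * dP s + ε * (dP s + dV s))
          ≤ (B + 1) * G * Λ.E (fun s => Real.exp (-θ1 * dP s + ε * (dP s + dV s))) :=
            mul_le_mul_of_nonneg_left t3 (mul_nonneg (by linarith) hG0)
        _ = ((B + 1) * Λ.E (fun s => Real.exp (-θ1 * dP s + ε * (dP s + dV s)))) * G := by ring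
        _ ≤ B * G := mul_le_mul_of_nonneg_right h1 hG0
    show _ ≤ Real.exp (θ * (MM m l - m' * max (p0 : ℝ) b)) +
      B * Real.exp (-(θ * (m' - m) / 2) * b) * Real.exp (-θ1 * l.p)
    have e1 : B * Real.exp (-(θ * (m' - m) / 2) * b) * Real.exp (-θ1 * l.p) = B * G := by
      rw [hG]
      ring
    rw [e1, ← hK1]
    linarith

theorem psi_ex (Λ : Law) (m m' : ℝ) (h1 : 1 + Λ.d / Λ.a < m) (h2 : m < m') :
    ∃ ε₀ c : ℝ, 0 < ε₀ ∧ 0 < c ∧ ∀ ε : ℝ, 0 ≤ ε → ε ≤ ε₀ → ∃ C : ℝ, 0 < C ∧ ∀ b : ℝ, 0 ≤ b →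
      ∃ Ψ : YS → ℝ, (∀ x, 0 ≤ Ψ x) ∧ Ψ .dead = 1 ∧ (∀ s : ℕ, Ψ (.live (start s) s) ≤ C * Real.exp (-c * b)) ∧
        ∀ (x : YS) (F : Finset Stp), (∀ s ∈ F, YS.D x s) →
          ∑ s ∈ F, Λ.w s * Real.exp (ε * (dP s + dV s)) * Ψ (YS.step m m' b x s) ≤ Ψ x := by
  obtain ⟨θ, c₀, hθ, hc₀, ht⟩ := tilt_up Λ m h1
  obtain ⟨θ', c₀', hθ', hc₀', ht'⟩ := tilt_P Λ
  have hda : 0 < Λ.d / Λ.a := div_pos Λ.d_pos Λ.a_pos
  have hm1 : 1 ≤ m := by linarith
  have hmm : 0 < m' - m := by linarith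
  have hc : 0 < θ * (m' - m) / 2 := by positivity
  set c := θ * (m' - m) / 2 with hcdef
  set θ1 := min θ' c with hθ1def
  have hθ1 : 0 < θ1 := lt_min hθ' hc
  refine ⟨min (c₀ * θ) (c₀' * θ1), c, lt_min (by positivity) (by positivity), hc, ?_⟩
  intro ε hε hε1
  obtain ⟨g0, l0⟩ := ht θ ε hθ le_rfl hε (hε1.trans (min_le_left _ _))
  obtain ⟨g1, l1⟩ := ht' θ1 ε hθ1 (min_le_left _ _) hε (hε1.trans (min_le_right _ _))
  have l2 : 0 ≤ Λ.E (fun s => Real.exp (-θ1 * dP s + ε * (dP s + dV s))) := by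
    have := fin_le_E Λ g1 (fun s => (Real.exp_pos _).le) ∅
    rwa [Finset.sum_empty] at this
  set E1 := Λ.E (fun s => Real.exp (-θ1 * dP s + ε * (dP s + dV s))) with hE1
  have hE2 : 0 < 1 - E1 := by linarith
  have hB : 0 ≤ E1 / (1 - E1) := div_nonneg l2 hE2.le
  have hB1 : (E1 / (1 - E1) + 1) * E1 ≤ E1 / (1 - E1) := by
    apply le_of_eq
    field_simp
    ring
  set B := E1 / (1 - E1) with hBdef
  refine ⟨1 + B, by linarith, ?_⟩
  intro b hb
  refine ⟨Psi m m' θ θ1 B b, ?_, rfl, ?_, ?_⟩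
  · intro x
    cases x with
    | dead => exact zero_le_one
    | live l p0 =>
      show 0 ≤ Real.exp (θ * (MM m l - m' * max (p0 : ℝ) b)) +
        B * Real.exp (-(θ * (m' - m) / 2) * b) * Real.exp (-θ1 * l.p)
      positivity
  · intro s
    show Real.exp (θ * (MM m (start s) - m' * max (s : ℝ) b)) +
      B * Real.exp (-(θ * (m' - m) / 2) * b) * Real.exp (-θ1 * ((start s).p : ℝ)) ≤ _
    have hM : MM m (start s) = m * s := by
      have h3 : (start s).be = 0 := rfl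
      rw [mm_be_zero m _ h3]
      rfl
    have hs0 : (0 : ℝ) ≤ s := Nat.cast_nonneg s
    have h3 : Real.exp (θ * (MM m (start s) - m' * max (s : ℝ) b)) ≤ Real.exp (-c * b) := by
      apply Real.exp_le_exp.2
      rw [hM, hcdef]
      have h5 : (s : ℝ) ≤ max (s : ℝ) b := le_max_left _ _
      have h6 : b ≤ max (s : ℝ) b := le_max_right _ _
      set Z := max (s : ℝ) b
      have h7 : m * s - m' * Z ≤ -((m' - m) / 2 * b) := by nlinarith
      have h8 := mul_le_mul_of_nonneg_left h7 hθ.le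
      nlinarith
    have h4 : Real.exp (-θ1 * ((start s).p : ℝ)) ≤ 1 := by
      apply Real.exp_le_one_iff.2
      have : (0 : ℝ) ≤ ((start s).p : ℝ) := Nat.cast_nonneg _
      nlinarith
    have h5 : B * Real.exp (-(θ * (m' - m) / 2) * b) * Real.exp (-θ1 * ((start s).p : ℝ)) ≤
        B * Real.exp (-c * b) * 1 :=
      mul_le_mul_of_nonneg_left h4 (mul_nonneg hB (Real.exp_pos _).le)
    nlinarith
  · intro x F hF
    exact psi_step Λ m m' θ θ1 B b ε hm1 h2 hθ.le hθ1.le (min_le_right _ _) hB hb g0 l0.le g1 hB1 x F hF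

end SYS.GR
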