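import Pool.Agent.SYS.GR.Mach

/-!
# SYS-GR-PhiA: one step of the potential, first phase
-/

namespace SYS.GR

private theorem phiA_pt (m m' θ K θ2 K2 B θ1 B2 B3 g : ℝ) (p1 R0 : ℕ)
    (hg : 0 ≤ g) (hθ1 : 0 ≤ θ1) (hB2p : 0 ≤ B2) (hB3p : 0 ≤ B3)
    (hB2 : ∀ p : ℕ, p1 ≤ p → Real.exp (θ * (m' * p)) * ((1 + K) * Real.exp (-θ * (m * p))) +
      B * ((1 + K2) * Real.exp (-θ2 * (m * p))) ≤ B2 * Real.exp (-θ1 * p))
    (hB3 : Real.exp (θ1 * p1) ≤ B3) (l : LS) (s : Stp) (hs : s.Ok l.p) :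
    Phi m m' θ K θ2 K2 B θ1 B2 B3 g R0 (XS.step m' p1 R0 (.live l none) s) ≤
      Real.exp g * Real.exp (-θ1 * dP s) * Phi m m' θ K θ2 K2 B θ1 B2 B3 g R0 (.live l none) := by
  have hp : (((l.step s).p : ℕ) : ℝ) = l.p + dP s := by
    rw [step_p l s hs, nx_cast hs]
  have hE : Real.exp (-θ1 * dP s) * Real.exp (-θ1 * l.p) = Real.exp (-θ1 * (l.step s).p) := by
    rw [hp, ← Real.exp_add]
    congr 1
    ring
  have hX : Phi m m' θ K θ2 K2 B θ1 B2 B3 g R0 (.live l none) =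
      Real.exp (-θ1 * l.p) * (B2 + B3 * Real.exp (g * ((l.r : ℝ) - R0))) := rfl
  have hR : Real.exp g * Real.exp (-θ1 * dP s) * Phi m m' θ K θ2 K2 B θ1 B2 B3 g R0 (.live l none) =
      Real.exp (-θ1 * (l.step s).p) * (Real.exp g * (B2 + B3 * Real.exp (g * ((l.r : ℝ) - R0)))) := by
    rw [hX, ← hE]
    ring
  rw [hR]
  have hg1 : 1 ≤ Real.exp g := Real.one_le_exp hg
  have hP : 0 < Real.exp (-θ1 * (l.step s).p) := Real.exp_pos _
  have hr0 : 0 < Real.exp (g * ((l.r : ℝ) - R0)) := Real.exp_pos _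
  have hB : B2 + B3 * Real.exp (g * ((l.r : ℝ) - R0)) ≤
      Real.exp g * (B2 + B3 * Real.exp (g * ((l.r : ℝ) - R0))) := by
    refine le_mul_of_one_le_left ?_ hg1
    positivity
  have hstep : XS.step m' p1 R0 (.live l none) s =
      if (l.step s).r = l.r then .live (l.step s) none else
      if p1 ≤ (l.step s).p then .live (l.step s) (some (l.step s).p) else
        if R0 ≤ (l.step s).r then .dead else .live (l.step s) none := rfl
  rw [hstep]
  by_cases h1 : (l.step s).r = l.r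
  · rw [if_pos h1]
    have e1 : Phi m m' θ K θ2 K2 B θ1 B2 B3 g R0 (.live (l.step s) none) =
        Real.exp (-θ1 * (l.step s).p) * (B2 + B3 * Real.exp (g * (((l.step s).r : ℝ) - R0))) := rfl
    rw [e1, h1]
    exact mul_le_mul_of_nonneg_left hB hP.le
  · rw [if_neg h1]
    obtain ⟨hr', hbe⟩ : (l.step s).r = l.r + 1 ∧ (l.step s).be = 0 := by
      rcases step_r l s with h | h
      · exact absurd h h1
      · exact h
    have hgr : Real.exp (g * (((l.step s).r : ℝ) - R0)) = Real.exp g * Real.exp (g * ((l.r : ℝ) - R0)) := by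
      rw [hr', ← Real.exp_add]
      congr 1
      push_cast
      ring
    by_cases h2 : p1 ≤ (l.step s).p
    · rw [if_pos h2]
      have e1 : Phi m m' θ K θ2 K2 B θ1 B2 B3 g R0 (.live (l.step s) (some (l.step s).p)) =
          Real.exp (θ * (m' * (l.step s).p)) * hh m θ K (l.step s) + B * hh m θ2 K2 (l.step s) := rfl
      have e2 : ∀ θ' K' : ℝ, hh m θ' K' (l.step s) = (1 + K') * Real.exp (-θ' * (m * (l.step s).p)) := by
        intro θ' K'
        unfold hh
        rw [mm_be_zero m (l.step s) hbe]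
        ring
      rw [e1, e2, e2]
      refine (hB2 _ h2).trans ?_
      rw [mul_comm B2]
      refine mul_le_mul_of_nonneg_left ?_ hP.le
      refine le_trans ?_ hB
      have : 0 ≤ B3 * Real.exp (g * ((l.r : ℝ) - R0)) := by positivity
      linarith
    · rw [if_neg h2]
      by_cases h3 : R0 ≤ (l.step s).r
      · rw [if_pos h3]
        have e1 : Phi m m' θ K θ2 K2 B θ1 B2 B3 g R0 .dead = 1 := rfl
        rw [e1]
        have h4 : (1 : ℝ) ≤ Real.exp g * Real.exp (g * ((l.r : ℝ) - R0)) := by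
          rw [← hgr]
          apply Real.one_le_exp
          have : (R0 : ℝ) ≤ ((l.step s).r : ℝ) := by exact_mod_cast h3
          nlinarith
        have h5 : (1 : ℝ) ≤ Real.exp (-θ1 * (l.step s).p) * B3 := by
          have h6 : (((l.step s).p : ℕ) : ℝ) ≤ p1 := by
            have : (l.step s).p ≤ p1 := by omega
            exact_mod_cast this
          have h7 : Real.exp (-θ1 * p1) ≤ Real.exp (-θ1 * (l.step s).p) := by
            apply Real.exp_le_exp.mpr
            nlinarith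
          have h8 : Real.exp (-θ1 * p1) * Real.exp (θ1 * p1) = 1 := by
            rw [← Real.exp_add]
            simp
          calc (1 : ℝ) = Real.exp (-θ1 * p1) * Real.exp (θ1 * p1) := h8.symm
            _ ≤ Real.exp (-θ1 * (l.step s).p) * B3 :=
              mul_le_mul h7 hB3 (Real.exp_pos _).le hP.le
        have h9 : (1 : ℝ) ≤ Real.exp (-θ1 * (l.step s).p) * B3 *
            (Real.exp g * Real.exp (g * ((l.r : ℝ) - R0))) := one_le_mul_of_one_le_of_one_le h5 h4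
        refine h9.trans ?_
        have h10 : 0 ≤ Real.exp (-θ1 * (l.step s).p) * (Real.exp g * B2) := by positivity
        nlinarith
      · rw [if_neg h3]
        have e1 : Phi m m' θ K θ2 K2 B θ1 B2 B3 g R0 (.live (l.step s) none) =
            Real.exp (-θ1 * (l.step s).p) * (B2 + B3 * Real.exp (g * (((l.step s).r : ℝ) - R0))) := rfl
        rw [e1, hgr]
        refine mul_le_mul_of_nonneg_left ?_ hP.le
        have : B2 ≤ Real.exp g * B2 := le_mul_of_one_le_left hB2p hg1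
        linarith

theorem phiA (Λ : Law) (m m' θ K θ2 K2 B θ1 B2 B3 g ε : ℝ) (p1 R0 : ℕ)
    (hg : 0 ≤ g) (hθ1 : 0 ≤ θ1) (hB2p : 0 ≤ B2) (hB3p : 0 ≤ B3)
    (g1 : Λ.Gr (fun s => Real.exp (-θ1 * dP s + ε * (dP s + dV s))))
    (h1 : Real.exp g * Λ.E (fun s => Real.exp (-θ1 * dP s + ε * (dP s + dV s))) ≤ 1)
    (hB2 : ∀ p : ℕ, p1 ≤ p → Real.exp (θ * (m' * p)) * ((1 + K) * Real.exp (-θ * (m * p))) +
      B * ((1 + K2) * Real.exp (-θ2 * (m * p))) ≤ B2 * Real.exp (-θ1 * p))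
    (hB3 : Real.exp (θ1 * p1) ≤ B3)
    (l : LS) (F : Finset Stp) (hF : ∀ s ∈ F, s.Ok l.p) :
    ∑ s ∈ F, Λ.w s * Real.exp (ε * (dP s + dV s)) *
      Phi m m' θ K θ2 K2 B θ1 B2 B3 g R0 (XS.step m' p1 R0 (.live l none) s) ≤
      Phi m m' θ K θ2 K2 B θ1 B2 B3 g R0 (.live l none) := by
  have hpt := fun s hs => phiA_pt m m' θ K θ2 K2 B θ1 B2 B3 g p1 R0 hg hθ1 hB2p hB3p hB2 hB3 l s (hF s hs)
  set P0 := Phi m m' θ K θ2 K2 B θ1 B2 B3 g R0 (.live l none) with hP0
  have hP0n : 0 ≤ P0 := by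
    have hX : P0 = Real.exp (-θ1 * l.p) * (B2 + B3 * Real.exp (g * ((l.r : ℝ) - R0))) := rfl
    rw [hX]
    positivity
  have h3 : ∑ s ∈ F, Λ.w s * Real.exp (-θ1 * dP s + ε * (dP s + dV s)) ≤
      Λ.E (fun s => Real.exp (-θ1 * dP s + ε * (dP s + dV s))) :=
    fin_le_E Λ g1 (fun s => (Real.exp_pos _).le) F
  calc ∑ s ∈ F, Λ.w s * Real.exp (ε * (dP s + dV s)) *
      Phi m m' θ K θ2 K2 B θ1 B2 B3 g R0 (XS.step m' p1 R0 (.live l none) s)
      ≤ ∑ s ∈ F, Λ.w s * Real.exp (-θ1 * dP s + ε * (dP s + dV s)) * (Real.exp g * P0) := by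
        refine Finset.sum_le_sum fun s hs => ?_
        have h4 := mul_le_mul_of_nonneg_left (hpt s hs)
          (mul_nonneg (Λ.w_nonneg s) (Real.exp_pos (ε * (dP s + dV s))).le)
        refine h4.trans (le_of_eq ?_)
        rw [Real.exp_add (-θ1 * dP s)]
        ring
    _ = (∑ s ∈ F, Λ.w s * Real.exp (-θ1 * dP s + ε * (dP s + dV s))) * (Real.exp g * P0) := by
        rw [Finset.sum_mul]
    _ ≤ Λ.E (fun s => Real.exp (-θ1 * dP s + ε * (dP s + dV s))) * (Real.exp g * P0) :=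
        mul_le_mul_of_nonneg_right h3 (mul_nonneg (Real.exp_pos g).le hP0n)
    _ = (Real.exp g * Λ.E (fun s => Real.exp (-θ1 * dP s + ε * (dP s + dV s)))) * P0 := by ring
    _ ≤ 1 * P0 := mul_le_mul_of_nonneg_right h1 hP0n
    _ = P0 := one_mul _

end SYS.GR
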