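import Pool.Agent.SYS.GR.Minus
import Pool.Agent.SYS.GR.PDead

/-!
# SYS-GR-Plus: GRO+, the layers grow at most at rate kappa

Words with a dead prefix are bounded by the potential, the others by the volume estimate.
-/

namespace SYS.GR

private theorem pf_mono {W V : Finset (List Stp)} (h : PF W) (hV : ∀ w ∈ V, w ∈ W) : PF V :=
  fun u hu w hw huw => h u (hV u hu) w (hV w hw) huw

private theorem part1 (Λ : Law) (m m' b ε K c₁ C₁ : ℝ) (hK : 0 ≤ K) (Ψ : YS → ℝ)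
    (hΨ0 : ∀ x, 0 ≤ Ψ x) (hΨd : Ψ .dead = 1) (s : ℕ) (hs : 1 ≤ s)
    (hΨs : Ψ (.live (start s) s) ≤ C₁ * Real.exp (-c₁ * b))
    (hΨst : ∀ (x : YS) (F : Finset Stp), (∀ s ∈ F, YS.D x s) →
      ∑ s ∈ F, Λ.w s * Real.exp (ε * (dP s + dV s)) * Ψ (YS.step m m' b x s) ≤ Ψ x)
    (U : ℕ → ℕ → ℝ) (hU : SM Λ U) (Qb : ℕ → Prop)
    (hUb : ∀ p v : ℕ, p ≤ s + v → Qb p → U p v ≤ K * Real.exp (ε * ((p : ℝ) + v)))
    (W : Finset (List Stp)) (hW : PF W) (hok : ∀ w ∈ W, WOk s w) (hQ : ∀ w ∈ W, ∀ u, u <+: w → Qb (wend s u))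
    (hb : ∀ w ∈ W, ∃ u, u <+: w ∧ rx (YS.step m m' b) (.live (start s) s) u = .dead) :
    ∑ w ∈ W, Λ.ww w * U (wend s w) (wvol w) ≤ K * Real.exp (ε * s) * (C₁ * Real.exp (-c₁ * b)) := by
  obtain ⟨W', hP, hW', hsum⟩ := pre_dom Λ U hU s hs W hW hok
    (fun u => rx (YS.step m m' b) (.live (start s) s) u = .dead) hb
  refine hsum.trans ?_
  have hok' : ∀ u ∈ W', WOk s u := by
    intro u hu
    obtain ⟨w, hw, t, rfl⟩ := (hW' u hu).2.2
    exact ((WOk_append s u t).mp (hok _ hw)).1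
  have hterm : ∀ u ∈ W', Λ.ww u * U (wend s u) (wvol u) ≤ K * Real.exp (ε * s) *
      (wg (YS.step m m' b) (fun _ t => Λ.w t * Real.exp (ε * (dP t + dV t))) (.live (start s) s) u *
        Ψ (rx (YS.step m m' b) (.live (start s) s) u)) := by
    intro u hu
    have hd : rx (YS.step m m' b) (.live (start s) s) u = .dead := (hW' u hu).1
    rw [hd, hΨd, mul_one, wg_const, wgt_eq Λ ε s u (hok' u hu)]
    have hQu : Qb (wend s u) := by
      obtain ⟨w, hw, hp⟩ := (hW' u hu).2.2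
      exact hQ w hw u hp
    have hU' := hUb (wend s u) (wvol u) (wend_le s u (hok' u hu)) hQu
    have he : Real.exp (ε * ((wend s u : ℝ) + wvol u)) =
        Real.exp (ε * s) * Real.exp (ε * ((wend s u : ℝ) - s + wvol u)) := by
      rw [← Real.exp_add]
      congr 1
      ring
    calc Λ.ww u * U (wend s u) (wvol u)
        ≤ Λ.ww u * (K * Real.exp (ε * ((wend s u : ℝ) + wvol u))) :=
          mul_le_mul_of_nonneg_left hU' (Λ.ww_nonneg u)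
      _ = K * Real.exp (ε * s) * (Λ.ww u * Real.exp (ε * ((wend s u : ℝ) - s + wvol u))) := by
          rw [he]; ring
  have hKe : 0 ≤ K * Real.exp (ε * s) := mul_nonneg hK (Real.exp_pos _).le
  have hws := word_sum (YS.step m m' b) YS.D (fun _ t => Λ.w t * Real.exp (ε * (dP t + dV t))) Ψ
    (fun _ t => mul_nonneg (Λ.w_nonneg t) (Real.exp_pos _).le) hΨ0 hΨst (.live (start s) s) W' hP
    (fun u hu => y_al m m' b s u (hok' u hu) (fun u' h1 h2 => (hW' u hu).2.1 u' h1 h2))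
  calc ∑ u ∈ W', Λ.ww u * U (wend s u) (wvol u)
      ≤ ∑ u ∈ W', K * Real.exp (ε * s) *
      (wg (YS.step m m' b) (fun _ t => Λ.w t * Real.exp (ε * (dP t + dV t))) (.live (start s) s) u *
        Ψ (rx (YS.step m m' b) (.live (start s) s) u)) := Finset.sum_le_sum hterm
    _ = K * Real.exp (ε * s) * ∑ u ∈ W',
      (wg (YS.step m m' b) (fun _ t => Λ.w t * Real.exp (ε * (dP t + dV t))) (.live (start s) s) u *
        Ψ (rx (YS.step m m' b) (.live (start s) s) u)) := by rw [Finset.mul_sum]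
    _ ≤ K * Real.exp (ε * s) * (C₁ * Real.exp (-c₁ * b)) :=
        mul_le_mul_of_nonneg_left (hws.trans hΨs) hKe

private theorem part2 (Λ : Law) (m' b K ε c₂ C₀ C : ℝ) (hm' : 1 < m') (hb : 1 ≤ b) (hK : 0 ≤ K)
    (hc₂ : 0 < c₂) (hC₀ : 0 < C₀) (hC : C₀ ≤ C) (s : ℕ) (U : ℕ → ℕ → ℝ)
    (Qb : ℕ → Prop) (hUb : ∀ p v : ℕ, p ≤ s + v → Qb p → U p v ≤ K * Real.exp (ε * ((p : ℝ) + v)))
    (W : Finset (List Stp)) (hW : PF W) (hok : ∀ w ∈ W, WOk s w) (hQ : ∀ w ∈ W, ∀ u, u <+: w → Qb (wend s u))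
    (hlt : ∀ w ∈ W, ∀ u, u <+: w → (wend s u : ℝ) < b * m' ^ (lay s w + 1))
    (hvo : ∀ w ∈ W, C * (b * m' ^ (lay s w + 1)) ≤ wvol w)
    (hv : ∀ (P : ℝ) (V : Finset (List Stp)), 1 ≤ P → PF V →
      (∀ w ∈ V, WOk s w ∧ (∀ u, u <+: w → u ≠ w → (wend s u : ℝ) < P) ∧ C * P ≤ wvol w) →
      ∑ w ∈ V, Λ.ww w * Real.exp (ε * ((wend s w : ℝ) + wvol w)) ≤ Real.exp (-c₂ * C * P)) :
    ∑ w ∈ W, Λ.ww w * U (wend s w) (wvol w) ≤
      K * (Real.exp (-(c₂ * C₀) * b) * (1 - Real.exp (-(c₂ * C₀ * (m' - 1))))⁻¹) := by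
  classical
  have hcC : 0 < c₂ * C₀ := mul_pos hc₂ hC₀
  have hq0 : 0 ≤ Real.exp (-(c₂ * C₀ * (m' - 1))) := (Real.exp_pos _).le
  have hq1 : Real.exp (-(c₂ * C₀ * (m' - 1))) < 1 := by
    apply Real.exp_lt_one_iff.mpr
    have : 0 < c₂ * C₀ * (m' - 1) := mul_pos hcC (by linarith)
    linarith
  have h1 : ∑ w ∈ W, Λ.ww w * U (wend s w) (wvol w) ≤
      K * ∑ w ∈ W, Λ.ww w * Real.exp (ε * ((wend s w : ℝ) + wvol w)) := by
    rw [Finset.mul_sum]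
    apply Finset.sum_le_sum
    intro w hw
    have hU' := hUb (wend s w) (wvol w) (wend_le s w (hok w hw)) (hQ w hw w (List.prefix_refl w))
    calc Λ.ww w * U (wend s w) (wvol w)
        ≤ Λ.ww w * (K * Real.exp (ε * ((wend s w : ℝ) + wvol w))) :=
          mul_le_mul_of_nonneg_left hU' (Λ.ww_nonneg w)
      _ = K * (Λ.ww w * Real.exp (ε * ((wend s w : ℝ) + wvol w))) := by ring
  refine h1.trans (mul_le_mul_of_nonneg_left ?_ hK)
  rw [← Finset.sum_fiberwise_of_maps_to (s := W) (t := W.image (lay s)) (g := lay s)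
    (fun w hw => Finset.mem_image_of_mem _ hw)]
  have h3 : ∀ r ∈ W.image (lay s), ∑ w ∈ W with lay s w = r,
      Λ.ww w * Real.exp (ε * ((wend s w : ℝ) + wvol w)) ≤
      Real.exp (-(c₂ * C₀) * b) * Real.exp (-(c₂ * C₀ * (m' - 1))) ^ r := by
    intro r _
    have hpow : 1 ≤ m' ^ (r + 1) := one_le_pow₀ hm'.le
    have hP : 1 ≤ b * m' ^ (r + 1) := by nlinarith
    have hvr := hv (b * m' ^ (r + 1)) (W.filter (fun w => lay s w = r)) hP
      (pf_mono hW (fun w hw => (Finset.mem_filter.mp hw).1)) (by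
        intro w hw
        obtain ⟨hw1, hw2⟩ := Finset.mem_filter.mp hw
        refine ⟨hok w hw1, fun u hu _ => ?_, ?_⟩
        · have := hlt w hw1 u hu
          rwa [hw2] at this
        · have := hvo w hw1
          rwa [hw2] at this)
    refine hvr.trans ?_
    rw [← Real.exp_nat_mul, ← Real.exp_add]
    apply Real.exp_le_exp.mpr
    have hber : 1 + ((r + 1 : ℕ) : ℝ) * (m' - 1) ≤ m' ^ (r + 1) := by
      have h := one_add_mul_le_pow (a := m' - 1) (by linarith) (r + 1)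
      have e : 1 + (m' - 1) = m' := by ring
      rwa [e] at h
    push_cast at hber
    have hr0 : (0 : ℝ) ≤ r := Nat.cast_nonneg r
    have hrm : 0 ≤ (r : ℝ) * (m' - 1) := mul_nonneg hr0 (by linarith)
    have hb2 : b + r * (m' - 1) ≤ b * m' ^ (r + 1) := by
      have h4 : b * (1 + r * (m' - 1)) ≤ b * m' ^ (r + 1) :=
        mul_le_mul_of_nonneg_left (by linarith) (by linarith)
      have h5 : 1 * (r * (m' - 1)) ≤ b * (r * (m' - 1)) := mul_le_mul_of_nonneg_right hb hrm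
      nlinarith
    have h6 : c₂ * C₀ * (b + r * (m' - 1)) ≤ c₂ * C₀ * (b * m' ^ (r + 1)) :=
      mul_le_mul_of_nonneg_left hb2 hcC.le
    have h7 : c₂ * C₀ * (b * m' ^ (r + 1)) ≤ c₂ * C * (b * m' ^ (r + 1)) :=
      mul_le_mul_of_nonneg_right (mul_le_mul_of_nonneg_left hC hc₂.le) (by linarith)
    linarith
  have h8 : ∑ r ∈ W.image (lay s), Real.exp (-(c₂ * C₀ * (m' - 1))) ^ r ≤
      (1 - Real.exp (-(c₂ * C₀ * (m' - 1))))⁻¹ := by
    rw [← tsum_geometric_of_lt_one hq0 hq1]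
    exact (summable_geometric_of_lt_one hq0 hq1).sum_le_tsum _ (fun i _ => pow_nonneg hq0 i)
  calc ∑ r ∈ W.image (lay s), ∑ w ∈ W with lay s w = r,
      Λ.ww w * Real.exp (ε * ((wend s w : ℝ) + wvol w))
      ≤ ∑ r ∈ W.image (lay s), Real.exp (-(c₂ * C₀) * b) * Real.exp (-(c₂ * C₀ * (m' - 1))) ^ r :=
        Finset.sum_le_sum h3
    _ = Real.exp (-(c₂ * C₀) * b) * ∑ r ∈ W.image (lay s), Real.exp (-(c₂ * C₀ * (m' - 1))) ^ r := by
        rw [Finset.mul_sum]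
    _ ≤ _ := mul_le_mul_of_nonneg_left h8 (Real.exp_pos _).le

private theorem pl_gen (Λ : Law) (δ : ℝ) (hδ : 0 < δ) : ∃ ε c C : ℝ, 0 < ε ∧ 0 < c ∧ 0 < C ∧
    ∀ (s : ℕ) (b K : ℝ) (U : ℕ → ℕ → ℝ) (W : Finset (List Stp)) (Qb : ℕ → Prop), 1 ≤ s → (s : ℝ) ≤ b → 0 ≤ K →
      SM Λ U → (∀ p v : ℕ, p ≤ s + v → Qb p → U p v ≤ K * Real.exp (ε * ((p : ℝ) + v))) → PF W →
      (∀ w ∈ W, ∀ u, u <+: w → Qb (wend s u)) →
      (∀ w ∈ W, WOk s w ∧ (b * Real.exp ((1 + δ) * Λ.kap * (lay s w + 1)) ≤ wend s w ∨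
        C * (b * Real.exp ((1 + δ) * Λ.kap * (lay s w + 1))) ≤ wvol w)) →
      ∑ w ∈ W, Λ.ww w * U (wend s w) (wvol w) ≤ C * K * Real.exp (-c * b) := by
  classical
  have hκ0 : 0 < Λ.kap := Λ.kap_pos
  have hda : 0 < 1 + Λ.d / Λ.a := by
    have := div_pos Λ.d_pos Λ.a_pos
    linarith
  have hexp : Real.exp Λ.kap = 1 + Λ.d / Λ.a := by
    unfold Law.kap
    exact Real.exp_log hda
  obtain ⟨m, hm⟩ : ∃ m : ℝ, m = Real.exp ((1 + δ / 2) * Λ.kap) := ⟨_, rfl⟩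
  obtain ⟨m', hm'⟩ : ∃ m' : ℝ, m' = Real.exp ((1 + δ) * Λ.kap) := ⟨_, rfl⟩
  have h1 : 1 + Λ.d / Λ.a < m := by
    rw [← hexp, hm]
    apply Real.exp_lt_exp.mpr
    nlinarith
  have h2 : m < m' := by
    rw [hm, hm']
    apply Real.exp_lt_exp.mpr
    nlinarith
  have hm1 : 1 ≤ m := by
    rw [hm]
    exact Real.one_le_exp (by positivity)
  have hm'1 : 1 < m' := lt_of_le_of_lt hm1 h2
  obtain ⟨ε₀, c₁, hε₀, hc₁, hpsi⟩ := psi_ex Λ m m' h1 h2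
  obtain ⟨ε₁, c₂, C₀, hε₁, hc₂, hC₀, hvol⟩ := vol Λ
  obtain ⟨ε, hεd⟩ : ∃ ε : ℝ, ε = min ε₀ (min ε₁ (c₁ / 2)) := ⟨_, rfl⟩
  have hε : 0 < ε := by
    rw [hεd]
    exact lt_min hε₀ (lt_min hε₁ (by linarith))
  have hεa : ε ≤ ε₀ := by rw [hεd]; exact min_le_left _ _
  have hεb : ε ≤ ε₁ := by rw [hεd]; exact (min_le_right _ _).trans (min_le_left _ _)
  have hεc : ε ≤ c₁ / 2 := by rw [hεd]; exact (min_le_right _ _).trans (min_le_right _ _)
  obtain ⟨C₁, hC₁, hΨ⟩ := hpsi ε hε.le hεa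
  have hcC : 0 < c₂ * C₀ := mul_pos hc₂ hC₀
  obtain ⟨G, hG⟩ : ∃ G : ℝ, G = (1 - Real.exp (-(c₂ * C₀ * (m' - 1))))⁻¹ := ⟨_, rfl⟩
  have hG0 : 0 < G := by
    rw [hG]
    apply inv_pos.mpr
    have : Real.exp (-(c₂ * C₀ * (m' - 1))) < 1 := by
      apply Real.exp_lt_one_iff.mpr
      have : 0 < c₂ * C₀ * (m' - 1) := mul_pos hcC (by linarith)
      linarith
    linarith
  refine ⟨ε, min (c₁ / 2) (c₂ * C₀), C₀ + C₁ + G, hε, lt_min (by linarith) hcC, by linarith, ?_⟩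
  intro s b K U W Qb hs hsb hK hU hUb hW hQ hw
  have hb1 : 1 ≤ b := le_trans (by exact_mod_cast hs) hsb
  have hpow : ∀ n : ℕ, Real.exp ((1 + δ) * Λ.kap * ((n : ℝ) + 1)) = m' ^ (n + 1) := by
    intro n
    rw [hm', ← Real.exp_nat_mul]
    congr 1
    push_cast
    ring
  obtain ⟨Ψ, hΨ0, hΨd, hΨs, hΨst⟩ := hΨ b (by linarith)
  rw [← Finset.sum_filter_add_sum_filter_not W
    (fun w => ∃ u, u <+: w ∧ rx (YS.step m m' b) (.live (start s) s) u = .dead)]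
  have hp1 := part1 Λ m m' b ε K c₁ C₁ hK Ψ hΨ0 hΨd s hs (hΨs s) hΨst U hU Qb hUb
    (W.filter (fun w => ∃ u, u <+: w ∧ rx (YS.step m m' b) (.live (start s) s) u = .dead))
    (pf_mono hW (fun w hw => (Finset.mem_filter.mp hw).1))
    (fun w h => (hw w (Finset.mem_filter.mp h).1).1) (fun w h => hQ w (Finset.mem_filter.mp h).1)
    (fun w h => (Finset.mem_filter.mp h).2)
  have hlt : ∀ w ∈ W.filter (fun w => ¬ ∃ u, u <+: w ∧
      rx (YS.step m m' b) (.live (start s) s) u = .dead), ∀ u, u <+: w →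
      (wend s u : ℝ) < b * m' ^ (lay s w + 1) := by
    intro w h u hu
    obtain ⟨hwW, hnd⟩ := Finset.mem_filter.mp h
    have hokw := (hw w hwW).1
    obtain ⟨t, rfl⟩ := hu
    have hoku := ((WOk_append s u t).mp hokw).1
    have h3 := p_lt_of_live m m' b hm1 h2 s hs hsb u hoku
      (fun hd => hnd ⟨u, List.prefix_append u t, hd⟩)
    have h4 : lay s u ≤ lay s (u ++ t) := by
      unfold lay
      rw [lrun_append]
      exact lrun_r_le _ _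
    have h5 : m' ^ (lay s u + 1) ≤ m' ^ (lay s (u ++ t) + 1) :=
      pow_le_pow_right₀ hm'1.le (by omega)
    exact lt_of_lt_of_le h3 (mul_le_mul_of_nonneg_left h5 (by linarith))
  have hvo : ∀ w ∈ W.filter (fun w => ¬ ∃ u, u <+: w ∧
      rx (YS.step m m' b) (.live (start s) s) u = .dead),
      (C₀ + C₁ + G) * (b * m' ^ (lay s w + 1)) ≤ wvol w := by
    intro w h
    obtain ⟨hwW, hnd⟩ := Finset.mem_filter.mp h
    rcases (hw w hwW).2 with h3 | h3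
    · rw [hpow] at h3
      exact absurd (hlt w h w (List.prefix_refl w)) (not_lt.mpr h3)
    · rw [hpow] at h3
      exact h3
  have hp2 := part2 Λ m' b K ε c₂ C₀ (C₀ + C₁ + G) hm'1 hb1 hK hc₂ hC₀ (by linarith) s U Qb hUb
    (W.filter (fun w => ¬ ∃ u, u <+: w ∧ rx (YS.step m m' b) (.live (start s) s) u = .dead))
    (pf_mono hW (fun w hw => (Finset.mem_filter.mp hw).1))
    (fun w h => (hw w (Finset.mem_filter.mp h).1).1) (fun w h => hQ w (Finset.mem_filter.mp h).1) hlt hvo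
    (fun P V hP hV hc => hvol ε (C₀ + C₁ + G) P s V hε.le hεb (by linarith) hP hV hc)
  rw [← hG] at hp2
  have hc1 : min (c₁ / 2) (c₂ * C₀) * b ≤ c₁ / 2 * b :=
    mul_le_mul_of_nonneg_right (min_le_left _ _) (by linarith)
  have hc2 : min (c₁ / 2) (c₂ * C₀) * b ≤ c₂ * C₀ * b :=
    mul_le_mul_of_nonneg_right (min_le_right _ _) (by linarith)
  have hs0 : (0 : ℝ) ≤ s := Nat.cast_nonneg s
  have hes : ε * s ≤ c₁ / 2 * b := by
    calc ε * s ≤ c₁ / 2 * s := mul_le_mul_of_nonneg_right hεc hs0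
      _ ≤ c₁ / 2 * b := mul_le_mul_of_nonneg_left hsb (by linarith)
  have h6 : Real.exp (ε * s) * Real.exp (-c₁ * b) ≤ Real.exp (-min (c₁ / 2) (c₂ * C₀) * b) := by
    rw [← Real.exp_add]
    apply Real.exp_le_exp.mpr
    linarith
  have h7 : Real.exp (-(c₂ * C₀) * b) ≤ Real.exp (-min (c₁ / 2) (c₂ * C₀) * b) := by
    apply Real.exp_le_exp.mpr
    linarith
  have hE : 0 < Real.exp (-min (c₁ / 2) (c₂ * C₀) * b) := Real.exp_pos _
  have h8 : K * Real.exp (ε * s) * (C₁ * Real.exp (-c₁ * b)) ≤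
      C₁ * K * Real.exp (-min (c₁ / 2) (c₂ * C₀) * b) := by
    calc K * Real.exp (ε * s) * (C₁ * Real.exp (-c₁ * b))
        = C₁ * K * (Real.exp (ε * s) * Real.exp (-c₁ * b)) := by ring
      _ ≤ _ := mul_le_mul_of_nonneg_left h6 (mul_nonneg hC₁.le hK)
  have h9 : K * (Real.exp (-(c₂ * C₀) * b) * G) ≤ G * K * Real.exp (-min (c₁ / 2) (c₂ * C₀) * b) := by
    calc K * (Real.exp (-(c₂ * C₀) * b) * G) = G * K * Real.exp (-(c₂ * C₀) * b) := by ring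
      _ ≤ _ := mul_le_mul_of_nonneg_left h7 (mul_nonneg hG0.le hK)
  have h10 : 0 ≤ C₀ * K * Real.exp (-min (c₁ / 2) (c₂ * C₀) * b) := by positivity
  calc _ ≤ K * Real.exp (ε * s) * (C₁ * Real.exp (-c₁ * b)) + K * (Real.exp (-(c₂ * C₀) * b) * G) :=
        add_le_add hp1 hp2
    _ ≤ _ := by linarith [h8, h9, h10, add_mul (C₀ + C₁) G K]

theorem gro_plus (Λ : Law) (δ : ℝ) (hδ : 0 < δ) : ∃ ε c C : ℝ, 0 < ε ∧ 0 < c ∧ 0 < C ∧
    ∀ (s : ℕ) (b K : ℝ) (U : ℕ → ℕ → ℝ) (W : Finset (List Stp)), 1 ≤ s → (s : ℝ) ≤ b → 0 ≤ K → SM Λ U →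
      (∀ p v : ℕ, p ≤ s + v → U p v ≤ K * Real.exp (ε * ((p : ℝ) + v))) → PF W →
      (∀ w ∈ W, WOk s w ∧ (b * Real.exp ((1 + δ) * Λ.kap * (lay s w + 1)) ≤ wend s w ∨
        C * (b * Real.exp ((1 + δ) * Λ.kap * (lay s w + 1))) ≤ wvol w)) →
      ∑ w ∈ W, Λ.ww w * U (wend s w) (wvol w) ≤ C * K * Real.exp (-c * b) := by
  obtain ⟨ε, c, C, hε, hc, hC, h⟩ := pl_gen Λ δ hδ
  exact ⟨ε, c, C, hε, hc, hC, fun s b K U W hs hsb hK hU hUb hW hw =>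
    h s b K U W (fun _ => True) hs hsb hK hU (fun p v h1 _ => hUb p v h1) hW (fun _ _ _ _ => trivial) hw⟩

/-- The bound on `U` is only needed for `p ≤ P + 1` if all proper prefixes have perimeter `< P`. -/
theorem gro_plus' (Λ : Law) (δ : ℝ) (hδ : 0 < δ) : ∃ ε c C : ℝ, 0 < ε ∧ 0 < c ∧ 0 < C ∧
    ∀ (s : ℕ) (b P K : ℝ) (U : ℕ → ℕ → ℝ) (W : Finset (List Stp)), 1 ≤ s → (s : ℝ) ≤ b → 0 ≤ K → SM Λ U →
      (∀ p v : ℕ, p ≤ s + v → (p : ℝ) ≤ P + 1 → U p v ≤ K * Real.exp (ε * ((p : ℝ) + v))) → PF W →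
      (∀ w ∈ W, WOk s w ∧ (∀ u, u <+: w → u ≠ w → (wend s u : ℝ) < P) ∧
        (b * Real.exp ((1 + δ) * Λ.kap * (lay s w + 1)) ≤ wend s w ∨
          C * (b * Real.exp ((1 + δ) * Λ.kap * (lay s w + 1))) ≤ wvol w)) →
      ∑ w ∈ W, Λ.ww w * U (wend s w) (wvol w) ≤ C * K * Real.exp (-c * b) := by
  obtain ⟨ε, c, C, hε, hc, hC, h⟩ := pl_gen Λ δ hδ
  refine ⟨ε, c, C, hε, hc, hC, fun s b P K U W hs hsb hK hU hUb hW hw =>
    h s b K U W (fun p => (p : ℝ) ≤ P + 1) hs hsb hK hU hUb hW (fun w hwW => ?_)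
      (fun w hwW => ⟨(hw w hwW).1, (hw w hwW).2.2⟩)⟩
  obtain ⟨h1, h2, h3⟩ := hw w hwW
  refine wend_le_of_prefix h1 ?_ h2
  rintro rfl
  have hb : 0 < b := lt_of_lt_of_le (by exact_mod_cast hs) hsb
  have he : 1 < Real.exp ((1 + δ) * Λ.kap * ((lay s [] : ℝ) + 1)) := by
    apply Real.one_lt_exp_iff.mpr
    have h4 : (0 : ℝ) ≤ (lay s [] : ℝ) := Nat.cast_nonneg _
    have h5 := Λ.kap_pos
    positivity
  rcases h3 with h3 | h3
  · rw [wend_nil] at h3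
    nlinarith
  · rw [wvol_nil, Nat.cast_zero] at h3
    have : 0 < C * (b * Real.exp ((1 + δ) * Λ.kap * ((lay s [] : ℝ) + 1))) := by positivity
    linarith

end SYS.GR
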