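import Pool.Agent.SYS.GR.WSum

/-!
# SYS-GR-Pre: domination by the minimal prefixes with a property

The words are grouped by their minimal prefix with the property; each group is bounded with `word_sum`.
-/

namespace SYS.GR

private theorem vol_of_nx (p : ℕ) (s : Stp) (h : s.Ok p) : s.nx p ≤ p + s.vol := by
  cases s with
  | T => exact le_rfl
  | L k a => show p - (k + 2) ≤ p + a; omega
  | R k a => show p - (k + 2) ≤ p + a; omega

theorem wend_le (s : ℕ) (w : List Stp) (h : WOk s w) : wend s w ≤ s + wvol w := by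
  induction w generalizing s with
  | nil => simp [wend_nil, wvol_nil]
  | cons t w ih =>
    rw [wend_cons, wvol_cons]
    have h1 := ih (t.nx s) h.2
    have h2 := vol_of_nx s t h.1
    omega

/-- the machine with state (perimeter, volume) -/
private def pst : ℕ × ℕ → Stp → ℕ × ℕ := fun x s => (s.nx x.1, x.2 + s.vol)

private theorem pst_rx (x : ℕ × ℕ) (w : List Stp) : rx pst x w = (wend x.1 w, x.2 + wvol w) := by
  induction w generalizing x with
  | nil => simp [rx_nil, wend_nil, wvol_nil]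
  | cons s w ih => rw [rx_cons, ih, wend_cons, wvol_cons]; simp [pst, add_assoc]

private theorem pst_wg (Λ : Law) (x : ℕ × ℕ) (w : List Stp) : wg pst (fun _ s => Λ.w s) x w = Λ.ww w := by
  induction w generalizing x with
  | nil => simp [wg, Λ.ww_nil]
  | cons s w ih => rw [Λ.ww_cons]; simp only [wg]; rw [ih]

private theorem pst_al (x : ℕ × ℕ) (hx : 1 ≤ x.1) (w : List Stp) (h : WOk x.1 w) :
    Al pst (fun x s => 1 ≤ x.1 ∧ s.Ok x.1) x w := by
  induction w generalizing x with
  | nil => trivial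
  | cons s w ih => exact ⟨⟨hx, h.1⟩, ih (pst x s) (Stp.one_le_nx h.1) h.2⟩

private theorem sm_sum (Λ : Law) (U : ℕ → ℕ → ℝ) (hU : SM Λ U) (p v : ℕ) (hp : 1 ≤ p)
    (W : Finset (List Stp)) (hW : PF W) (hok : ∀ w ∈ W, WOk p w) :
    ∑ w ∈ W, Λ.ww w * U (wend p w) (v + wvol w) ≤ U p v := by
  have := word_sum pst (fun x s => 1 ≤ x.1 ∧ s.Ok x.1) (fun _ s => Λ.w s) (fun x => U x.1 x.2)
    (fun _ s => Λ.w_nonneg s) (fun x => hU.1 x.1 x.2) ?_ (p, v) W hW (fun w hw => pst_al (p, v) hp w (hok w hw))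
  · refine le_trans (le_of_eq (Finset.sum_congr rfl fun w _ => ?_)) this
    rw [pst_wg, pst_rx]
  · intro x F hF
    rcases F.eq_empty_or_nonempty with hE | ⟨s, hs⟩
    · rw [hE, Finset.sum_empty]; exact hU.1 _ _
    · exact hU.2 x.1 x.2 F (hF s hs).1 (fun t ht => (hF t ht).2)

theorem pre_dom (Λ : Law) (U : ℕ → ℕ → ℝ) (hU : SM Λ U) (s : ℕ) (hs : 1 ≤ s)
    (W : Finset (List Stp)) (hW : PF W) (hok : ∀ w ∈ W, WOk s w) (b : List Stp → Prop)
    (hb : ∀ w ∈ W, ∃ u, u <+: w ∧ b u) :
    ∃ W' : Finset (List Stp), PF W' ∧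
      (∀ u ∈ W', b u ∧ (∀ u', u' <+: u → u' ≠ u → ¬ b u') ∧ ∃ w ∈ W, u <+: w) ∧
      ∑ w ∈ W, Λ.ww w * U (wend s w) (wvol w) ≤ ∑ u ∈ W', Λ.ww u * U (wend s u) (wvol u) := by
  classical
  -- the minimal prefix
  have hex : ∀ w ∈ W, ∃ u, u <+: w ∧ b u ∧ ∀ u', u' <+: u → u' ≠ u → ¬ b u' := by
    intro w hw
    have h0 : ∃ n, b (w.take n) := by
      obtain ⟨u, hu, hbu⟩ := hb w hw
      exact ⟨u.length, by rw [← List.prefix_iff_eq_take.mp hu]; exact hbu⟩
    refine ⟨w.take (Nat.find h0), List.take_prefix _ _, Nat.find_spec h0, ?_⟩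
    intro u' hu' hne hbu'
    have hpw : u' <+: w := hu'.trans (List.take_prefix _ _)
    have e1 : u' = w.take u'.length := List.prefix_iff_eq_take.mp hpw
    have hle : u'.length ≤ (w.take (Nat.find h0)).length := hu'.length_le
    have hlt : u'.length < (w.take (Nat.find h0)).length := by
      rcases lt_or_eq_of_le hle with h | h
      · exact h
      · exact absurd (hu'.eq_of_length h) hne
    have hlt2 : u'.length < Nat.find h0 := lt_of_lt_of_le hlt (by rw [List.length_take]; exact min_le_left _ _)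
    refine Nat.find_min h0 hlt2 ?_
    rw [← e1]; exact hbu'
  choose! f hf using hex
  refine ⟨W.image f, ?_, ?_, ?_⟩
  · intro u hu v hv huv
    obtain ⟨w, hw, rfl⟩ := Finset.mem_image.mp hu
    obtain ⟨w', hw', rfl⟩ := Finset.mem_image.mp hv
    by_contra hne
    exact (hf w' hw').2.2 (f w) huv hne (hf w hw).2.1
  · intro u hu
    obtain ⟨w, hw, rfl⟩ := Finset.mem_image.mp hu
    exact ⟨(hf w hw).2.1, (hf w hw).2.2, w, hw, (hf w hw).1⟩
  · have hmap : ∀ w ∈ W, f w ∈ W.image f := fun w hw => Finset.mem_image_of_mem f hw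
    rw [← Finset.sum_fiberwise_of_maps_to hmap]
    refine Finset.sum_le_sum fun u hu => ?_
    have hdec : ∀ w ∈ W.filter (fun w => f w = u), w = u ++ w.drop u.length := by
      intro w hw
      have hw' := Finset.mem_filter.mp hw
      have hp := (hf w hw'.1).1
      rw [hw'.2] at hp
      obtain ⟨t, rfl⟩ := hp
      simp
    have hinj : Set.InjOn (List.drop u.length) (↑(W.filter fun w => f w = u) : Set (List Stp)) := by
      intro w hw v hv hwv
      rw [hdec w (Finset.mem_coe.mp hw), hdec v (Finset.mem_coe.mp hv), hwv]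
    have hoku : WOk s u := by
      obtain ⟨w, hw, hwu⟩ := Finset.mem_image.mp hu
      have h1 := (hf w hw).1
      rw [hwu] at h1
      obtain ⟨t, ht⟩ := h1
      have := hok w hw
      rw [← ht, WOk_append] at this
      exact this.1
    have e1 : ∑ w ∈ W with f w = u, Λ.ww w * U (wend s w) (wvol w) =
        ∑ w ∈ W with f w = u, Λ.ww u * (Λ.ww (w.drop u.length) *
          U (wend (wend s u) (w.drop u.length)) (wvol u + wvol (w.drop u.length))) := by
      refine Finset.sum_congr rfl fun w hw => ?_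
      conv_lhs => rw [hdec w hw]
      rw [Λ.ww_append, wend_append, wvol_append]
      ring
    rw [e1, ← Finset.mul_sum]
    refine mul_le_mul_of_nonneg_left ?_ (Λ.ww_nonneg u)
    rw [← Finset.sum_image (f := fun w' => Λ.ww w' * U (wend (wend s u) w') (wvol u + wvol w')) hinj]
    refine sm_sum Λ U hU (wend s u) (wvol u) (one_le_wend hs hoku) _ ?_ ?_
    · intro v' hv' w' hw' hvw
      obtain ⟨v, hv, rfl⟩ := Finset.mem_image.mp hv'
      obtain ⟨w, hw, rfl⟩ := Finset.mem_image.mp hw'
      have : v = w := by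
        refine hW v (Finset.mem_filter.mp hv).1 w (Finset.mem_filter.mp hw).1 ?_
        rw [hdec v hv, hdec w hw]
        exact (List.prefix_append_right_inj u).mpr hvw
      rw [this]
    · intro w' hw'
      obtain ⟨w, hw, rfl⟩ := Finset.mem_image.mp hw'
      have h1 := hok w (Finset.mem_filter.mp hw).1
      rw [hdec w hw, WOk_append] at h1
      exact h1.2

end SYS.GR
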