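import Pool.Agent.SYS.GR.Defs

/-!
# SYS-GR-WSum: sums over prefix-free sets of words

Proved by induction on a bound for the lengths of the words.
-/

namespace SYS.GR

private theorem word_sum_aux {σ : Type} (step : σ → Stp → σ) (D : σ → Stp → Prop) (g : σ → Stp → ℝ) (Φ : σ → ℝ)
    (hg : ∀ x s, 0 ≤ g x s) (hΦ : ∀ x, 0 ≤ Φ x)
    (h : ∀ x (F : Finset Stp), (∀ s ∈ F, D x s) → ∑ s ∈ F, g x s * Φ (step x s) ≤ Φ x) (n : ℕ) :
    ∀ (x : σ) (W : Finset (List Stp)), PF W → (∀ w ∈ W, Al step D x w) → (∀ w ∈ W, w.length ≤ n) →
      ∑ w ∈ W, wg step g x w * Φ (rx step x w) ≤ Φ x := by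
  have base : ∀ (x : σ) (W : Finset (List Stp)), (∀ w ∈ W, w = []) →
      ∑ w ∈ W, wg step g x w * Φ (rx step x w) ≤ Φ x := by
    intro x W hW
    have hs : W ⊆ {[]} := fun w hw => Finset.mem_singleton.mpr (hW w hw)
    calc ∑ w ∈ W, wg step g x w * Φ (rx step x w) ≤ ∑ w ∈ ({[]} : Finset (List Stp)), wg step g x w * Φ (rx step x w) := by
          refine Finset.sum_le_sum_of_subset_of_nonneg hs ?_
          intro w hw _
          rw [Finset.mem_singleton.mp hw]
          simp only [wg, rx_nil, one_mul]
          exact hΦ x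
      _ = Φ x := by simp [wg, rx_nil]
  induction n with
  | zero =>
    intro x W _ _ hl
    exact base x W fun w hw => List.length_eq_zero_iff.mp (Nat.le_zero.mp (hl w hw))
  | succ n ih =>
    intro x W hPF hA hl
    by_cases h0 : ([] : List Stp) ∈ W
    · refine base x W fun w hw => ?_
      exact (hPF [] h0 w hw List.nil_prefix).symm
    · set hd : List Stp → Stp := fun w => w.headD Stp.T with hhd
      have hcons : ∀ w ∈ W, w = hd w :: w.tail := by
        intro w hw
        cases w with
        | nil => exact absurd hw h0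
        | cons s w => simp [hhd]
      have hmap : ∀ w ∈ W, hd w ∈ W.image hd := fun w hw => Finset.mem_image_of_mem hd hw
      rw [← Finset.sum_fiberwise_of_maps_to hmap]
      refine le_trans (Finset.sum_le_sum (g := fun s => g x s * Φ (step x s)) ?_) (h x (W.image hd) ?_)
      · intro s hs
        have hinj : Set.InjOn List.tail (↑(W.filter fun w => hd w = s) : Set (List Stp)) := by
          intro u hu v hv huv
          have hu' := Finset.mem_filter.mp (Finset.mem_coe.mp hu)
          have hv' := Finset.mem_filter.mp (Finset.mem_coe.mp hv)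
          rw [hcons u hu'.1, hcons v hv'.1, hu'.2, hv'.2, huv]
        have e1 : ∑ w ∈ W with hd w = s, wg step g x w * Φ (rx step x w) =
            ∑ w ∈ W with hd w = s, g x s * (wg step g (step x s) w.tail * Φ (rx step (step x s) w.tail)) := by
          refine Finset.sum_congr rfl fun w hw => ?_
          have hw' := Finset.mem_filter.mp hw
          conv_lhs => rw [hcons w hw'.1, hw'.2]
          simp only [wg, rx_cons]
          ring
        rw [e1, ← Finset.mul_sum]
        refine mul_le_mul_of_nonneg_left ?_ (hg x s)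
        rw [← Finset.sum_image (f := fun w' => wg step g (step x s) w' * Φ (rx step (step x s) w')) hinj]
        refine ih (step x s) _ ?_ ?_ ?_
        · intro u' hu' v' hv' huv
          obtain ⟨u, hu, rfl⟩ := Finset.mem_image.mp hu'
          obtain ⟨v, hv, rfl⟩ := Finset.mem_image.mp hv'
          have hu1 := Finset.mem_filter.mp hu
          have hv1 := Finset.mem_filter.mp hv
          have : u = v := by
            refine hPF u hu1.1 v hv1.1 ?_
            rw [hcons u hu1.1, hcons v hv1.1, hu1.2, hv1.2]
            exact (List.prefix_cons_inj s).mpr huv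
          rw [this]
        · intro u' hu'
          obtain ⟨u, hu, rfl⟩ := Finset.mem_image.mp hu'
          have hu1 := Finset.mem_filter.mp hu
          have := hA u hu1.1
          rw [hcons u hu1.1, hu1.2] at this
          exact this.2
        · intro u' hu'
          obtain ⟨u, hu, rfl⟩ := Finset.mem_image.mp hu'
          have hu1 := Finset.mem_filter.mp hu
          have := hl u hu1.1
          rw [List.length_tail]
          omega
      · intro s hs
        obtain ⟨w, hw, rfl⟩ := Finset.mem_image.mp hs
        have := hA w hw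
        rw [hcons w hw] at this
        exact this.1

theorem word_sum {σ : Type} (step : σ → Stp → σ) (D : σ → Stp → Prop) (g : σ → Stp → ℝ) (Φ : σ → ℝ)
    (hg : ∀ x s, 0 ≤ g x s) (hΦ : ∀ x, 0 ≤ Φ x)
    (h : ∀ x (F : Finset Stp), (∀ s ∈ F, D x s) → ∑ s ∈ F, g x s * Φ (step x s) ≤ Φ x)
    (x : σ) (W : Finset (List Stp)) (hW : PF W) (hA : ∀ w ∈ W, Al step D x w) :
    ∑ w ∈ W, wg step g x w * Φ (rx step x w) ≤ Φ x :=
  word_sum_aux step D g Φ hg hΦ h (W.sup List.length) x W hW hA fun _ hw => Finset.le_sup (f := List.length) hw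

end SYS.GR
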